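import Pool.Agent.Lib.MP_dee884_lc.H2.Dia

/-!
# MP_dee884_lc, H2: the Boolean closure of a tame family is tame
-/

namespace MPdee884H2

open MPdee884H1 Pool.Agent.Lin

theorem BC.rep {A : Type} {P : Set (List A) → Prop} {M : Set (List A)} (h : BC P M) :
    ∃ (κ : Type) (_ : Finite κ) (L : κ → Set (List A)) (b : (κ → Prop) → Prop),
      (∀ i, P (L i)) ∧ ∀ x, x ∈ M ↔ b (fun i => x ∈ L i) := by
  induction h with
  | base L hL =>
    exact ⟨Unit, inferInstance, fun _ => L, fun f => f (), fun _ => hL, fun x => Iff.rfl⟩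
  | compl _ _ ih =>
    obtain ⟨ι, h1, L, b, h2, h3⟩ := ih
    refine ⟨ι, h1, L, fun f => ¬ b f, h2, ?_⟩
    intro x
    rw [Set.mem_compl_iff, h3]
  | union _ _ _ _ ih1 ih2 =>
    obtain ⟨ι, h1, L, b, h2, h3⟩ := ih1
    obtain ⟨ι', h1', L', b', h2', h3'⟩ := ih2
    refine ⟨ι ⊕ ι', inferInstance, Sum.elim L L', fun f => b (fun i => f (Sum.inl i)) ∨
      b' (fun i => f (Sum.inr i)), ?_, ?_⟩
    · rintro (i | i)
      · exact h2 i
      · exact h2' i
    · intro x
      rw [Set.mem_union, h3, h3']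
      rfl

/-- the evaluation with a given clause and a given literal -/
def V3 {ι A : Type} (e : Kl (Xd ι) → List Bool) (W : ι → Set (List (A × Bool))) :
    Set (List (((A × Bool) × Bool) × Bool)) :=
  {v | ∀ b : Bool, liw (Xd ι) b (mu (fun l => l.1.2) v) (mu (fun l => l.2) v) ∈
    Ent e (v.map (fun l => l.1.1.2)) →
      (Evl e W (mu (fun l => l.2) v) (v.map (fun l => l.1.1.2)) (v.map (fun l => l.1.1.1)) ↔
        b = true)}

theorem Rud.v3 {ι A : Type} [Finite ι] [Finite A] (e : Kl (Xd ι) → List Bool)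
    (W : ι → Set (List (A × Bool))) (hW : ∀ i, Rud (A × Bool) (W i)) :
    Rud (((A × Bool) × Bool) × Bool) (V3 e W) := by
  refine Rud.congr (Rud.iInter (ι := Bool) (fun b => {v | liw (Xd ι) b
    (mu (fun l => l.1.2) v) (mu (fun l => l.2) v) ∈ Ent e (v.map (fun l => l.1.1.2)) →
      (Evl e W (mu (fun l => l.2) v) (v.map (fun l => l.1.1.2)) (v.map (fun l => l.1.1.1)) ↔
        b = true)}) ?_) (fun w => Iff.rfl)
  intro b
  have h1 := (R0.ent (A := ((A × Bool) × Bool) × Bool) e
    [(fun _ => [], [Sum.inl (if b = true then 1 else 2)]),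
      (fun l => if l.1.2 = true then [Sum.inl 5] else [], [Sum.inl 4]),
      (fun l => if l.2 = true then [Sum.inl 5] else [], [])]
    (fun l => [l.1.1.2]) (by simp)).rud
  have h2 := Rud.evl (Y := ((A × Bool) × Bool) × Bool) e W hW (fun l => l.1.1.1)
    (fun l => l.1.1.2) (fun l => l.2)
  have h3 : Rud (((A × Bool) × Bool) × Bool)
      {v | (Evl e W (mu (fun l => l.2) v) (v.map (fun l => l.1.1.2)) (v.map (fun l => l.1.1.1)) ↔
        b = true)} := by
    cases b with
    | true =>
      refine h2.congr ?_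
      intro w
      simp only [Set.mem_ofPred_eq, iff_true]
    | false =>
      refine h2.compl.congr ?_
      intro w
      simp only [Set.mem_compl_iff, Set.mem_ofPred_eq, Bool.false_eq_true, iff_false]
  refine (Rud.imp h1 h3).congr ?_
  intro v
  have e1 : mp [(fun _ => [], [Sum.inl (if b = true then 1 else 2)]),
      (fun l : ((A × Bool) × Bool) × Bool => if l.1.2 = true then [Sum.inl 5] else [],
        [Sum.inl 4]),
      (fun l => if l.2 = true then [Sum.inl 5] else [], [])] v =
      liw (Xd ι) b (mu (fun l => l.1.2) v) (mu (fun l => l.2) v) := by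
    have h0 : v.flatMap (fun _ : ((A × Bool) × Bool) × Bool => ([] : List (Kl (Xd ι)))) = [] := by
      simp
    unfold mp liw
    rw [List.flatMap_cons, List.flatMap_cons, List.flatMap_cons, List.flatMap_nil,
      mp_unit (X := Xd ι) (fun l : ((A × Bool) × Bool) × Bool => l.1.2) v,
      mp_unit (X := Xd ι) (fun l : ((A × Bool) × Bool) × Bool => l.2) v, h0]
    simp only [List.nil_append, List.append_nil, List.cons_append, List.append_assoc]
  have e2 : v.flatMap (fun l => [l.1.1.2]) = v.map (fun l => l.1.1.2) := by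
    clear e1
    induction v with
    | nil => rfl
    | cons b v ih => simp [ih]
  simp only [Set.mem_ofPred_eq, e1, e2]

/-- the evaluation with a given clause -/
def V2 {ι A : Type} (e : Kl (Xd ι) → List Bool) (W : ι → Set (List (A × Bool))) :
    Set (List ((A × Bool) × Bool)) :=
  {v | clw (Xd ι) (mu (fun l => l.2) v) ∈ Ent e (v.map (fun l => l.1.2)) ∧
    ∀ w : List (((A × Bool) × Bool) × Bool), w.map Prod.fst = v → w ∈ V3 e W}

theorem Rud.v2 {ι A : Type} [Finite ι] [Finite A] (e : Kl (Xd ι) → List Bool)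
    (W : ι → Set (List (A × Bool))) (hW : ∀ i, Rud (A × Bool) (W i)) :
    Rud ((A × Bool) × Bool) (V2 e W) := by
  have h1 := (R0.ent (A := (A × Bool) × Bool) e
    [(fun _ => [], [Sum.inl 0]), (fun l => if l.2 = true then [Sum.inl 5] else [], [])]
    (fun l => [l.1.2]) (by simp)).rud
  refine (Rud.inter h1 (Rud.all Prod.fst (Rud.v3 e W hW))).congr ?_
  intro v
  have e1 : mp [(fun _ => [], [Sum.inl 0]),
      (fun l : (A × Bool) × Bool => if l.2 = true then [Sum.inl 5] else [], [])] v =
      clw (Xd ι) (mu (fun l => l.2) v) := by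
    have h0 : v.flatMap (fun _ : (A × Bool) × Bool => ([] : List (Kl (Xd ι)))) = [] := by
      simp
    unfold mp clw
    rw [List.flatMap_cons, List.flatMap_cons, List.flatMap_nil,
      mp_unit (X := Xd ι) (fun l : (A × Bool) × Bool => l.2) v, h0]
    simp only [List.nil_append, List.append_nil, List.cons_append]
  have e2 : v.flatMap (fun l => [l.1.2]) = v.map (fun l => l.1.2) := by
    clear e1
    induction v with
    | nil => rfl
    | cons b v ih => simp [ih]
  simp only [Set.mem_inter_iff, Set.mem_ofPred_eq, e1, e2, V2]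

/-- the evaluation of the Boolean combinations -/
def V1 {ι A : Type} (e : Kl (Xd ι) → List Bool) (W : ι → Set (List (A × Bool))) :
    Set (List (A × Bool)) :=
  {y | ∃ v ∈ V2 e W, v.map Prod.fst = y}

theorem Rud.v1 {ι A : Type} [Finite ι] [Finite A] (e : Kl (Xd ι) → List Bool)
    (W : ι → Set (List (A × Bool))) (hW : ∀ i, Rud (A × Bool) (W i)) :
    Rud (A × Bool) (V1 e W) := Rud.img Prod.fst (Rud.v2 e W hW)

theorem mem_V1 {ι A : Type} (e : Kl (Xd ι) → List Bool) (W : ι → Set (List (A × Bool)))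
    (x : List A) (c : List Bool) (hx : x.length = c.length) :
    x.zip c ∈ V1 e W ↔ ∃ s : List Unit, s.length ≤ x.length ∧ clw (Xd ι) s ∈ Ent e c ∧
      ∀ t : List Unit, t.length ≤ x.length → ∀ b : Bool, liw (Xd ι) b s t ∈ Ent e c →
        (Evl e W t c x ↔ b = true) := by
  have k1 : (x.zip c).map Prod.fst = x := List.map_fst_zip (by omega)
  have k2 : (x.zip c).map Prod.snd = c := List.map_snd_zip (by omega)
  have k3 : (x.zip c).length = x.length := by simp [hx]
  have key1 : ∀ v : List ((A × Bool) × Bool), v.map Prod.fst = x.zip c →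
      v.map (fun l => l.1.2) = c ∧ v.map (fun l => l.1.1) = x := by
    intro v hv
    constructor
    · rw [← k2, ← hv, List.map_map]
      rfl
    · rw [← k1, ← hv, List.map_map]
      rfl
  have key2 : ∀ (v : List ((A × Bool) × Bool)) (w : List (((A × Bool) × Bool) × Bool)),
      v.map Prod.fst = x.zip c → w.map Prod.fst = v →
      w.map (fun l => l.1.1.2) = c ∧ w.map (fun l => l.1.1.1) = x ∧
        mu (fun l => l.1.2) w = mu Prod.snd v := by
    intro v w hv hw
    obtain ⟨g1, g2⟩ := key1 v hv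
    refine ⟨?_, ?_, ?_⟩
    · rw [← g1, ← hw, List.map_map]
      rfl
    · rw [← g2, ← hw, List.map_map]
      rfl
    · rw [← hw, mu_map]
  constructor
  · rintro ⟨v, ⟨h1, h2⟩, hv⟩
    obtain ⟨g1, g2⟩ := key1 v hv
    have g3 : v.length = x.length := by rw [← k3, ← hv, List.length_map]
    refine ⟨mu (fun l => l.2) v, ?_, ?_, ?_⟩
    · rw [← g3]
      exact mu_length _ _
    · rw [g1] at h1
      exact h1
    · intro t ht b hb
      obtain ⟨w, hw1, hw2⟩ := exists_track v t (by omega)
      obtain ⟨g4, g5, g6⟩ := key2 v w hv hw1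
      have h3 := h2 w hw1 b
      rw [g4, g5, g6] at h3
      have hw2' : mu (fun l => l.2) w = t := hw2
      rw [hw2'] at h3
      exact h3 hb
  · rintro ⟨s, h1, h2, h3⟩
    obtain ⟨v, hv1, hv2⟩ := exists_track (x.zip c) s (by omega)
    obtain ⟨g1, g2⟩ := key1 v hv1
    have g3 : v.length = x.length := by rw [← k3, ← hv1, List.length_map]
    refine ⟨v, ⟨?_, ?_⟩, hv1⟩
    · rw [g1]
      have hv2' : mu (fun l => l.2) v = s := hv2
      rw [hv2']
      exact h2
    · intro w hw b hb
      obtain ⟨g4, g5, g6⟩ := key2 v w hv1 hw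
      have g7 : w.length = x.length := by rw [← g3, ← hw, List.length_map]
      have hlen0 := mu_length (fun l : ((A × Bool) × Bool) × Bool => l.2) w
      have hlen : (mu (fun l : ((A × Bool) × Bool) × Bool => l.2) w).length ≤ x.length := by
        omega
      rw [g4, g6, hv2] at hb
      have h4 := h3 (mu (fun l : ((A × Bool) × Bool) × Bool => l.2) w) hlen b hb
      rw [g4, g5]
      exact h4

/-- the Boolean closure of a tame family is tame -/
theorem Tame.bc {A : Type} [Finite A] {P : Set (List A) → Prop} (h : Tame A P) :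
    Tame A (BC P) := by
  classical
  obtain ⟨ι, _, W, hW, hP⟩ := h
  obtain ⟨e, he⟩ := exists_niceCode (Kl (Xd ι))
  refine ⟨Unit, inferInstance, fun _ => V1 e W, fun _ => Rud.v1 e W hW, ?_⟩
  intro M hM
  refine ⟨(), ?_⟩
  obtain ⟨κ, hκ, L, b, hL, hb⟩ := hM.rep
  choose ix u n0 hB using fun t => hP (L t) (hL t)
  obtain ⟨N1, ⟨f1⟩⟩ := Finite.exists_equiv_fin (κ → Bool)
  obtain ⟨N2, ⟨f2⟩⟩ := Finite.exists_equiv_fin κ
  have : Fintype κ := Fintype.ofFinite κ
  let F1 : Set (List (Kl (Xd ι))) := {w | ∃ t : κ → Bool, b (fun i => t i = true) ∧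
    w = clw (Xd ι) (nu (f1 t).1)}
  let F2 : Set (List (Kl (Xd ι))) := {w | ∃ (t : κ → Bool) (i : κ), b (fun i => t i = true) ∧
    w = liw (Xd ι) (t i) (nu (f1 t).1) (nu (f2 i).1)}
  let F3 : Set (List (Kl (Xd ι))) := {w | ∃ i, w = blkw (nu (f2 i).1) (dat (ix i) (u i))}
  have hF1 : F1.Finite := by
    refine Set.Finite.subset (Set.finite_range (fun t : κ → Bool => clw (Xd ι) (nu (f1 t).1))) ?_
    rintro w ⟨t, _, rfl⟩
    exact ⟨t, rfl⟩
  have hF2 : F2.Finite := by
    refine Set.Finite.subset (Set.finite_range (fun p : (κ → Bool) × κ =>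
      liw (Xd ι) (p.1 p.2) (nu (f1 p.1).1) (nu (f2 p.2).1))) ?_
    rintro w ⟨t, i, _, rfl⟩
    exact ⟨(t, i), rfl⟩
  have hF3 : F3.Finite := by
    refine Set.Finite.subset (Set.finite_range (fun i =>
      blkw (nu (f2 i).1) (dat (ix i) (u i)))) ?_
    rintro w ⟨i, rfl⟩
    exact ⟨i, rfl⟩
  have hne : ∀ w ∈ F1 ∪ (F2 ∪ F3), w ≠ [] := by
    rintro w (⟨t, _, rfl⟩ | ⟨t, i, _, rfl⟩ | ⟨i, rfl⟩)
    · simp [clw]
    · simp [liw]
    · simp [blkw]
  obtain ⟨core, _, hc⟩ := exists_code he (F1 ∪ (F2 ∪ F3)) (hF1.union (hF2.union hF3)) hne 0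
  refine ⟨core, core.length + Finset.univ.sup n0 + Finset.univ.sup (fun i => (u i).length) +
    N1 + N2, ?_⟩
  intro x hx
  have hn0 : ∀ i, n0 i ≤ x.length := by
    intro i
    have := Finset.le_sup (f := n0) (Finset.mem_univ i)
    omega
  have hu0 : ∀ i, (u i).length ≤ x.length := by
    intro i
    have := Finset.le_sup (f := fun i => (u i).length) (Finset.mem_univ i)
    omega
  generalize hcd : pad core x.length = c
  have hc1 : x.length = c.length := by rw [← hcd, pad_length]
  have hE : ∀ w, w ≠ [] → (w ∈ Ent e c ↔ w ∈ F1 ∪ (F2 ∪ F3)) := by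
    intro w hw
    rw [← hcd, pad_of_le _ _ (by omega)]
    exact hc _ w hw
  have k1 : ∀ s, clw (Xd ι) s ∈ Ent e c ↔
      ∃ t : κ → Bool, b (fun i => t i = true) ∧ s = nu (f1 t).1 := by
    intro s
    rw [hE _ (by simp [clw])]
    constructor
    · rintro (⟨t, h1, h2⟩ | ⟨t, i, _, h2⟩ | ⟨i, h2⟩)
      · refine ⟨t, h1, ?_⟩
        simp only [clw, List.cons.injEq, true_and] at h2
        exact un_inj h2
      · exfalso
        simp only [clw, liw, List.cons.injEq, Sum.inl.injEq] at h2
        have := h2.1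
        split_ifs at this <;> simp at this
      · exfalso
        simp only [clw, blkw, List.cons.injEq, Sum.inl.injEq] at h2
        simp at h2
    · rintro ⟨t, h1, rfl⟩
      exact Or.inl ⟨t, h1, rfl⟩
  have k2 : ∀ sg s u, liw (Xd ι) sg s u ∈ Ent e c ↔
      ∃ (t : κ → Bool) (i : κ), b (fun i => t i = true) ∧ s = nu (f1 t).1 ∧
        u = nu (f2 i).1 ∧ sg = t i := by
    intro sg s u
    rw [hE _ (by simp [liw])]
    constructor
    · rintro (⟨t, _, h2⟩ | ⟨t, i, h1, h2⟩ | ⟨i, h2⟩)
      · exfalso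
        simp only [clw, liw, List.cons.injEq, Sum.inl.injEq] at h2
        have := h2.1
        split_ifs at this <;> simp at this
      · simp only [liw, List.cons.injEq, Sum.inl.injEq] at h2
        obtain ⟨h3, h4⟩ := h2
        obtain ⟨h5, h6⟩ := un_sep _ _ _ _ h4
        refine ⟨t, i, h1, h5, un_inj h6, ?_⟩
        cases sg <;> cases hti : t i <;> simp_all
      · exfalso
        simp only [liw, blkw, List.cons.injEq, Sum.inl.injEq] at h2
        have := h2.1
        split_ifs at this <;> simp at this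
    · rintro ⟨t, i, h1, rfl, rfl, rfl⟩
      exact Or.inr (Or.inl ⟨t, i, h1, rfl⟩)
  have k3 : ∀ i, (Evl e W (nu (f2 i).1) c x ↔ x ∈ L i) := by
    intro i
    rw [hB i x (hn0 i)]
    constructor
    · rintro ⟨i', u', _, h3, h4⟩
      rw [hE _ (by simp [blkw])] at h3
      rcases h3 with ⟨t, _, h2⟩ | ⟨t, i, _, h2⟩ | ⟨j, h2⟩
      · exfalso
        simp only [clw, blkw, List.cons.injEq, Sum.inl.injEq] at h2
        simp at h2
      · exfalso
        simp only [liw, blkw, List.cons.injEq, Sum.inl.injEq] at h2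
        have := h2.1
        split_ifs at this <;> simp at this
      · obtain ⟨h5, h6⟩ := blkw_inj h2
        have h7 : i = j := f2.injective (Fin.ext (nu_inj h5))
        obtain ⟨h8, h9⟩ := dat_inj h6
        rw [h8, h9, ← h7] at h4
        exact h4
    · intro h3
      exact ⟨ix i, u i, hu0 i, (hE _ (by simp [blkw])).mpr (Or.inr (Or.inr ⟨i, rfl⟩)), h3⟩
  rw [mem_V1 e W x c hc1, hb]
  constructor
  · intro hbx
    let t : κ → Bool := fun i => decide (x ∈ L i)
    have ht : (fun i => t i = true) = (fun i => x ∈ L i) := by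
      funext i
      simp [t]
    refine ⟨nu (f1 t).1, ?_, (k1 _).mpr ⟨t, by rw [ht]; exact hbx, rfl⟩, ?_⟩
    · have := (f1 t).2
      simp only [nu, List.length_replicate]
      omega
    · intro u _ sg hu
      obtain ⟨t', i, _, h2, rfl, rfl⟩ := (k2 _ _ _).mp hu
      have h4 : t = t' := f1.injective (Fin.ext (nu_inj h2))
      subst h4
      rw [k3 i]
      simp [t]
  · rintro ⟨s, _, hs, h2⟩
    obtain ⟨t, ht, rfl⟩ := (k1 s).mp hs
    have h3 : (fun i => x ∈ L i) = (fun i => t i = true) := by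
      funext i
      have := h2 (nu (f2 i).1) (by
        have := (f2 i).2
        simp only [nu, List.length_replicate]
        omega) (t i) ((k2 _ _ _).mpr ⟨t, i, ht, rfl, rfl, rfl⟩)
      rw [k3 i] at this
      exact propext this
    rw [h3]
    exact ht

end MPdee884H2
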