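import Pool.Agent.Lib.MP_dee884_lc.H2.Spec

/-!
# MP_dee884_lc, H2, module Cnt: one step crosses for at most one offset
-/

namespace MPdee884H2

open MPdee884H1 Pool.Agent.Lin

private theorem cnt_dvd (B : ℤ) (hB : 0 < B) (a : ℤ) (h : a / B ≠ (a + 1) / B) : B ∣ a + 1 := by
  have h1 := Int.emod_add_mul_ediv a B
  have h2 := Int.emod_nonneg a hB.ne'
  have h3 := Int.emod_lt_of_pos a hB
  by_cases h4 : a % B + 1 = B
  · refine ⟨a / B + 1, ?_⟩
    rw [mul_add, mul_one]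
    omega
  · exfalso
    apply h
    have h5 := (Int.ediv_emod_unique (a := a + 1) (r := a % B + 1) (q := a / B) hB).2
      ⟨by omega, by omega, by omega⟩
    exact h5.1.symm

private theorem cnt_eq (B : ℕ) (c : ℤ) (o1 o2 : Fin B) (h1 : (B : ℤ) ∣ c + (o1.1 : ℤ))
    (h2 : (B : ℤ) ∣ c + (o2.1 : ℤ)) : o1 = o2 := by
  have h3 : (B : ℤ) ∣ (o1.1 : ℤ) - (o2.1 : ℤ) := by
    have := dvd_sub h1 h2
    have e : c + (o1.1 : ℤ) - (c + (o2.1 : ℤ)) = (o1.1 : ℤ) - (o2.1 : ℤ) := by ring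
    rwa [e] at this
  have h4 : (o1.1 : ℤ) - (o2.1 : ℤ) = 0 := by
    refine Int.eq_zero_of_abs_lt_dvd h3 ?_
    have := o1.2
    have := o2.2
    rw [abs_lt]
    constructor <;> omega
  apply Fin.ext
  omega

theorem tCnt : S_Cnt := by
  intro B p d hB hd
  have hB' : (0 : ℤ) < (B : ℤ) := by exact_mod_cast hB
  rw [Finset.card_le_one]
  intro o1 h1 o2 h2
  rw [Finset.mem_filter] at h1 h2
  have h1' := h1.2
  have h2' := h2.2
  unfold blk at h1' h2'
  rcases hd with rfl | rfl | rfl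
  · exfalso
    apply h1'
    rw [add_zero]
  · have e : ∀ o : ℤ, p + 1 + o = p + o + 1 := fun o => by ring
    rw [e] at h1' h2'
    have k1 := cnt_dvd B hB' _ h1'
    have k2 := cnt_dvd B hB' _ h2'
    have e' : ∀ o : ℤ, p + o + 1 = (p + 1) + o := fun o => by ring
    rw [e'] at k1 k2
    exact cnt_eq B (p + 1) o1 o2 k1 k2
  · have e : ∀ o : ℤ, p + o = p + -1 + o + 1 := fun o => by ring
    have k1 := cnt_dvd B hB' (p + -1 + (o1.1 : ℤ)) (by rw [← e]; exact h1'.symm)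
    have k2 := cnt_dvd B hB' (p + -1 + (o2.1 : ℤ)) (by rw [← e]; exact h2'.symm)
    rw [← e] at k1 k2
    exact cnt_eq B p o1 o2 k1 k2

end MPdee884H2
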