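import Pool.Agent.Lib.MP_dee884_lc.H2.Spec

/-!
# MP_dee884_lc, H2, module Comp: a computation splits into blocks
-/

set_option autoImplicit false

namespace MPdee884H2

open MPdee884H1 Pool.Agent.Lin

namespace Comp_aux

variable {A : Type}

/-- the content of the block `β` -/
def rst (M : NTM A) (B : ℕ) (o : ℤ) (t : ℤ → Option M.G) (β : ℤ) : Fin B → Option M.G :=
  fun i => t (β * B + i.1 - o)

theorem cell_lt {B : ℕ} (hB : 0 < B) (z : ℤ) : (z % (B : ℤ)).toNat < B := by
  have h1 := Int.emod_nonneg z (show (B : ℤ) ≠ 0 by omega)
  have h2 := Int.emod_lt_of_pos z (show (0 : ℤ) < B by omega)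
  omega

def cell {B : ℕ} (hB : 0 < B) (z : ℤ) : Fin B := ⟨(z % (B : ℤ)).toNat, cell_lt hB z⟩

theorem cell_val {B : ℕ} (hB : 0 < B) (z : ℤ) : ((cell hB z).1 : ℤ) = z % (B : ℤ) :=
  Int.toNat_of_nonneg (Int.emod_nonneg z (by omega))

theorem split {B : ℕ} (hB : 0 < B) (z β : ℤ) (i : Fin B) :
    β * B + i.1 = z ↔ z / (B : ℤ) = β ∧ i = cell hB z := by
  have h := Int.ediv_emod_unique (a := z) (b := (B : ℤ)) (r := (i.1 : ℤ)) (q := β) (by omega)
  have h2 := i.2
  constructor
  · intro h1
    have h3 := h.2 ⟨by linarith, by omega, by omega⟩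
    refine ⟨h3.1, Fin.ext ?_⟩
    have h4 := cell_val hB z
    have h5 := h3.2
    omega
  · rintro ⟨h1, h3⟩
    have h4 := cell_val hB z
    rw [← h3] at h4
    have h5 := (h.1 ⟨h1, h4.symm⟩).1
    linarith

theorem rst_at (M : NTM A) {B : ℕ} (hB : 0 < B) (o p : ℤ) (t : ℤ → Option M.G) :
    rst M B o t (blk B o p) (cell hB (p + o)) = t p := by
  have h := (split hB (p + o) (blk B o p) (cell hB (p + o))).2 ⟨rfl, rfl⟩
  show t _ = t p
  congr 1
  linarith

theorem rst_upd (M : NTM A) {B : ℕ} (hB : 0 < B) (o p : ℤ) (t : ℤ → Option M.G) (b : Option M.G) :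
    rst M B o (Function.update t p b) (blk B o p) =
      Function.update (rst M B o t (blk B o p)) (cell hB (p + o)) b := by
  funext i
  by_cases hi : i = cell hB (p + o)
  · subst hi
    rw [Function.update_self, rst_at, Function.update_self]
  · rw [Function.update_of_ne hi]
    show Function.update t p b _ = t _
    rw [Function.update_of_ne]
    intro h
    exact hi ((split hB (p + o) (blk B o p) i).1 (by linarith)).2

theorem rst_ne (M : NTM A) {B : ℕ} (hB : 0 < B) (o p : ℤ) (t : ℤ → Option M.G) (b : Option M.G)
    (β : ℤ) (h : β ≠ blk B o p) : rst M B o (Function.update t p b) β = rst M B o t β := by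
  funext i
  show Function.update t p b _ = t _
  rw [Function.update_of_ne]
  intro h1
  exact h ((split hB (p + o) β i).1 (by linarith)).1.symm

/-- the state of the block `β` -/
def st (M : NTM A) {B : ℕ} (hB : 0 < B) (o : ℤ) (t : ℤ → Option M.G) (q : M.S) (p β : ℤ) : BS M B :=
  (rst M B o t β, if β = blk B o p then Md.inn q (cell hB (p + o)) else Md.out)

/-- the event of reading -/
def pre (a : Option A) : List (Ev A) := (a.map Sum.inl).toList

theorem proj_pre (a : Option A) (β h : ℤ) (l : List (Ev A)) :
    proj β h (pre a ++ l) =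
      (if β = h then (a.map (fun a => (false, (Sum.inl a : Ev A)))).toList else []) ++ proj β h l := by
  cases a with
  | none => simp [pre]
  | some a => simp [pre, proj, dir]

theorem ncr_pre (a : Option A) (l : List (Ev A)) : ncr (pre a ++ l) = ncr l := by
  cases a with
  | none => simp [pre]
  | some a => simp [pre, ncr, dir]

theorem evr_pre (a : Option A) (l : List (Ev A)) :
    (pre a ++ l).flatMap evr = a.toList ++ l.flatMap evr := by
  cases a with
  | none => simp [pre]
  | some a => simp [pre, evr]

theorem mem_pre (a : Option A) (l : List (Ev A)) (e : Fin 3 × ℕ) :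
    (Sum.inr e : Ev A) ∈ pre a ++ l ↔ (Sum.inr e : Ev A) ∈ l := by
  cases a with
  | none => simp [pre]
  | some a => simp [pre]

theorem cross (M : NTM A) (B : ℕ) (num : M.S → ℕ) (hB : 0 < B) (o p : ℤ) (t : ℤ → Option M.G)
    (a : Option A) (q q' : M.S) (b : Option M.G) (d : ℤ) (tt : Fin 3) (l : List (Ev A))
    (hdr : blk B o (p + d) = blk B o p + dr tt) (hne : dr tt ≠ 0)
    (hex : BlkT M B num (rst M B o t (blk B o p), Md.inn q (cell hB (p + o)))
      (a.map (fun a => (false, Sum.inl a)))
      (Function.update (rst M B o t (blk B o p)) (cell hB (p + o)) b, Md.pen tt q'))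
    (hen : ∀ g, BlkT M B num (g, Md.out) (some (true, Sum.inr (tt, num q')))
      (g, Md.inn q' (cell hB (p + d + o))))
    (h4 : ∀ β, NA (BlkT M B num) (BlkF M B) (proj β (blk B o (p + d)) l)
      (st M hB o (Function.update t p b) q' (p + d) β)) (β : ℤ) :
    NA (BlkT M B num) (BlkF M B) (proj β (blk B o p) (pre a ++ Sum.inr (tt, num q') :: l))
      (st M hB o t q p β) := by
  rw [proj_pre]
  have hp : proj β (blk B o p) (Sum.inr (tt, num q') :: l) =
      (if β = blk B o p then [(false, (Sum.inr (tt, num q') : Ev A))] else []) ++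
      ((if β = blk B o (p + d) then [(true, (Sum.inr (tt, num q') : Ev A))] else []) ++
        proj β (blk B o (p + d)) l) := by
    show (if β = blk B o p then [(false, (Sum.inr (tt, num q') : Ev A))] else []) ++
      ((if β = blk B o p + dr tt ∧ dr tt ≠ 0 then [(true, (Sum.inr (tt, num q') : Ev A))] else []) ++
        proj β (blk B o p + dr tt) l) = _
    rw [← hdr]
    simp only [hne, ne_eq, not_false_eq_true, and_true]
  rw [hp]
  have h5 := h4 β
  by_cases h1 : β = blk B o p
  · have h2 : β ≠ blk B o (p + d) := by
      rw [hdr, h1]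
      omega
    have h6 : st M hB o (Function.update t p b) q' (p + d) β =
        (Function.update (rst M B o t β) (cell hB (p + o)) b, Md.out) := by
      unfold st
      rw [if_neg h2, h1, rst_upd]
    rw [h6] at h5
    rw [if_pos h1, if_pos h1, if_neg h2, List.nil_append]
    have h7 : st M hB o t q p β = (rst M B o t β, Md.inn q (cell hB (p + o))) := by
      unfold st
      rw [if_pos h1]
    rw [h7]
    rw [← h1] at hex
    refine NA.step _ _ _ _ hex ?_
    exact NA.step (some (false, Sum.inr (tt, num q'))) _ _ _ (BlkT.leave _ tt q') h5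
  · rw [if_neg h1, if_neg h1, List.nil_append, List.nil_append]
    have h7 : st M hB o t q p β = (rst M B o t β, Md.out) := by
      unfold st
      rw [if_neg h1]
    rw [h7]
    by_cases h2 : β = blk B o (p + d)
    · have h6 : st M hB o (Function.update t p b) q' (p + d) β =
          (rst M B o t β, Md.inn q' (cell hB (p + d + o))) := by
        unfold st
        rw [if_pos h2, rst_ne M hB o p t b β h1]
      rw [h6] at h5
      rw [if_pos h2]
      exact NA.step (some (true, Sum.inr (tt, num q'))) _ _ _ (hen _) h5
    · have h6 : st M hB o (Function.update t p b) q' (p + d) β = (rst M B o t β, Md.out) := by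
        unfold st
        rw [if_neg h2, rst_ne M hB o p t b β h1]
      rw [h6] at h5
      rw [if_neg h2, List.nil_append]
      exact h5

theorem stepr {B : ℕ} (hB : 0 < B) (z : ℤ) (h : z / (B : ℤ) ≠ (z + 1) / (B : ℤ)) :
    z % (B : ℤ) + 1 = B ∧ (z + 1) / (B : ℤ) = z / (B : ℤ) + 1 ∧ (z + 1) % (B : ℤ) = 0 := by
  have hB' : (0 : ℤ) < B := by omega
  have h1 := Int.emod_nonneg z (show (B : ℤ) ≠ 0 by omega)
  have h2 := Int.emod_lt_of_pos z hB'
  have h3 := Int.emod_add_mul_ediv z (B : ℤ)
  have h4 : z % (B : ℤ) + 1 = B := by
    by_contra hc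
    apply h
    have h5 := (Int.ediv_emod_unique (a := z + 1) (b := (B : ℤ)) (r := z % (B : ℤ) + 1)
      (q := z / (B : ℤ)) hB').2 ⟨by linarith, by omega, by omega⟩
    exact h5.1.symm
  have h5 := (Int.ediv_emod_unique (a := z + 1) (b := (B : ℤ)) (r := 0)
      (q := z / (B : ℤ) + 1) hB').2 ⟨by rw [mul_add, mul_one]; linarith, by omega, by omega⟩
  exact ⟨h4, h5.1, h5.2⟩

theorem main (hCnt : S_Cnt) (M : NTM A) (B : ℕ) (num : M.S → ℕ) (hB : 0 < B) (n : ℕ) (x : List A)
    (q : M.S) (p : ℤ) (t : ℤ → Option M.G) (hacc : M.Acc n x q p t) :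
    ∃ X : Fin B → ℕ, ∑ o, X o ≤ n ∧ ∀ o : Fin B, ∃ l : List (Ev A), l.flatMap evr = x ∧
      ncr l ≤ X o ∧ (∀ tt k, (Sum.inr (tt, k) : Ev A) ∈ l → tt ≠ 0 ∧ ∃ q', k = num q') ∧
      ∀ β, NA (BlkT M B num) (BlkF M B) (proj β (blk B o.1 p) l) (st M hB o.1 t q p β) := by
  induction hacc with
  | done q p t hq =>
    refine ⟨fun _ => 0, by simp, fun o => ⟨[], rfl, by simp [ncr], by simp, fun β => ?_⟩⟩
    refine NA.nil _ ?_
    unfold BlkF st
    by_cases h : β = blk B o.1 p
    · rw [if_pos h]
      exact Or.inr ⟨q, _, rfl, hq⟩
    · rw [if_neg h]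
      exact Or.inl rfl
  | step n a x q q' p t b d htr hacc ih =>
    obtain ⟨X, hX, H⟩ := ih
    refine ⟨fun o => X o + (if blk B o.1 p ≠ blk B o.1 (p + d.toInt) then 1 else 0), ?_, ?_⟩
    · have hd : d.toInt = 0 ∨ d.toInt = 1 ∨ d.toInt = -1 := by
        cases d
        · exact Or.inr (Or.inr rfl)
        · exact Or.inl rfl
        · exact Or.inr (Or.inl rfl)
      have h1 := hCnt B p d.toInt hB hd
      rw [Finset.card_filter] at h1
      rw [Finset.sum_add_distrib]
      omega
    · intro o
      obtain ⟨l, h1, h2, h3, h4⟩ := H o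
      by_cases hb : blk B o.1 p = blk B o.1 (p + d.toInt)
      · refine ⟨pre a ++ l, by rw [evr_pre, h1], by rw [ncr_pre]; exact h2.trans (Nat.le_add_right _ _), ?_, ?_⟩
        · intro tt k hk
          rw [mem_pre] at hk
          exact h3 tt k hk
        · intro β
          rw [proj_pre]
          have h5 := h4 β
          rw [← hb] at h5
          by_cases hβ : β = blk B o.1 p
          · rw [if_pos hβ]
            have h6 : st M hB o.1 (Function.update t p b) q' (p + d.toInt) β =
                (Function.update (rst M B o.1 t β) (cell hB (p + o.1)) b,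
                  Md.inn q' (cell hB (p + d.toInt + o.1))) := by
              unfold st
              rw [if_pos (hβ.trans hb), hβ, rst_upd]
            have h7 : st M hB o.1 t q p β = (rst M B o.1 t β, Md.inn q (cell hB (p + o.1))) := by
              unfold st
              rw [if_pos hβ]
            rw [h6] at h5
            rw [h7]
            refine NA.step _ _ _ _ (BlkT.move _ a q q' b d _ _ ?_ ?_) h5
            · rw [hβ, rst_at]
              exact htr
            · rw [cell_val, cell_val, Int.emod_def, Int.emod_def]
              have h8 : (p + d.toInt + o.1) / (B : ℤ) = (p + o.1) / (B : ℤ) := by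
                have := hb
                unfold blk at this
                exact this.symm
              rw [h8]
              ring
          · rw [if_neg hβ, List.nil_append]
            have h6 : st M hB o.1 (Function.update t p b) q' (p + d.toInt) β =
                (rst M B o.1 t β, Md.out) := by
              unfold st
              rw [if_neg (by rw [← hb]; exact hβ), rst_ne M hB o.1 p t b β hβ]
            have h7 : st M hB o.1 t q p β = (rst M B o.1 t β, Md.out) := by
              unfold st
              rw [if_neg hβ]
            rw [h6] at h5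
            rw [h7]
            exact h5
      · have key : ∀ tt : Fin 3, dr tt ≠ 0 → tt ≠ 0 →
            blk B o.1 (p + d.toInt) = blk B o.1 p + dr tt →
            (BlkT M B num (rst M B o.1 t (blk B o.1 p), Md.inn q (cell hB (p + o.1)))
              (a.map (fun a => (false, Sum.inl a)))
              (Function.update (rst M B o.1 t (blk B o.1 p)) (cell hB (p + o.1)) b, Md.pen tt q')) →
            (∀ g, BlkT M B num (g, Md.out) (some (true, Sum.inr (tt, num q')))
              (g, Md.inn q' (cell hB (p + d.toInt + o.1)))) →
            ∃ l : List (Ev A), l.flatMap evr = a.toList ++ x ∧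
              ncr l ≤ X o + (if blk B o.1 p ≠ blk B o.1 (p + d.toInt) then 1 else 0) ∧
              (∀ tt k, (Sum.inr (tt, k) : Ev A) ∈ l → tt ≠ 0 ∧ ∃ q', k = num q') ∧
              ∀ β, NA (BlkT M B num) (BlkF M B) (proj β (blk B o.1 p) l) (st M hB o.1 t q p β) := by
          intro tt ht0 ht1 hdr hex hen
          refine ⟨pre a ++ Sum.inr (tt, num q') :: l, ?_, ?_, ?_, ?_⟩
          · rw [evr_pre, List.flatMap_cons, h1]
            rfl
          · rw [ncr_pre, if_pos hb]
            have : ncr (Sum.inr (tt, num q') :: l : List (Ev A)) ≤ ncr l + 1 := by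
              unfold ncr
              rw [List.filter_cons]
              split_ifs
              · simp
              · omega
            omega
          · intro tt' k hk
            rw [mem_pre, List.mem_cons] at hk
            rcases hk with hk | hk
            · rw [Sum.inr.injEq, Prod.mk.injEq] at hk
              rw [hk.1, hk.2]
              exact ⟨ht1, q', rfl⟩
            · exact h3 tt' k hk
          · exact cross M B num hB o.1 p t a q q' b d.toInt tt l hdr ht0 hex hen h4
        cases d with
        | stay =>
          exfalso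
          apply hb
          show blk B o.1 p = blk B o.1 (p + 0)
          rw [add_zero]
        | right =>
          have hs := stepr hB (p + o.1) (by
            have := hb
            unfold blk at this
            rw [show p + o.1 + 1 = p + Dir.right.toInt + o.1 by simp only [Dir.toInt]; ring]
            exact this)
          rw [show p + o.1 + 1 = p + Dir.right.toInt + o.1 by simp only [Dir.toInt]; ring] at hs
          refine key 1 (by decide) (by decide) ?_ ?_ ?_
          · show (p + Dir.right.toInt + o.1) / (B : ℤ) = (p + o.1) / (B : ℤ) + 1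
            exact hs.2.1
          · refine BlkT.exitr _ a q q' b Dir.right _ ?_ ?_
            · rw [rst_at]
              exact htr
            · rw [cell_val]
              exact hs.1
          · intro g
            refine BlkT.enterr g q' _ ?_
            have h5 := cell_val hB (p + Dir.right.toInt + o.1)
            rw [hs.2.2] at h5
            exact_mod_cast h5
        | left =>
          have hs := stepr hB (p + Dir.left.toInt + o.1) (by
            have := hb
            unfold blk at this
            rw [show p + Dir.left.toInt + o.1 + 1 = p + o.1 by simp only [Dir.toInt]; ring]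
            exact fun h => this h.symm)
          rw [show p + Dir.left.toInt + o.1 + 1 = p + o.1 by simp only [Dir.toInt]; ring] at hs
          refine key 2 (by decide) (by decide) ?_ ?_ ?_
          · show (p + Dir.left.toInt + o.1) / (B : ℤ) = (p + o.1) / (B : ℤ) + -1
            rw [hs.2.1]
            ring
          · refine BlkT.exitl _ a q q' b Dir.left _ ?_ ?_
            · rw [rst_at]
              exact htr
            · rw [cell_val, hs.2.2]
              rfl
          · intro g
            refine BlkT.enterl g q' _ ?_
            have h5 := cell_val hB (p + Dir.left.toInt + o.1)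
            have h6 := hs.1
            omega

end Comp_aux

open Comp_aux in
theorem tComp : S_Cnt → S_Comp := by
  intro hCnt A M B num hB n x hacc
  obtain ⟨X, hX, H⟩ := main hCnt M B num hB n x M.start 0 _ hacc
  obtain ⟨o, ho⟩ : ∃ o : Fin B, B * X o ≤ n := by
    by_contra hc
    push Not at hc
    have h1 : ∑ _o : Fin B, n < ∑ o : Fin B, B * X o :=
      Finset.sum_lt_sum_of_nonempty ⟨⟨0, hB⟩, Finset.mem_univ _⟩ (fun o _ => hc o)
    rw [Finset.sum_const, Finset.card_univ, Fintype.card_fin, ← Finset.mul_sum, smul_eq_mul] at h1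
    have h2 : B * ∑ o, X o ≤ B * n := Nat.mul_le_mul_left B hX
    omega
  obtain ⟨l, h1, h2, h3, h4⟩ := H o
  refine ⟨o, l, h1, (Nat.mul_le_mul_left B h2).trans ho, h3, ?_⟩
  intro β
  have hblk : blk B o.1 0 = 0 := by
    unfold blk
    rw [zero_add]
    exact Int.ediv_eq_zero_of_lt (by omega) (by have := o.2; omega)
  have hp : proj β 0 (Sum.inr (0, o.1) :: l) =
      (if β = 0 then [(false, (Sum.inr (0, o.1) : Ev A))] else []) ++ proj β 0 l := by
    show (if β = 0 then [(false, (Sum.inr (0, o.1) : Ev A))] else []) ++
      ((if β = 0 + dr 0 ∧ dr 0 ≠ 0 then [(true, (Sum.inr (0, o.1) : Ev A))] else []) ++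
        proj β (0 + dr 0) l) = _
    have h5 : dr 0 = 0 := by decide
    rw [h5, add_zero]
    simp
  rw [hp]
  have h5 := h4 β
  rw [hblk] at h5
  by_cases hβ : β = 0
  · rw [if_pos hβ]
    have h6 : st M hB o.1 (fun _ => none) M.start 0 β =
        ((fun _ => none : Fin B → Option M.G), Md.inn M.start o) := by
      unfold st
      rw [if_pos (hβ.trans hblk.symm)]
      have h7 : cell hB (0 + o.1) = o := by
        apply Fin.ext
        have h8 := cell_val hB (0 + (o.1 : ℤ))
        rw [zero_add, Int.emod_eq_of_lt (by omega) (by have := o.2; omega)] at h8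
        rw [zero_add]
        exact_mod_cast h8
      rw [h7]
      rfl
    rw [h6] at h5
    exact NA.step (some (false, Sum.inr (0, o.1))) _ _ _ (BlkT.start _ o) h5
  · rw [if_neg hβ]
    have h6 : st M hB o.1 (fun _ => none) M.start 0 β =
        ((fun _ => none : Fin B → Option M.G), Md.out) := by
      unfold st
      rw [if_neg (by rw [hblk]; exact hβ)]
      rfl
    rw [h6] at h5
    exact NA.step none _ _ _ (BlkT.sleep _) h5

end MPdee884H2
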