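import Pool.Agent.Lib.MP_dee884_lc.H1.Final

/-!
# MP_dee884_lc, H2: definitions

Tame families of languages, nondeterministic machines with one work tape, blocks and events.
-/

namespace MPdee884H2

open MPdee884H1 Pool.Agent.Lin

/-! ### tame families -/

/-- the word `u`, filled up by `false` or cut, of length `n` -/
def pad (u : List Bool) (n : ℕ) : List Bool := (u ++ List.replicate n false).take n

/-- A family `P` of languages over `A` is tame if finitely many languages `W i` of RUD evaluate all
languages of `P`, up to finitely many words, from a constant word `u`. -/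
def Tame (A : Type) (P : Set (List A) → Prop) : Prop :=
  ∃ (ι : Type) (_ : Finite ι) (W : ι → Set (List (A × Bool))), (∀ i, Rud (A × Bool) (W i)) ∧
    ∀ L, P L → ∃ (i : ι) (u : List Bool) (n0 : ℕ), ∀ x : List A, n0 ≤ x.length →
      (x ∈ L ↔ x.zip (pad u x.length) ∈ W i)

/-- Boolean closure -/
inductive BC {A : Type} (P : Set (List A) → Prop) : Set (List A) → Prop
  | base (L : Set (List A)) : P L → BC P L
  | compl (L : Set (List A)) : BC P L → BC P Lᶜ
  | union (L M : Set (List A)) : BC P L → BC P M → BC P (L ∪ M)

/-! ### machines -/

/-- A nondeterministic Turing machine with a one-way input over `A` and one two-way infinite work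
tape: states `S`, tape symbols `G` (and `none`, the blank), the start state, the accepting states
and the transitions `tr q a g q' g' d`: in the state `q`, scanning `g`, the machine may read the
next letter `a` of the input (or no letter, `a = none`), enter the state `q'`, print `g'` and move
the head of the work tape in the direction `d`. -/
structure NTM (A : Type) where
  S : Type
  G : Type
  finS : Finite S
  finG : Finite G
  start : S
  acc : S → Prop
  tr : S → Option A → Option G → S → Option G → Dir → Prop

/-- `M.Acc n x q p t`: from the state `q`, with the head on the cell `p` of the tape `t`, the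
machine `M` can read exactly the word `x` in `n` steps and reach an accepting state. -/
inductive NTM.Acc {A : Type} (M : NTM A) : ℕ → List A → M.S → ℤ → (ℤ → Option M.G) → Prop
  | done (q : M.S) (p : ℤ) (t : ℤ → Option M.G) : M.acc q → NTM.Acc M 0 [] q p t
  | step (n : ℕ) (a : Option A) (x : List A) (q q' : M.S) (p : ℤ) (t : ℤ → Option M.G)
      (b : Option M.G) (d : Dir) : M.tr q a (t p) q' b d →
      NTM.Acc M n x q' (p + d.toInt) (Function.update t p b) →
      NTM.Acc M (n + 1) (a.toList ++ x) q p t

/-- `L` is accepted in linear time by a nondeterministic machine with one work tape: each word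
`x` of `L` is accepted by a computation of at most `c (|x| + 1)` steps, and no other word is
accepted. -/
def OneTape {A : Type} (L : Set (List A)) : Prop :=
  ∃ (M : NTM A) (c : ℕ),
    (∀ x ∈ L, ∃ n ≤ c * (x.length + 1), M.Acc n x M.start 0 (fun _ => none)) ∧
    ∀ n x, M.Acc n x M.start 0 (fun _ => none) → x ∈ L

/-! ### the class -/

/-- The class `C_j(A)`: Boolean closure of the context-free languages, of the languages accepted in
linear time with one work tape, of the slices of the languages `E i`, and (`j > 0`) of the
languages `{x : some word over A × [k] above x is in M}`, `M` in `C_(j-1)(A × [k])`. -/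
inductive Cls {ρ : Type} {B : ρ → Type} (E : (i : ρ) → Set (List (B i × Bool))) (k : ℕ) :
    ℕ → (A : Type) → Set (List A) → Prop
  | cf {j : ℕ} {A : Type} (L : Language A) : L.IsContextFree → Cls E k j A {x | x ∈ L}
  | tape {j : ℕ} {A : Type} (L : Set (List A)) : OneTape L → Cls E k j A L
  | slice {j : ℕ} {A : Type} (i : ρ) (f : A → B i) (u : List Bool) :
      Cls E k j A {x | (x.map f).zip (pad u x.length) ∈ E i}
  | compl {j : ℕ} {A : Type} (L : Set (List A)) : Cls E k j A L → Cls E k j A Lᶜ
  | union {j : ℕ} {A : Type} (L M : Set (List A)) : Cls E k j A L → Cls E k j A M →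
      Cls E k j A (L ∪ M)
  | ex {j : ℕ} {A : Type} (M : Set (List (A × Fin k))) : Cls E k j (A × Fin k) M →
      Cls E k (j + 1) A {x | ∃ v : List (A × Fin k), v.map Prod.fst = x ∧ v ∈ M}

/-! ### automata -/

/-- acceptance of a word from the state `q` by the automaton with the transition relation `δ`
(`none`: no letter is read) and the final states `F` -/
inductive NA {Q X : Type} (δ : Q → Option X → Q → Prop) (F : Q → Prop) : List X → Q → Prop
  | nil (q : Q) : F q → NA δ F [] q
  | step (a : Option X) (w : List X) (q q' : Q) : δ q a q' → NA δ F w q' →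
      NA δ F (a.toList ++ w) q

/-- acceptance of a word from the state `q` by the automaton with the rules `R q u q'` (from `q`
to `q'`, reading the word `u`) and the final states `F` -/
inductive WA {Q X : Type} (R : Q → List X → Q → Prop) (F : Q → Prop) : List X → Q → Prop
  | nil (q : Q) : F q → WA R F [] q
  | step (u w : List X) (q q' : Q) : R q u q' → WA R F w q' → WA R F (u ++ w) q

/-! ### events -/

/-- Events of a computation: `Sum.inl a`: the letter `a` is read; `Sum.inr (0, k)`: start at the
cell `k` of the block; `Sum.inr (1, k)`, `Sum.inr (2, k)`: the head crosses the right, left end of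
the block, in the state number `k`. -/
abbrev Ev (A : Type) : Type := A ⊕ (Fin 3 × ℕ)

/-- the change of the block -/
def dr (t : Fin 3) : ℤ := if t = 1 then 1 else if t = 2 then -1 else 0

/-- the change of the block at an event -/
def dir {A : Type} : Ev A → ℤ
  | Sum.inl _ => 0
  | Sum.inr (t, _) => dr t

/-- the letter which is read -/
def evr {A : Type} : Ev A → List A
  | Sum.inl a => [a]
  | Sum.inr _ => []

/-- the number of crossings -/
def ncr {A : Type} (l : List (Ev A)) : ℕ := (l.filter (fun e => decide (dir e ≠ 0))).length

/-- the events which the block `β` sees when the head starts in the block `h`; `(false, e)`: the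
event `e` happens in the block `β`, `(true, e)`: the head enters the block `β` -/
def proj {A : Type} (β : ℤ) : ℤ → List (Ev A) → List (Bool × Ev A)
  | _, [] => []
  | h, e :: l => (if β = h then [(false, e)] else []) ++
      ((if β = h + dir e ∧ dir e ≠ 0 then [(true, e)] else []) ++ proj β (h + dir e) l)

/-- the letters of codes -/
inductive Lt (A : Type) : Type
  | pad : Lt A
  | one : Lt A
  | hd (t : Fin 3) : Lt A
  | ltr (a : A) : Lt A

instance {A : Type} [Finite A] : Finite (Lt A) := by
  let f : Lt A → Option (Option (Fin 3 ⊕ A)) := fun l => match l with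
    | Lt.pad => none
    | Lt.one => some none
    | Lt.hd t => some (some (Sum.inl t))
    | Lt.ltr a => some (some (Sum.inr a))
  refine Finite.of_injective f ?_
  intro x y h
  cases x <;> cases y <;> simp_all [f]

/-- the code of an event -/
def code {A : Type} : Ev A → List (Lt A)
  | Sum.inl a => [Lt.ltr a]
  | Sum.inr (t, k) => Lt.hd t :: List.replicate k Lt.one

/-- the letter of the input in a code -/
def er {A : Type} : Lt A → List A
  | Lt.ltr a => [a]
  | _ => []

/-- the label of a head letter for the block `β` when the head is in the block `h` -/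
def lbl (β h : ℤ) (t : Fin 3) : Fin 3 := if β = h then 1 else if β = h + dr t then 2 else 0

/-- The labels of a word for the block `β` (`0`: not seen, `1`: happens in the block, `2`: the
block is entered); `h` is the present block, `c` the label of the last letter. -/
def lab {A : Type} (β : ℤ) : ℤ → Fin 3 → List (Lt A) → List (Lt A × Fin 3)
  | _, _, [] => []
  | h, _, Lt.pad :: z => (Lt.pad, 0) :: lab β h 0 z
  | h, c, Lt.one :: z => (Lt.one, c) :: lab β h c z
  | h, _, Lt.hd t :: z => (Lt.hd t, lbl β h t) :: lab β (h + dr t) (lbl β h t) z
  | h, _, Lt.ltr a :: z => (Lt.ltr a, if β = h then 1 else 0) ::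
      lab β h (if β = h then 1 else 0) z

/-- the words with correct labels for some block -/
def LVL (A : Type) : Set (List (Lt A × Fin 3)) := {v | ∃ β : ℤ, lab β 0 0 (v.map Prod.fst) = v}

/-- `Par z l`: the word `z` is the concatenation of the codes of the events of `l`, with some
letters `pad` in between -/
inductive Par {A : Type} : List (Lt A) → List (Ev A) → Prop
  | nil : Par [] []
  | pad (z : List (Lt A)) (l : List (Ev A)) : Par z l → Par (Lt.pad :: z) l
  | ev (e : Ev A) (z : List (Lt A)) (l : List (Ev A)) : Par z l → Par (code e ++ z) (e :: l)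

/-- the labelled code of an event which is seen -/
def cd {A : Type} (p : Bool × Ev A) : List (Lt A × Fin 3) :=
  (code p.2).map (fun l => (l, if p.1 = true then 2 else 1))

/-- `Sh v w`: `v` is the concatenation of the labelled codes of the letters of `w`, with some
letters with the label `0` in between -/
inductive Sh {A : Type} : List (Lt A × Fin 3) → List (Bool × Ev A) → Prop
  | nil : Sh [] []
  | skip (l : Lt A) (v : List (Lt A × Fin 3)) (w : List (Bool × Ev A)) : Sh v w →
      Sh ((l, 0) :: v) w
  | ev (p : Bool × Ev A) (v : List (Lt A × Fin 3)) (w : List (Bool × Ev A)) : Sh v w →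
      Sh (cd p ++ v) (p :: w)

/-- the rules of an automaton which reads the labelled codes -/
def Rl {A Q : Type} (δ : Q → Option (Bool × Ev A) → Q → Prop) (q : Q)
    (u : List (Lt A × Fin 3)) (q' : Q) : Prop :=
  (∃ l : Lt A, u = [(l, 0)] ∧ q' = q) ∨ (u = [] ∧ δ q none q') ∨ ∃ p, u = cd p ∧ δ q (some p) q'

/-! ### blocks of a machine -/

/-- the modes of a block: not yet used, the head is outside, inside (state and cell), just leaving
(side and state) -/
inductive Md (S : Type) (B : ℕ) : Type
  | ini : Md S B
  | out : Md S B
  | inn (q : S) (i : Fin B) : Md S B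
  | pen (t : Fin 3) (q : S) : Md S B

instance {S : Type} [Finite S] {B : ℕ} : Finite (Md S B) := by
  let f : Md S B → Option (Option ((S × Fin B) ⊕ (Fin 3 × S))) := fun l => match l with
    | Md.ini => none
    | Md.out => some none
    | Md.inn q i => some (some (Sum.inl (q, i)))
    | Md.pen t q => some (some (Sum.inr (t, q)))
  refine Finite.of_injective f ?_
  intro x y h
  cases x <;> cases y <;> simp_all [f]

/-- the states of a block of length `B`: content and mode -/
abbrev BS {A : Type} (M : NTM A) (B : ℕ) : Type := (Fin B → Option M.G) × Md M.S B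

/-- the transitions of a block; `num` numbers the states of the machine -/
inductive BlkT {A : Type} (M : NTM A) (B : ℕ) (num : M.S → ℕ) :
    BS M B → Option (Bool × Ev A) → BS M B → Prop
  | start (g : Fin B → Option M.G) (o : Fin B) :
      BlkT M B num (g, Md.ini) (some (false, Sum.inr (0, o.1))) (g, Md.inn M.start o)
  | sleep (g : Fin B → Option M.G) : BlkT M B num (g, Md.ini) none (g, Md.out)
  | move (g : Fin B → Option M.G) (a : Option A) (q q' : M.S) (b : Option M.G) (d : Dir)
      (i i' : Fin B) : M.tr q a (g i) q' b d → (i'.1 : ℤ) = i.1 + d.toInt →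
      BlkT M B num (g, Md.inn q i) (a.map (fun a => (false, Sum.inl a)))
        (Function.update g i b, Md.inn q' i')
  | exitr (g : Fin B → Option M.G) (a : Option A) (q q' : M.S) (b : Option M.G) (d : Dir)
      (i : Fin B) : M.tr q a (g i) q' b d → (i.1 : ℤ) + d.toInt = B →
      BlkT M B num (g, Md.inn q i) (a.map (fun a => (false, Sum.inl a)))
        (Function.update g i b, Md.pen 1 q')
  | exitl (g : Fin B → Option M.G) (a : Option A) (q q' : M.S) (b : Option M.G) (d : Dir)
      (i : Fin B) : M.tr q a (g i) q' b d → (i.1 : ℤ) + d.toInt = -1 →
      BlkT M B num (g, Md.inn q i) (a.map (fun a => (false, Sum.inl a)))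
        (Function.update g i b, Md.pen 2 q')
  | leave (g : Fin B → Option M.G) (t : Fin 3) (q : M.S) :
      BlkT M B num (g, Md.pen t q) (some (false, Sum.inr (t, num q))) (g, Md.out)
  | enterr (g : Fin B → Option M.G) (q : M.S) (i : Fin B) : i.1 = 0 →
      BlkT M B num (g, Md.out) (some (true, Sum.inr (1, num q))) (g, Md.inn q i)
  | enterl (g : Fin B → Option M.G) (q : M.S) (i : Fin B) : i.1 + 1 = B →
      BlkT M B num (g, Md.out) (some (true, Sum.inr (2, num q))) (g, Md.inn q i)

/-- the final states of a block -/
def BlkF {A : Type} (M : NTM A) (B : ℕ) (s : BS M B) : Prop :=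
  s.2 = Md.out ∨ ∃ q i, s.2 = Md.inn q i ∧ M.acc q

/-- all blocks accept what they see of the events `l` -/
def AllBlk {A : Type} (M : NTM A) (B : ℕ) (num : M.S → ℕ) (l : List (Ev A)) : Prop :=
  ∀ β : ℤ, NA (BlkT M B num) (BlkF M B) (proj β 0 l) (fun _ => none, Md.ini)

/-- the words over `Lt A` which code sequences of events, the first one is a start, such that all
blocks accept -/
def UU {A : Type} (M : NTM A) (B : ℕ) (num : M.S → ℕ) : Set (List (Lt A)) :=
  {z | ∃ (o : Fin B) (l : List (Ev A)), Par z (Sum.inr (0, o.1) :: l) ∧
    AllBlk M B num (Sum.inr (0, o.1) :: l)}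

/-- the number of the block of the cell `p`, the start cell `0` has the number `o` in its block -/
def blk (B : ℕ) (o p : ℤ) : ℤ := (p + o) / (B : ℤ)

end MPdee884H2
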