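import Pool.Agent.Lib.MP_dee884_lc.H2.Evl

/-!
# MP_dee884_lc, H2: the diagonal lemma for tame families
-/

namespace MPdee884H2

open MPdee884H1 Pool.Agent.Lin

theorem blkw_inj {ι : Type} {t t' : List Unit} {q q' : List (Xd ι × Fin 3)}
    (h : blkw t q = blkw t' q') : t = t' ∧ q = q' := by
  simp only [blkw, List.cons.injEq, true_and] at h
  obtain ⟨h3, h4⟩ := un_sep _ _ _ _ h
  exact ⟨h3, List.map_injective_iff.mpr Sum.inr_injective h4⟩

/-- the diagonal lemma -/
theorem Tame.diag {P : Set (List Bool) → Prop} (h : Tame Bool P) : ∃ U, Rud Bool U ∧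
    ∀ L, P L → ∃ w : List Bool, ∀ r : List Bool, w ++ r ∈ U ↔ w ++ r ∉ L := by
  obtain ⟨ι, _, W, hW, hP⟩ := h
  obtain ⟨e, he⟩ := exists_niceCode (Kl (Xd ι))
  have h1 := Rud.evl e W hW (Y := Bool) id id (fun _ => false)
  refine ⟨_, h1.compl, ?_⟩
  intro L hL
  obtain ⟨i, u, n0, hi⟩ := hP L hL
  obtain ⟨core, _, hc⟩ := exists_code he {blkw [] (dat i u)} (Set.finite_singleton _)
    (by rintro w rfl; simp [blkw]) 0
  refine ⟨core ++ List.replicate (n0 + u.length) false, ?_⟩
  intro r
  generalize hx : core ++ List.replicate (n0 + u.length) false ++ r = x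
  have hx2 : x = core ++ (List.replicate (n0 + u.length) false ++ r) := by
    rw [← hx, List.append_assoc]
  have hlen : n0 + u.length ≤ x.length := by
    rw [hx2]
    simp only [List.length_append, List.length_replicate]
    omega
  have hE : ∀ w, w ≠ [] → (w ∈ Ent e x ↔ w = blkw [] (dat i u)) := by
    intro w hw
    rw [hx2, hc _ w hw]
    rfl
  have hmu : ∀ x : List Bool, mu (fun _ : Bool => false) x = [] := by
    intro x
    unfold mu
    simp
  simp only [Set.mem_compl_iff, Set.mem_ofPred_eq, hmu, List.map_id, not_iff_not]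
  rw [hi x (by omega)]
  constructor
  · rintro ⟨i', u', _, h3, h4⟩
    have h5 := (hE _ (by simp [blkw])).mp h3
    obtain ⟨_, h6⟩ := blkw_inj h5
    obtain ⟨rfl, rfl⟩ := dat_inj h6
    exact h4
  · intro h3
    exact ⟨i, u, by omega, (hE _ (by simp [blkw])).mpr rfl, h3⟩

end MPdee884H2
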