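import Pool.Agent.Lib.MP_dee884_lc.H2.Tam

/-!
# MP_dee884_lc, H2: evaluation of coded slices in RUD
-/

namespace MPdee884H2

open MPdee884H1 Pool.Agent.Lin

variable {ι : Type}

/-- the letters of data -/
abbrev Xd (ι : Type) : Type := ι ⊕ Bool

/-- the data `i`, `u` -/
def dat (i : ι) (u : List Bool) : List (Xd ι × Fin 3) :=
  (Sum.inl i, 0) :: u.map (fun b => (Sum.inr b, 0))

theorem dat_inj {i i' : ι} {u u' : List Bool} (h : dat i u = dat i' u') : i = i' ∧ u = u' := by
  simp only [dat, List.cons.injEq, Prod.mk.injEq, Sum.inl.injEq, and_true] at h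
  refine ⟨h.1, ?_⟩
  refine List.map_injective_iff.mpr ?_ h.2
  intro a b hab
  simpa using hab

/-- the slice number `t` of the code `c` contains `x` -/
def Evl {A : Type} (e : Kl (Xd ι) → List Bool) (W : ι → Set (List (A × Bool))) (t : List Unit)
    (c : List Bool) (x : List A) : Prop :=
  ∃ (i : ι) (u : List Bool), u.length ≤ x.length ∧ blkw t (dat i u) ∈ Ent e c ∧
    x.zip (pad u x.length) ∈ W i

/-- `some` first, then `none` -/
def Shp {Y : Type} (p : List (Y × Option Bool)) : Prop :=
  ∃ p1 p2 p3 : List (Y × Option Bool), p = p1 ++ p2 ++ p3 ∧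
    p1.flatMap (fun l => if l.2 = none then [()] else []) = [] ∧
    (p2 ++ p3).flatMap (fun l => if l.2 = none then [] else [()]) = []

theorem R0.shp {Y : Type} [Finite Y] : R0 (Y × Option Bool) {p | Shp p} := by
  have h1 : R0 ((Y × Option Bool) × Fin 3)
      {v | v.flatMap (fun l => if l.2 = 0 ∧ l.1.2 = none then [()] else []) = []} :=
    R0.eqc [] _
  have h2 : R0 ((Y × Option Bool) × Fin 3)
      {v | v.flatMap (fun l => if l.2 ≠ 0 ∧ l.1.2 ≠ none then [()] else []) = []} :=
    R0.eqc [] _
  refine (R0.split (h1.inter h2)).congr ?_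
  intro p
  simp only [Set.mem_ofPred_eq, Set.mem_inter_iff, Shp]
  have e1 : ∀ p q r : List (Y × Option Bool),
      (mark3 p q r).flatMap (fun l => if l.2 = 0 ∧ l.1.2 = none then [()] else []) =
        p.flatMap (fun l => if l.2 = none then [()] else []) := by
    intro p q r
    simp only [mark3, List.flatMap_append, List.flatMap_map]
    simp
  have e2 : ∀ p q r : List (Y × Option Bool),
      (mark3 p q r).flatMap (fun l => if l.2 ≠ 0 ∧ l.1.2 ≠ none then [()] else []) =
        (q ++ r).flatMap (fun l => if l.2 = none then [] else [()]) := by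
    intro p q r
    simp only [mark3, List.flatMap_append, List.flatMap_map]
    simp
  simp only [e1, e2]

/-- the word of a track -/
def trw {Y : Type} (p : List (Y × Option Bool)) : List Bool := p.flatMap (fun l => l.2.toList)

theorem Shp.eq {Y : Type} {p : List (Y × Option Bool)} (h : Shp p) :
    p.map (fun l => l.2.getD false) = pad (trw p) p.length ∧ (trw p).length ≤ p.length := by
  obtain ⟨p1, p2, p3, rfl, h1, h2⟩ := h
  rw [List.append_assoc]
  generalize p2 ++ p3 = q at *
  have k1 : ∀ p1 : List (Y × Option Bool),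
      p1.flatMap (fun l => if l.2 = none then [()] else []) = [] →
      p1.map (fun l => l.2.getD false) = trw p1 := by
    intro p1
    induction p1 with
    | nil => intro _; rfl
    | cons a p ih =>
      intro h
      rw [List.flatMap_cons] at h
      obtain ⟨h3, h4⟩ := List.append_eq_nil_iff.mp h
      obtain ⟨y, o⟩ := a
      cases o with
      | none => simp at h3
      | some b =>
        have := ih h4
        simp only [trw] at this ⊢
        rw [List.map_cons, List.flatMap_cons, this]
        rfl
  have k2 : ∀ q : List (Y × Option Bool),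
      q.flatMap (fun l => if l.2 = none then [] else [()]) = [] →
      q.map (fun l => l.2.getD false) = List.replicate q.length false ∧ trw q = [] := by
    intro q
    induction q with
    | nil => intro _; exact ⟨rfl, rfl⟩
    | cons a p ih =>
      intro h
      rw [List.flatMap_cons] at h
      obtain ⟨h3, h4⟩ := List.append_eq_nil_iff.mp h
      obtain ⟨y, o⟩ := a
      cases o with
      | some b => simp at h3
      | none =>
        obtain ⟨h5, h6⟩ := ih h4
        simp only [trw] at h6 ⊢
        refine ⟨?_, ?_⟩
        · rw [List.map_cons, h5]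
          rfl
        · rw [List.flatMap_cons, h6]
          rfl
  have k3 := k1 p1 h1
  obtain ⟨k4, k5⟩ := k2 q h2
  have k6 : trw (p1 ++ q) = trw p1 := by
    have : trw (p1 ++ q) = trw p1 ++ trw q := by simp [trw]
    rw [this, k5, List.append_nil]
  have k7 : (trw p1).length = p1.length := by rw [← k3, List.length_map]
  rw [k6, pad_of_le _ _ (by rw [List.length_append]; omega), List.map_append, k3, k4]
  refine ⟨?_, ?_⟩
  · congr 2
    rw [List.length_append]
    omega
  · rw [List.length_append]
    omega

theorem exists_shp {Y : Type} (y : List Y) (u : List Bool) (h : u.length ≤ y.length) :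
    ∃ p : List (Y × Option Bool), p.map Prod.fst = y ∧ Shp p ∧ trw p = u := by
  have k1 : ∀ (y : List Y) (u : List Bool), u.length = y.length →
      ∃ p : List (Y × Option Bool), p.map Prod.fst = y ∧ trw p = u ∧
        p.flatMap (fun l => if l.2 = none then [()] else []) = [] := by
    intro y
    induction y with
    | nil =>
      intro u hu
      have : u = [] := List.length_eq_zero_iff.mp (by simpa using hu)
      subst this
      exact ⟨[], rfl, rfl, rfl⟩
    | cons a y ih =>
      intro u hu
      cases u with
      | nil => simp at hu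
      | cons b u =>
        obtain ⟨p, h1, h2, h3⟩ := ih u (by simpa using hu)
        refine ⟨(a, some b) :: p, by simp [h1], ?_, ?_⟩
        · simp only [trw] at h2 ⊢
          rw [List.flatMap_cons, h2]
          rfl
        · rw [List.flatMap_cons, h3]
          simp
  have k2 : ∀ (y : List Y), ∃ p : List (Y × Option Bool), p.map Prod.fst = y ∧ trw p = [] ∧
      p.flatMap (fun l => if l.2 = none then [] else [()]) = [] := by
    intro y
    induction y with
    | nil => exact ⟨[], rfl, rfl, rfl⟩
    | cons a y ih =>
      obtain ⟨p, h1, h2, h3⟩ := ih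
      refine ⟨(a, none) :: p, by simp [h1], ?_, ?_⟩
      · simp only [trw] at h2 ⊢
        rw [List.flatMap_cons, h2]
        rfl
      · rw [List.flatMap_cons, h3]
        simp
  obtain ⟨p1, h1, h2, h3⟩ := k1 (y.take u.length) u (by rw [List.length_take]; omega)
  obtain ⟨p2, h4, h5, h6⟩ := k2 (y.drop u.length)
  refine ⟨p1 ++ p2, ?_, ⟨p1, p2, [], by simp, h3, by simpa using h6⟩, ?_⟩
  · rw [List.map_append, h1, h4, List.take_append_drop]
  · have : trw (p1 ++ p2) = trw p1 ++ trw p2 := by simp [trw]
    rw [this, h2, h5, List.append_nil]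

theorem zip_map_map {Y A B : Type} (f : Y → A) (g : Y → B) (p : List Y) :
    (p.map f).zip (p.map g) = p.map (fun l => (f l, g l)) := by
  induction p with
  | nil => rfl
  | cons a p ih => rw [List.map_cons, List.map_cons, List.zip_cons_cons, ih, List.map_cons]

/-- the evaluation of slices is in RUD -/
theorem Rud.evl [Finite ι] {A Y : Type} [Finite A] [Finite Y] (e : Kl (Xd ι) → List Bool)
    (W : ι → Set (List (A × Bool))) (hW : ∀ i, Rud (A × Bool) (W i)) (xx : Y → A)
    (cc : Y → Bool) (tt : Y → Bool) :
    Rud Y {y | Evl e W (mu tt y) (y.map cc) (y.map xx)} := by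
  have h1 : ∀ i, Rud (Y × Option Bool) {p | blkw (mu (fun l => tt l.1) p) (dat i (trw p)) ∈
      Ent e (p.map (fun l => cc l.1))} := by
    intro i
    have h2 := R0.ent (A := Y × Option Bool) e
      [(fun _ => [], [Sum.inl 3]), (fun l => if tt l.1 = true then [Sum.inl 5] else [],
        [Sum.inl 4, Sum.inr (Sum.inl i, 0)]),
        (fun l => l.2.toList.map (fun b => Sum.inr (Sum.inr b, 0)), [])]
      (fun l => [cc l.1]) (by simp)
    refine h2.rud.congr ?_
    intro p
    have e1 : mp [(fun _ => [], [Sum.inl 3]),
        (fun l : Y × Option Bool => if tt l.1 = true then [Sum.inl 5] else [],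
          [Sum.inl 4, Sum.inr (Sum.inl i, 0)]),
        (fun l => l.2.toList.map (fun b => Sum.inr (Sum.inr b, 0)), [])] p =
        blkw (mu (fun l => tt l.1) p) (dat i (trw p)) := by
      have h0 : p.flatMap (fun _ : Y × Option Bool => ([] : List (Kl (Xd ι)))) = [] := by simp
      unfold mp blkw dat trw
      rw [List.flatMap_cons, List.flatMap_cons, List.flatMap_cons, List.flatMap_nil,
        mp_unit (X := Xd ι) (fun l : Y × Option Bool => tt l.1) p, h0]
      simp only [List.nil_append, List.append_nil, List.cons_append, List.append_assoc,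
        List.map_cons, List.map_flatMap, List.map_map]
      congr 1
    have e2 : p.flatMap (fun l => [cc l.1]) = p.map (fun l => cc l.1) := by
      clear e1
      induction p with
      | nil => rfl
      | cons b p ih => simp [ih]
    simp only [Set.mem_ofPred_eq, e1, e2]
  have h3 : Rud (Y × Option Bool) {p | Shp p} := R0.shp.rud
  have h4 : ∀ i, Rud (Y × Option Bool) {p | p.map (fun l => (xx l.1, l.2.getD false)) ∈ W i} :=
    fun i => (hW i).invMap _
  refine (Rud.iUnion (fun i => {y : List Y | ∃ p ∈ ({p | Shp p} ∩ ({p | blkw (mu (fun l => tt l.1) p)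
    (dat i (trw p)) ∈ Ent e (p.map (fun l => cc l.1))} ∩
      {p | p.map (fun l => (xx l.1, l.2.getD false)) ∈ W i})), p.map Prod.fst = y})
    (fun i => Rud.img Prod.fst (h3.inter ((h1 i).inter (h4 i))))).congr ?_
  intro y
  simp only [Set.mem_ofPred_eq, Set.mem_inter_iff, Evl]
  have key : ∀ p : List (Y × Option Bool), p.map Prod.fst = y →
      mu (fun l => tt l.1) p = mu tt y ∧ p.map (fun l => cc l.1) = y.map cc ∧
        p.map (fun l => xx l.1) = y.map xx := by
    rintro p rfl
    refine ⟨(mu_map tt Prod.fst p).symm, ?_, ?_⟩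
    · rw [List.map_map]
      rfl
    · rw [List.map_map]
      rfl
  constructor
  · rintro ⟨i, p, ⟨hp1, hp2, hp3⟩, hp⟩
    obtain ⟨k1, k2, k3⟩ := key p hp
    obtain ⟨k4, k5⟩ := hp1.eq
    have k6 : p.length = y.length := by rw [← hp, List.length_map]
    refine ⟨i, trw p, ?_, ?_, ?_⟩
    · rw [List.length_map]
      omega
    · rw [k1, k2] at hp2
      exact hp2
    · rw [← zip_map_map, k3, k4, k6] at hp3
      rw [List.length_map]
      exact hp3
  · rintro ⟨i, u, hu1, hu2, hu3⟩
    rw [List.length_map] at hu1 hu3
    obtain ⟨p, hp1, hp2, rfl⟩ := exists_shp y u hu1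
    obtain ⟨k1, k2, k3⟩ := key p hp1
    obtain ⟨k4, k5⟩ := hp2.eq
    have k6 : p.length = y.length := by rw [← hp1, List.length_map]
    refine ⟨i, p, ⟨hp2, ?_, ?_⟩, hp1⟩
    · rw [k1, k2]
      exact hu2
    · rw [← zip_map_map, k3, k4, k6]
      exact hu3

end MPdee884H2
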