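import Pool.Agent.Lib.MP_dee884_lc.H2.Spec

/-!
# MP_dee884_lc, H2: folding
-/

set_option autoImplicit false

namespace MPdee884H2

open MPdee884H1 Pool.Agent.Lin

namespace Fold_aux

/-- the alphabet of the folded words -/
abbrev TT (A Z : Type) : Type := (A × Bool) × (Z × Bool) × (Z × Bool)

/-- pairs of letters -/
def prs {Y V : Type} (t : List (Y × V × V)) : List V := t.flatMap (fun s => [s.2.1, s.2.2])

theorem exists_fold {Y V : Type} : ∀ (y : List Y) (w : List V), w.length = 2 * y.length →
    ∃ t : List (Y × V × V), t.map Prod.fst = y ∧ prs t = w := by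
  intro y
  induction y with
  | nil =>
    intro w hw
    have : w = [] := by
      apply List.eq_nil_of_length_eq_zero
      simpa using hw
    exact ⟨[], by simp [prs, this]⟩
  | cons a y ih =>
    intro w hw
    match w, hw with
    | [], hw => simp at hw
    | [b], hw =>
      simp only [List.length_cons, List.length_nil] at hw
      omega
    | b :: c :: w, hw =>
      have h1 : w.length = 2 * y.length := by
        simp only [List.length_cons] at hw
        omega
      obtain ⟨t, ht1, ht2⟩ := ih w h1
      refine ⟨(a, b, c) :: t, by simp [ht1], ?_⟩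
      have : prs ((a, b, c) :: t) = b :: c :: prs t := by simp [prs]
      rw [this, ht2]

theorem prs_len {Y V : Type} (t : List (Y × V × V)) : (prs t).length = 2 * t.length := by
  induction t with
  | nil => simp [prs]
  | cons a t ih =>
    have : prs (a :: t) = a.2.1 :: a.2.2 :: prs t := by simp [prs]
    rw [this]
    simp only [List.length_cons, ih]
    omega

theorem prs_flatMap {Y V C : Type} (f : V → List C) (t : List (Y × V × V)) :
    t.flatMap (fun s => f s.2.1 ++ f s.2.2) = (prs t).flatMap f := by
  unfold prs
  rw [List.flatMap_assoc]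
  refine congrArg (fun g => List.flatMap g t) ?_
  funext s
  simp

theorem flat_single {X Y : Type} (f : X → Y) (x : List X) :
    x.flatMap (fun a => [f a]) = x.map f := by
  induction x with
  | nil => rfl
  | cons a x ih => simp [List.flatMap_cons, ih]

theorem prs_map {Y V C : Type} (f : V → C) (t : List (Y × V × V)) :
    t.flatMap (fun s => [f s.2.1, f s.2.2]) = (prs t).map f := by
  rw [← flat_single, ← prs_flatMap]
  rfl

theorem pad_le (u : List Bool) (n : ℕ) (h : u.length ≤ n) :
    pad u n = u ++ List.replicate (n - u.length) false := by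
  unfold pad
  rw [List.take_append, List.take_of_length_le h, List.take_replicate]
  congr 2
  omega

theorem pad_len (u : List Bool) (n : ℕ) : (pad u n).length = n := by
  unfold pad
  simp

theorem pad_two (u : List Bool) (n : ℕ) (h : u.length ≤ n) :
    pad u (2 * n) = pad u n ++ List.replicate n false := by
  rw [pad_le u n h, pad_le u (2 * n) (by omega), List.append_assoc, List.replicate_append_replicate]
  congr 2
  omega

theorem map_fst_zip_pad {X : Type} (x : List X) (u : List Bool) :
    (x.zip (pad u x.length)).map Prod.fst = x := by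
  rw [List.map_fst_zip]
  rw [pad_len]

theorem map_snd_zip_pad {X : Type} (x : List X) (u : List Bool) :
    (x.zip (pad u x.length)).map Prod.snd = pad u x.length := by
  rw [List.map_snd_zip]
  rw [pad_len]

/-- the folded language -/
def WW {A Z : Type} (er : Z → List A) (W : Set (List (Z × Bool))) : Set (List (A × Bool)) :=
  {y | ∃ t : List (TT A Z), ((t.flatMap (fun s => [s.2.1, s.2.2]) ∈ W) ∧
    (t.flatMap (fun s => er s.2.1.1 ++ er s.2.2.1) = t.flatMap (fun s => [s.1.1])) ∧
    (t.flatMap (fun s => [s.2.1.2, s.2.2.2]) =
      t.flatMap (fun s => [s.1.2]) ++ t.flatMap (fun _ => [false]))) ∧ t.map Prod.fst = y}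

theorem rud_WW (hR : S_RudInv) {A Z : Type} [Finite A] [Finite Z] (er : Z → List A)
    (W : Set (List (Z × Bool))) (hW : Rud (Z × Bool) W) : Rud (A × Bool) (WW er W) := by
  have h1 : Rud (TT A Z) {t | t.flatMap (fun s => [s.2.1, s.2.2]) ∈ W} :=
    hR hW (β := TT A Z) (fun s => [s.2.1, s.2.2])
  have h2 : Rud (TT A Z) {t | t.flatMap (fun s => er s.2.1.1 ++ er s.2.2.1) =
      t.flatMap (fun s => [s.1.1])} :=
    (R0.eqf (A := TT A Z) (B := A) (fun s => er s.2.1.1 ++ er s.2.2.1) (fun s => [s.1.1])).rud
  have h3 : Rud (TT A Z) {t | t.flatMap (fun s => [s.2.1.2, s.2.2.2]) =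
      t.flatMap (fun s => [s.1.2]) ++ t.flatMap (fun _ => [false])} := by
    refine ((R0.eqs (A := TT A Z) (B := Bool) [(fun s => [s.2.1.2, s.2.2.2], [])]
      [(fun s => [s.1.2], []), (fun _ => [false], [])]).rud).congr ?_
    intro t
    simp only [Set.mem_ofPred_eq, mp, List.flatMap_cons, List.flatMap_nil, List.append_nil]
  refine (Rud.img Prod.fst (h1.inter (h2.inter h3))).congr ?_
  intro y
  exact Iff.rfl

theorem mem_WW {A Z : Type} (er : Z → List A) (W : Set (List (Z × Bool))) (M : Set (List Z))
    (u : List Bool) (n0 : ℕ)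
    (hM : ∀ z : List Z, n0 ≤ z.length → (z ∈ M ↔ z.zip (pad u z.length) ∈ W))
    (x : List A) (hx : n0 + u.length ≤ x.length) :
    (∃ z : List Z, z.length = 2 * x.length ∧ z.flatMap er = x ∧ z ∈ M) ↔
      x.zip (pad u x.length) ∈ WW er W := by
  have hu : u.length ≤ x.length := by omega
  constructor
  · rintro ⟨z, hz1, hz2, hz3⟩
    have h1 := (hM z (by omega)).mp hz3
    obtain ⟨t, ht1, ht2⟩ := exists_fold (x.zip (pad u x.length)) (z.zip (pad u z.length)) (by
      simp [pad_len, hz1])
    have hx1 : t.flatMap (fun s => [s.1.1]) = x := by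
      rw [flat_single]
      have : t.map (fun s => s.1.1) = (t.map Prod.fst).map Prod.fst := by
        rw [List.map_map]
        rfl
      rw [this, ht1, map_fst_zip_pad]
    have hx2 : t.flatMap (fun s => [s.1.2]) = pad u x.length := by
      rw [flat_single]
      have : t.map (fun s => s.1.2) = (t.map Prod.fst).map Prod.snd := by
        rw [List.map_map]
        rfl
      rw [this, ht1, map_snd_zip_pad]
    have hlen : t.length = x.length := by
      have := congrArg List.length ht1
      simpa [pad_len] using this
    have hx3 : t.flatMap (fun _ => [false]) = List.replicate x.length false := by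
      rw [flat_single, List.map_const', hlen]
    refine ⟨t, ⟨?_, ?_, ?_⟩, ht1⟩
    · have : t.flatMap (fun s => [s.2.1, s.2.2]) = z.zip (pad u z.length) := ht2
      rw [this]
      exact h1
    · rw [hx1]
      have h2 := prs_flatMap (fun v : Z × Bool => er v.1) t
      rw [h2, ht2]
      have h3 : (z.zip (pad u z.length)).flatMap (fun v => er v.1) =
          ((z.zip (pad u z.length)).map Prod.fst).flatMap er := by
        rw [List.flatMap_map]
      rw [h3, map_fst_zip_pad, hz2]
    · rw [hx2, hx3, prs_map (fun v : Z × Bool => v.2) t, ht2]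
      have h3 : (z.zip (pad u z.length)).map (fun v => v.2) =
          (z.zip (pad u z.length)).map Prod.snd := rfl
      rw [h3, map_snd_zip_pad, hz1, pad_two u x.length hu]
  · rintro ⟨t, ⟨h1, h2, h3⟩, h4⟩
    have hlen : t.length = x.length := by
      have := congrArg List.length h4
      simpa [pad_len] using this
    have hx1 : t.flatMap (fun s => [s.1.1]) = x := by
      rw [flat_single]
      have : t.map (fun s => s.1.1) = (t.map Prod.fst).map Prod.fst := by
        rw [List.map_map]
        rfl
      rw [this, h4, map_fst_zip_pad]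
    have hx2 : t.flatMap (fun s => [s.1.2]) = pad u x.length := by
      rw [flat_single]
      have : t.map (fun s => s.1.2) = (t.map Prod.fst).map Prod.snd := by
        rw [List.map_map]
        rfl
      rw [this, h4, map_snd_zip_pad]
    have hx3 : t.flatMap (fun _ => [false]) = List.replicate x.length false := by
      rw [flat_single, List.map_const', hlen]
    have hz1 : ((prs t).map Prod.fst).length = 2 * x.length := by
      rw [List.length_map, prs_len, hlen]
    refine ⟨(prs t).map Prod.fst, hz1, ?_, ?_⟩
    · rw [hx1] at h2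
      rw [← h2, prs_flatMap (fun v : Z × Bool => er v.1) t, List.flatMap_map]
    · rw [hM _ (by omega), hz1, pad_two u x.length hu]
      rw [hx2, hx3, prs_map (fun v : Z × Bool => v.2) t] at h3
      rw [← h3]
      have h5 : ((prs t).map Prod.fst).zip ((prs t).map (fun v : Z × Bool => v.2)) = prs t := by
        have : (fun v : Z × Bool => v.2) = Prod.snd := rfl
        rw [this, List.zip_map']
        simp
      rw [h5]
      exact h1

end Fold_aux

open Fold_aux in
theorem tFold : S_RudInv → S_Fold := by
  intro hR A Z _ _ er P hP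
  obtain ⟨ι, hι, W, hW1, hW2⟩ := hP
  refine ⟨ι, hι, fun i => WW er (W i), fun i => rud_WW hR er (W i) (hW1 i), ?_⟩
  rintro L ⟨M, hM, rfl⟩
  obtain ⟨i, u, n0, h⟩ := hW2 M hM
  refine ⟨i, u, n0 + u.length, ?_⟩
  intro x hx
  exact mem_WW er (W i) M u n0 h x hx

end MPdee884H2
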