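import Pool.Agent.Lib.MP_dee884_lc.H2.Spec

/-!
# MP_dee884_lc, H2: the labels of parsed words
-/

set_option autoImplicit false

open MPdee884H1 Pool.Agent.Lin

namespace MPdee884H2

private theorem Lab_aux.rep {A : Type} (β h : ℤ) (c : Fin 3) (k : ℕ) (z : List (Lt A)) :
    lab β h c (List.replicate k Lt.one ++ z) =
      List.replicate k (Lt.one, c) ++ lab β h c z := by
  induction k with
  | zero => rfl
  | succ k ih =>
    rw [List.replicate_succ, List.replicate_succ, List.cons_append, List.cons_append, ← ih]
    rfl

private theorem Lab_aux.skips {A : Type} (k : ℕ) (v : List (Lt A × Fin 3))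
    (w : List (Bool × Ev A)) (hv : Sh v w) : Sh (List.replicate k (Lt.one, 0) ++ v) w := by
  induction k with
  | zero => exact hv
  | succ k ih =>
    rw [List.replicate_succ, List.cons_append]
    exact Sh.skip _ _ _ ih

/-- labels of parsed words -/
theorem tLab : S_Lab := by
  intro A z l hz
  induction hz with
  | nil => intro β h c; exact Sh.nil
  | pad z l _ ih => intro β h c; exact Sh.skip _ _ _ (ih β h 0)
  | ev e z l _ ih =>
    intro β h c
    rcases e with a | ⟨t, k⟩
    · have h1 : lab β h c (code (Sum.inl a) ++ z) =
          (Lt.ltr a, if β = h then 1 else 0) :: lab β h (if β = h then 1 else 0) z := rfl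
      have h2 : proj β h (Sum.inl a :: l) = (if β = h then [(false, Sum.inl a)] else []) ++
          proj β h l := by
        have h3 : dir (Sum.inl a : Ev A) = 0 := rfl
        simp only [proj, h3, add_zero, ne_eq, not_true_eq_false, and_false, if_false,
          List.nil_append]
      rw [h1, h2]
      by_cases hb : β = h
      · rw [if_pos hb, if_pos hb]
        exact Sh.ev (false, Sum.inl a) _ _ (ih β h 1)
      · rw [if_neg hb, if_neg hb]
        exact Sh.skip _ _ _ (ih β h 0)
    · have h1 : lab β h c (code (Sum.inr (t, k)) ++ z) = (Lt.hd t, lbl β h t) ::
          (List.replicate k (Lt.one, lbl β h t) ++ lab β (h + dr t) (lbl β h t) z) := by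
        rw [← Lab_aux.rep]
        rfl
      have hd : dir (Sum.inr (t, k) : Ev A) = dr t := rfl
      rw [h1]
      have hI := ih β (h + dr t) (lbl β h t)
      by_cases hb : β = h
      · have h2 : lbl β h t = 1 := by unfold lbl; rw [if_pos hb]
        have h3 : proj β h (Sum.inr (t, k) :: l) = (false, Sum.inr (t, k)) ::
            proj β (h + dr t) l := by
          simp only [proj, hd]
          rw [if_pos hb, if_neg]
          · rfl
          · rintro ⟨h4, h5⟩
            apply h5
            omega
        rw [h3, h2]
        rw [h2] at hI
        have h4 := Sh.ev (false, Sum.inr (t, k)) _ _ hI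
        simpa [cd, code] using h4
      · by_cases hb2 : β = h + dr t
        · have h2 : lbl β h t = 2 := by unfold lbl; rw [if_neg hb, if_pos hb2]
          have h3 : proj β h (Sum.inr (t, k) :: l) = (true, Sum.inr (t, k)) ::
              proj β (h + dr t) l := by
            simp only [proj, hd]
            rw [if_neg hb, if_pos]
            · rfl
            · refine ⟨hb2, ?_⟩
              intro h4
              apply hb
              omega
          rw [h3, h2]
          rw [h2] at hI
          have h4 := Sh.ev (true, Sum.inr (t, k)) _ _ hI
          simpa [cd, code] using h4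
        · have h2 : lbl β h t = 0 := by unfold lbl; rw [if_neg hb, if_neg hb2]
          have h3 : proj β h (Sum.inr (t, k) :: l) = proj β (h + dr t) l := by
            simp only [proj, hd]
            rw [if_neg hb, if_neg]
            · rfl
            · rintro ⟨h4, -⟩
              exact hb2 h4
          rw [h3, h2]
          rw [h2] at hI
          exact Sh.skip _ _ _ (Lab_aux.skips k _ _ hI)

end MPdee884H2
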