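import Pool.Agent.Lib.MP_dee884_lc.H2.Spec

/-!
# MP_dee884_lc, H2: level sets are in R0
-/

set_option autoImplicit false

namespace MPdee884H2

open MPdee884H1 Pool.Agent.Lin

namespace Lvl_aux

/-! ### sums of weights -/

theorem sum_rep {A : Type} (φ : A → ℕ) (w : List A) :
    w.flatMap (fun y => List.replicate (φ y) ()) = List.replicate (w.map φ).sum () := by
  induction w with
  | nil => rfl
  | cons a w ih =>
    rw [List.flatMap_cons, ih, List.map_cons, List.sum_cons, List.replicate_add]

theorem sum_pn {A : Type} (φ : A → ℤ) (w : List A) :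
    (w.map φ).sum = ((w.map (fun y => (φ y).toNat)).sum : ℤ) -
      ((w.map (fun y => (-φ y).toNat)).sum : ℤ) := by
  induction w with
  | nil => simp
  | cons a w ih =>
    simp only [List.map_cons, List.sum_cons, ih]
    push_cast
    have := Int.toNat_sub_toNat_neg (φ a)
    omega

theorem wsum {A : Type} [Finite A] (φ : A → ℤ) : R0 A {w | (w.map φ).sum = 0} := by
  refine (R0.eqf (A := A) (B := Unit) (fun y => List.replicate (φ y).toNat ())
    (fun y => List.replicate (-φ y).toNat ())).congr ?_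
  intro w
  simp only [Set.mem_ofPred_eq]
  rw [sum_rep (fun y => (φ y).toNat), sum_rep (fun y => (-φ y).toNat), sum_pn φ w,
    List.replicate_inj]
  constructor
  · rintro ⟨h, -⟩
    omega
  · intro h
    refine ⟨by omega, by simp⟩

theorem const {A : Type} [Finite A] (P : Prop) : R0 A {_w : List A | P} := by
  by_cases hP : P
  · refine (R0.univ (A := A)).congr ?_
    intro w
    simp [hP]
  · refine (R0.empty (A := A)).congr ?_
    intro w
    simp [hP]

/-! ### labels -/

/-- the change of the height at a letter -/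
def dh {A : Type} : Lt A → ℤ
  | Lt.hd t => dr t
  | _ => 0

/-- the correct label -/
def lb {A : Type} (β h : ℤ) (c : Fin 3) : Lt A → Fin 3
  | Lt.pad => 0
  | Lt.one => c
  | Lt.hd t => lbl β h t
  | Lt.ltr _ => if β = h then 1 else 0

/-- all labels are correct -/
def OK {A : Type} (β : ℤ) : ℤ → Fin 3 → List (Lt A × Fin 3) → Prop
  | _, _, [] => True
  | h, c, x :: v => x.2 = lb β h c x.1 ∧ OK β (h + dh x.1) x.2 v

theorem lab_cons {A : Type} (β h : ℤ) (c : Fin 3) (l : Lt A) (z : List (Lt A)) :
    lab β h c (l :: z) = (l, lb β h c l) :: lab β (h + dh l) (lb β h c l) z := by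
  cases l <;> simp [lab, lb, dh]

theorem lab_iff {A : Type} (β : ℤ) : ∀ (v : List (Lt A × Fin 3)) (h : ℤ) (c : Fin 3),
    lab β h c (v.map Prod.fst) = v ↔ OK β h c v := by
  intro v
  induction v with
  | nil => intro h c; simp [lab, OK]
  | cons x v ih =>
    intro h c
    rw [List.map_cons, lab_cons, OK, List.cons.injEq]
    constructor
    · rintro ⟨h1, h2⟩
      have h3 : x.2 = lb β h c x.1 := by rw [← h1]
      refine ⟨h3, ?_⟩
      rw [← h3] at h2
      exact (ih _ _).1 h2
    · rintro ⟨h1, h2⟩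
      refine ⟨?_, ?_⟩
      · rw [← h1]
      · rw [← h1]
        exact (ih _ _).2 h2

/-- the height of a word -/
def ht {A : Type} (p : List (Lt A × Fin 3)) : ℤ := (p.map (fun x => dh x.1)).sum

/-- the last label -/
def lst {A : Type} : Fin 3 → List (Lt A × Fin 3) → Fin 3
  | c, [] => c
  | _, x :: p => lst x.2 p

theorem lst_snoc {A : Type} (x : Lt A × Fin 3) : ∀ (p : List (Lt A × Fin 3)) (c : Fin 3),
    lst c (p ++ [x]) = x.2 := by
  intro p
  induction p with
  | nil => intro c; rfl
  | cons y p ih => intro c; exact ih y.2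

theorem ok_iff {A : Type} (β : ℤ) : ∀ (v : List (Lt A × Fin 3)) (h : ℤ) (c : Fin 3),
    OK β h c v ↔ ∀ p x r, v = p ++ x :: r → x.2 = lb β (h + ht p) (lst c p) x.1 := by
  intro v
  induction v with
  | nil =>
    intro h c
    simp [OK]
  | cons y v ih =>
    intro h c
    rw [OK, ih]
    constructor
    · rintro ⟨h1, h2⟩ p x r hv
      cases p with
      | nil =>
        rw [List.nil_append, List.cons.injEq] at hv
        obtain ⟨rfl, -⟩ := hv
        simpa [ht, lst] using h1
      | cons z p =>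
        rw [List.cons_append, List.cons.injEq] at hv
        obtain ⟨rfl, hv⟩ := hv
        have h3 := h2 p x r hv
        rw [h3, lst, ht, ht, List.map_cons, List.sum_cons, add_assoc]
    · intro H
      refine ⟨?_, ?_⟩
      · simpa [ht, lst] using H [] y v rfl
      · intro p x r hv
        have h3 := H (y :: p) x r (by rw [hv]; rfl)
        rw [h3, lst, ht, ht, List.map_cons, List.sum_cons, add_assoc]

/-! ### the three conditions -/

/-- the label is correct if `β` is the present height -/
def c1 {A : Type} (x : Lt A × Fin 3) : Prop :=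
  match x.1 with
  | Lt.pad => x.2 = 0
  | Lt.one => True
  | Lt.hd _ => x.2 = 1
  | Lt.ltr _ => x.2 = 1

/-- the label is correct if `β` is the next but not the present height -/
def c2 {A : Type} (x : Lt A × Fin 3) : Prop :=
  match x.1 with
  | Lt.pad => x.2 = 0
  | Lt.one => True
  | Lt.hd _ => x.2 = 2
  | Lt.ltr _ => x.2 = 0

/-- the label is correct if `β` is neither the present nor the next height -/
def c3 {A : Type} (x : Lt A × Fin 3) : Prop :=
  match x.1 with
  | Lt.pad => x.2 = 0
  | Lt.one => True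
  | Lt.hd _ => x.2 = 0
  | Lt.ltr _ => x.2 = 0

/-- the condition for one letter -/
def cc {A : Type} (P Q : Prop) (x : Lt A × Fin 3) : Prop :=
  (P → c1 x) ∧ (¬ P → (Q → c2 x) ∧ (¬ Q → c3 x))

theorem lb_iff {A : Type} (β h : ℤ) (c : Fin 3) (x : Lt A × Fin 3) :
    x.2 = lb β h c x.1 ↔ cc (β = h) (β = h + dh x.1) x ∧ (x.1 = Lt.one → x.2 = c) := by
  obtain ⟨l, e⟩ := x
  cases l with
  | pad => simp [lb, cc, c1, c2, c3]
  | one => simp [lb, cc, c1, c2, c3]
  | hd t =>
    by_cases h1 : β = h
    · simp [lb, lbl, cc, c1, h1]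
    · by_cases h2 : β = h + dr t
      · have h0 : dr t ≠ 0 := fun h3 => h1 (by rw [h2, h3, add_zero])
        simp [lb, lbl, cc, c2, h2, dh, h0]
      · simp [lb, lbl, cc, c3, h1, h2, dh]
  | ltr a =>
    by_cases h1 : β = h
    · simp [lb, cc, c1, h1]
    · simp [lb, cc, c3, h1, dh]

theorem ok_iff2 {A : Type} (β : ℤ) (v : List (Lt A × Fin 3)) :
    OK β 0 0 v ↔ (∀ p x r, v = p ++ x :: r → cc (β = ht p) (β = ht p + dh x.1) x) ∧
      (∀ p x y r, v = p ++ x :: y :: r → (y.1 = Lt.one → y.2 = x.2)) ∧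
      (∀ x r, v = x :: r → (x.1 = Lt.one → x.2 = 0)) := by
  rw [ok_iff]
  simp only [lb_iff, zero_add]
  constructor
  · intro H
    refine ⟨fun p x r hv => (H p x r hv).1, ?_, fun x r hv h1 => (H [] x r hv).2 h1⟩
    intro p x y r hv h1
    have := (H (p ++ [x]) y r (by rw [hv]; simp)).2 h1
    rwa [lst_snoc] at this
  · rintro ⟨H1, H2, H3⟩ p x r hv
    refine ⟨H1 p x r hv, ?_⟩
    intro h1
    rcases List.eq_nil_or_concat p with rfl | ⟨q, y, rfl⟩
    · exact H3 x r hv h1
    · rw [List.concat_eq_append] at hv ⊢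
      rw [lst_snoc]
      exact H2 q y x r (by rw [hv]; simp) h1

/-! ### bounds for `β` -/

theorem ok_far {A : Type} (β β' : ℤ) : ∀ (v : List (Lt A × Fin 3)) (h : ℤ) (c : Fin 3),
    |h| + v.length < |β| → |h| + v.length < |β'| → OK β h c v → OK β' h c v := by
  intro v
  induction v with
  | nil => intro h c _ _ _; trivial
  | cons x v ih =>
    intro h c h1 h2 h3
    rw [OK] at h3 ⊢
    rw [List.length_cons] at h1 h2
    push_cast at h1 h2
    have hd : |dh x.1| ≤ 1 := by
      obtain ⟨l, e⟩ := x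
      cases l with
      | pad => simp [dh]
      | one => simp [dh]
      | hd t =>
        simp only [dh, dr]
        split_ifs <;> simp
      | ltr a => simp [dh]
    have ha : |h + dh x.1| ≤ |h| + 1 := (abs_add_le _ _).trans (by linarith)
    have hl : (0 : ℤ) ≤ v.length := by positivity
    have n1 : β ≠ h := by
      rintro rfl
      linarith
    have n2 : β' ≠ h := by
      rintro rfl
      linarith
    have m1 : β ≠ h + dh x.1 := by
      intro e
      rw [← e] at ha
      linarith
    have m2 : β' ≠ h + dh x.1 := by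
      intro e
      rw [← e] at ha
      linarith
    refine ⟨?_, ih _ _ (by linarith) (by linarith) h3.2⟩
    rw [h3.1]
    obtain ⟨l, e⟩ := x
    cases l with
    | pad => rfl
    | one => rfl
    | hd t =>
      simp only [dh] at m1 m2
      simp [lb, lbl, n1, n2, m1, m2]
    | ltr a => simp [lb, n1, n2]

theorem ok_bd {A : Type} (β : ℤ) (v : List (Lt A × Fin 3)) (hv : v ≠ []) (h : OK β 0 0 v) :
    ∃ β' : ℤ, |β'| ≤ 2 * v.length ∧ OK β' 0 0 v := by
  have hl : 0 < v.length := List.length_pos_iff.2 hv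
  by_cases hb : |β| ≤ 2 * v.length
  · exact ⟨β, hb, h⟩
  · have hl' : (0 : ℤ) < v.length := by exact_mod_cast hl
    have h0 : (0 : ℤ) ≤ (v.length : ℤ) + 1 := by positivity
    refine ⟨v.length + 1, ?_, ok_far β _ v 0 0 ?_ ?_ h⟩
    · rw [abs_of_nonneg h0]
      linarith
    · rw [abs_zero]
      linarith [not_le.1 hb]
    · rw [abs_zero, abs_of_nonneg h0]
      linarith

/-- the value of a mark -/
def wt (d : Fin 5) : ℤ := (d.1 : ℤ) - 2

theorem exists_marks : ∀ (k : ℕ) (n : ℤ), |n| ≤ 2 * k →
    ∃ s : List (Fin 5), s.length = k ∧ (s.map wt).sum = n := by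
  intro k
  induction k with
  | zero =>
    intro n hn
    refine ⟨[], rfl, ?_⟩
    have : |n| ≤ 0 := by simpa using hn
    simp [abs_nonpos_iff.1 this]
  | succ k ih =>
    intro n hn
    push_cast at hn
    rw [abs_le] at hn
    have key : ∀ d : Fin 5, |n - wt d| ≤ 2 * k →
        ∃ s : List (Fin 5), s.length = k + 1 ∧ (s.map wt).sum = n := by
      intro d hd
      obtain ⟨s, h1, h2⟩ := ih _ hd
      refine ⟨d :: s, by rw [List.length_cons, h1], ?_⟩
      rw [List.map_cons, List.sum_cons, h2]
      ring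
    have hk : (0 : ℤ) ≤ k := by positivity
    by_cases ha : 2 ≤ n
    · refine key 4 ?_
      rw [abs_le]
      simp only [wt]
      constructor <;> norm_num <;> linarith
    · by_cases hb : n ≤ -2
      · refine key 0 ?_
        rw [abs_le]
        simp only [wt]
        constructor <;> norm_num <;> linarith
      · have hc : n = -1 ∨ n = 0 ∨ n = 1 := by omega
        rcases hc with rfl | rfl | rfl
        · exact key 1 (by simp [wt])
        · exact key 2 (by simp [wt])
        · exact key 3 (by simp [wt])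

/-! ### the language of marked words -/

/-- the weight for the comparison with the height of the first part -/
def φ0 {A : Type} (y : ((Lt A × Fin 3) × Fin 5) × Fin 3) : ℤ :=
  wt y.1.2 - (if y.2 = 0 then dh y.1.1.1 else 0)

/-- the weight for the comparison with the height of the first two parts -/
def φ1 {A : Type} (y : ((Lt A × Fin 3) × Fin 5) × Fin 3) : ℤ :=
  wt y.1.2 - (if y.2 = 0 ∨ y.2 = 1 then dh y.1.1.1 else 0)

theorem sum_sub' {B : Type} (f g : B → ℤ) (l : List B) :
    (l.map (fun x => f x - g x)).sum = (l.map f).sum - (l.map g).sum := by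
  induction l with
  | nil => simp
  | cons a l ih =>
    simp only [List.map_cons, List.sum_cons, ih]
    ring

theorem sum0 {A : Type} (p q r : List ((Lt A × Fin 3) × Fin 5)) :
    ((mark3 p q r).map φ0).sum =
      ((p ++ q ++ r).map (fun x => wt x.2)).sum - ht (p.map Prod.fst) := by
  have e0 : ∀ l : List ((Lt A × Fin 3) × Fin 5), ((l.map (fun a => (a, (0 : Fin 3)))).map φ0).sum =
      (l.map (fun x => wt x.2)).sum - ht (l.map Prod.fst) := by
    intro l
    rw [ht, List.map_map, List.map_map, ← sum_sub']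
    rfl
  have e1 : ∀ (i : Fin 3) (l : List ((Lt A × Fin 3) × Fin 5)), i ≠ 0 →
      ((l.map (fun a => (a, i))).map φ0).sum = (l.map (fun x => wt x.2)).sum := by
    intro i l hi
    rw [List.map_map]
    congr 2
    funext x
    simp [φ0, hi]
  rw [mark3, List.map_append, List.map_append, List.sum_append, List.sum_append, e0,
    e1 1 q (by decide), e1 2 r (by decide), List.map_append, List.map_append, List.sum_append,
    List.sum_append]
  ring

theorem sum1 {A : Type} (p q r : List ((Lt A × Fin 3) × Fin 5)) :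
    ((mark3 p q r).map φ1).sum = ((p ++ q ++ r).map (fun x => wt x.2)).sum -
      (ht (p.map Prod.fst) + ht (q.map Prod.fst)) := by
  have e0 : ∀ (i : Fin 3) (l : List ((Lt A × Fin 3) × Fin 5)), (i = 0 ∨ i = 1) →
      ((l.map (fun a => (a, i))).map φ1).sum =
      (l.map (fun x => wt x.2)).sum - ht (l.map Prod.fst) := by
    intro i l hi
    rw [ht, List.map_map, List.map_map, ← sum_sub']
    congr 2
    funext x
    simp [φ1, hi]
  have e1 : ∀ (l : List ((Lt A × Fin 3) × Fin 5)),
      ((l.map (fun a => (a, (2 : Fin 3)))).map φ1).sum = (l.map (fun x => wt x.2)).sum := by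
    intro l
    rw [List.map_map]
    congr 2
    funext x
    simp [φ1]
  rw [mark3, List.map_append, List.map_append, List.sum_append, List.sum_append,
    e0 0 p (Or.inl rfl), e0 1 q (Or.inr rfl), e1, List.map_append, List.map_append,
    List.sum_append, List.sum_append]
  ring

/-- the condition on marked words -/
def LL (A : Type) : Set (List (((Lt A × Fin 3) × Fin 5) × Fin 3)) :=
  {m | ((∀ x, part 1 m = [x] → cc ((m.map φ0).sum = 0) ((m.map φ1).sum = 0) x.1) ∧
    (∀ z : ((Lt A × Fin 3) × Fin 5) × ((Lt A × Fin 3) × Fin 5), part 1 m = [z.1, z.2] →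
      (z.2.1.1 = Lt.one → z.2.1.2 = z.1.1.2))) ∧
    (∀ x, part 0 m = [] → part 1 m = [x] → (x.1.1 = Lt.one → x.1.2 = 0))}

theorem r0_part {B : Type} [Finite B] (i : Fin 3) (s : List B) :
    R0 (B × Fin 3) {m | part i m = s} :=
  R0.eqc s (fun x : B × Fin 3 => if x.2 = i then [x.1] else [])

theorem r0_LL (A : Type) [Finite A] : R0 (((Lt A × Fin 3) × Fin 5) × Fin 3) (LL A) := by
  have hE0 := wsum (φ0 (A := A))
  have hE1 := wsum (φ1 (A := A))
  have h1 : ∀ x : (Lt A × Fin 3) × Fin 5, R0 (((Lt A × Fin 3) × Fin 5) × Fin 3)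
      {m | part 1 m = [x] → cc ((m.map φ0).sum = 0) ((m.map φ1).sum = 0) x.1} := by
    intro x
    refine R0.imp (L := {m | part 1 m = [x]}) (r0_part 1 [x]) ?_
    refine R0.inter (R0.imp hE0 (const (c1 x.1))) (R0.imp hE0.compl (R0.inter
      (R0.imp hE1 (const (c2 x.1))) (R0.imp hE1.compl (const (c3 x.1)))))
  have h2 : ∀ z : ((Lt A × Fin 3) × Fin 5) × ((Lt A × Fin 3) × Fin 5),
      R0 (((Lt A × Fin 3) × Fin 5) × Fin 3)
      {m | part 1 m = [z.1, z.2] → (z.2.1.1 = Lt.one → z.2.1.2 = z.1.1.2)} := by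
    intro z
    exact R0.imp (L := {m | part 1 m = [z.1, z.2]}) (r0_part 1 [z.1, z.2]) (const _)
  have h3 : ∀ x : (Lt A × Fin 3) × Fin 5, R0 (((Lt A × Fin 3) × Fin 5) × Fin 3)
      {m | part 0 m = [] → part 1 m = [x] → (x.1.1 = Lt.one → x.1.2 = 0)} := by
    intro x
    exact R0.imp (L := {m | part 0 m = []}) (r0_part 0 [])
      (R0.imp (L := {m | part 1 m = [x]}) (r0_part 1 [x]) (const _))
  exact (R0.inter (R0.inter (R0.iInter _ h1) (R0.iInter _ h2)) (R0.iInter _ h3))

theorem mem_LL (A : Type) (u : List ((Lt A × Fin 3) × Fin 5)) :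
    (∀ p q r, u = p ++ q ++ r → mark3 p q r ∈ LL A) ↔
      OK (u.map (fun x => wt x.2)).sum 0 0 (u.map Prod.fst) := by
  rw [ok_iff2]
  simp only [LL, Set.mem_ofPred_eq, part_mark0, part_mark1, sum0, sum1]
  constructor
  · intro H
    refine ⟨?_, ?_, ?_⟩
    · intro p x r hv
      rw [List.map_eq_append_iff] at hv
      obtain ⟨p', r', rfl, rfl, h2⟩ := hv
      rw [List.map_eq_cons_iff] at h2
      obtain ⟨y, r'', rfl, rfl, rfl⟩ := h2
      have h3 := (H p' [y] r'' (by simp)).1.1 y rfl
      have e : ∀ a b : ℤ, (a - b = 0) = (a = b) := fun a b => by rw [sub_eq_zero]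
      rw [e, e] at h3
      have e2 : ht ([y].map Prod.fst) = dh y.1.1 := by simp [ht]
      rw [e2] at h3
      simpa using h3
    · intro p x y r hv
      rw [List.map_eq_append_iff] at hv
      obtain ⟨p', r', rfl, rfl, h2⟩ := hv
      rw [List.map_eq_cons_iff] at h2
      obtain ⟨x', r'', rfl, rfl, h3⟩ := h2
      rw [List.map_eq_cons_iff] at h3
      obtain ⟨y', r3, rfl, rfl, rfl⟩ := h3
      exact (H p' [x', y'] r3 (by simp)).1.2 (x', y') rfl
    · intro x r hv
      rw [List.map_eq_cons_iff] at hv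
      obtain ⟨y, r', rfl, rfl, rfl⟩ := hv
      exact (H [] [y] r' (by simp)).2 y rfl rfl
  · rintro ⟨H1, H2, H3⟩ p q r rfl
    refine ⟨⟨?_, ?_⟩, ?_⟩
    · rintro x rfl
      have h3 := H1 (p.map Prod.fst) x.1 (r.map Prod.fst) (by simp)
      have e : ∀ a b : ℤ, (a - b = 0) = (a = b) := fun a b => by rw [sub_eq_zero]
      rw [e, e]
      have e2 : ht ([x].map Prod.fst) = dh x.1.1 := by simp [ht]
      rw [e2]
      exact h3
    · rintro ⟨x, y⟩ rfl
      exact H2 (p.map Prod.fst) x.1 y.1 (r.map Prod.fst) (by simp)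
    · rintro x rfl rfl
      exact H3 x.1 (r.map Prod.fst) (by simp)

end Lvl_aux

open Lvl_aux in
theorem tLvl : S_Lvl := by
  intro A _
  refine (R0.img Prod.fst (R0.splitAll (r0_LL A))).congr ?_
  intro v
  simp only [Set.mem_ofPred_eq]
  constructor
  · rintro ⟨u, hu, rfl⟩
    exact ⟨_, (lab_iff _ _ _ _).2 ((mem_LL A u).1 hu)⟩
  · rintro ⟨β, hβ⟩
    rw [lab_iff] at hβ
    rcases eq_or_ne v [] with rfl | hv
    · refine ⟨[], ?_, rfl⟩
      rw [mem_LL]
      trivial
    · obtain ⟨β', hb, h1⟩ := ok_bd β v hv hβ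
      obtain ⟨s, hs1, hs2⟩ := exists_marks _ _ hb
      have e1 : (v.zip s).map Prod.fst = v := List.map_fst_zip (by rw [hs1])
      have e2 : (v.zip s).map Prod.snd = s := List.map_snd_zip (by rw [hs1])
      refine ⟨v.zip s, ?_, e1⟩
      rw [mem_LL, e1]
      have e3 : (v.zip s).map (fun x => wt x.2) = s.map wt := by
        rw [← e2, List.map_map]
        rw [e2]
        rfl
      rw [e3, hs2]
      exact h1

end MPdee884H2
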