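import Pool.Agent.Lib.MP_dee884_lc.H2.Spec
import Pool.Agent.Lib.MP_dee884_lc.H2.Boo

/-!
# MP_dee884_lc, H2: the main theorem from the modules
-/

namespace MPdee884H2

open MPdee884H1 Pool.Agent.Lin

theorem BC.inter {A : Type} {P : Set (List A) → Prop} {L M : Set (List A)} (h1 : BC P L)
    (h2 : BC P M) : BC P (L ∩ M) := by
  have h := (BC.union _ _ (h1.compl) (h2.compl)).compl
  have e : (Lᶜ ∪ Mᶜ)ᶜ = L ∩ M := by
    ext x
    simp
  rwa [e] at h

/-! ### the languages of blocks -/

theorem lab_fst {A : Type} (β : ℤ) : ∀ (z : List (Lt A)) (h : ℤ) (c : Fin 3),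
    (lab β h c z).map Prod.fst = z := by
  intro z
  induction z with
  | nil => intro h c; rfl
  | cons a z ih =>
    intro h c
    cases a <;> simp only [lab, List.map_cons, ih]

/-- the labelled words which a block accepts -/
def BLK {A : Type} (M : NTM A) (B : ℕ) (num : M.S → ℕ) : Set (List (Lt A × Fin 3)) :=
  {v | WA (Rl (BlkT M B num)) (BlkF M B) v (fun _ => none, Md.ini)}

theorem blk_rules_finite {A : Type} [Finite A] (M : NTM A) (B : ℕ) (num : M.S → ℕ) :
    {p : BS M B × List (Lt A × Fin 3) × BS M B | Rl (BlkT M B num) p.1 p.2.1 p.2.2}.Finite := by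
  have := M.finS
  have := M.finG
  let f : Lt A ⊕ (Unit ⊕ (Fin B ⊕ (A ⊕ (Fin 3 × M.S × Bool)))) → List (Lt A × Fin 3) :=
    fun t => match t with
      | Sum.inl l => [(l, 0)]
      | Sum.inr (Sum.inl _) => []
      | Sum.inr (Sum.inr (Sum.inl o)) => cd (false, Sum.inr (0, o.1))
      | Sum.inr (Sum.inr (Sum.inr (Sum.inl a))) => cd (false, Sum.inl a)
      | Sum.inr (Sum.inr (Sum.inr (Sum.inr (t, q, b)))) => cd (b, Sum.inr (t, num q))
  have hf : (Set.range f).Finite := Set.finite_range f
  have h1 : ((Set.univ : Set (BS M B)) ×ˢ (Set.range f ×ˢ (Set.univ : Set (BS M B)))).Finite :=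
    (Set.finite_univ).prod (hf.prod Set.finite_univ)
  refine h1.subset ?_
  rintro ⟨s, u, s'⟩ h
  simp only [Set.mem_prod, Set.mem_univ, true_and, and_true]
  simp only [Set.mem_ofPred_eq] at h
  rcases h with ⟨l, hl, _⟩ | ⟨hu, _⟩ | ⟨p, hp, hd⟩
  · exact ⟨Sum.inl l, hl.symm⟩
  · exact ⟨Sum.inr (Sum.inl ()), hu.symm⟩
  · rw [hp]
    generalize hq : (some p : Option (Bool × Ev A)) = p' at hd
    cases hd with
    | start g o =>
      obtain rfl := Option.some_injective _ hq
      exact ⟨Sum.inr (Sum.inr (Sum.inl o)), rfl⟩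
    | sleep g => simp at hq
    | move g a q q' b d i i' _ _ =>
      cases a with
      | none => simp at hq
      | some a =>
        obtain rfl := Option.some_injective _ hq
        exact ⟨Sum.inr (Sum.inr (Sum.inr (Sum.inl a))), rfl⟩
    | exitr g a q q' b d i _ _ =>
      cases a with
      | none => simp at hq
      | some a =>
        obtain rfl := Option.some_injective _ hq
        exact ⟨Sum.inr (Sum.inr (Sum.inr (Sum.inl a))), rfl⟩
    | exitl g a q q' b d i _ _ =>
      cases a with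
      | none => simp at hq
      | some a =>
        obtain rfl := Option.some_injective _ hq
        exact ⟨Sum.inr (Sum.inr (Sum.inr (Sum.inl a))), rfl⟩
    | leave g t q =>
      obtain rfl := Option.some_injective _ hq
      exact ⟨Sum.inr (Sum.inr (Sum.inr (Sum.inr (t, q, false)))), rfl⟩
    | enterr g q i _ =>
      obtain rfl := Option.some_injective _ hq
      exact ⟨Sum.inr (Sum.inr (Sum.inr (Sum.inr (1, q, true)))), rfl⟩
    | enterl g q i _ =>
      obtain rfl := Option.some_injective _ hq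
      exact ⟨Sum.inr (Sum.inr (Sum.inr (Sum.inr (2, q, true)))), rfl⟩

theorem BCF.blk {A : Type} [Finite A] (hW : S_Wcf) (M : NTM A) (B : ℕ) (num : M.S → ℕ) :
    BCF (BLK M B num) := by
  have := M.finS
  have := M.finG
  exact BCF.cf _ (hW (Rl (BlkT M B num)) (BlkF M B) (blk_rules_finite M B num)
    (fun _ => none, Md.ini))

theorem UU_eq {A : Type} (hL : S_Lab) (hS : S_Sh) (M : NTM A) (B : ℕ) (num : M.S → ℕ) :
    UU M B num = {z | ∃ (o : Fin B) (l : List (Ev A)), Par z (Sum.inr (0, o.1) :: l)} ∩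
      {z | ∀ v : List (Lt A × Fin 3), v.map Prod.fst = z → v ∈ (LVL A)ᶜ ∪ BLK M B num} := by
  have key : ∀ (z : List (Lt A)) (l : List (Ev A)), Par z l →
      (AllBlk M B num l ↔ ∀ v : List (Lt A × Fin 3), v.map Prod.fst = z →
        v ∈ (LVL A)ᶜ ∪ BLK M B num) := by
    intro z l hz
    have h1 : ∀ β : ℤ, (lab β 0 0 z ∈ BLK M B num ↔
        NA (BlkT M B num) (BlkF M B) (proj β 0 l) (fun _ => none, Md.ini)) :=
      fun β => hS (BlkT M B num) (BlkF M B) _ _ (hL z l hz β 0 0) _
    constructor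
    · intro h v hv
      by_cases h2 : v ∈ LVL A
      · right
        obtain ⟨β, hβ⟩ := h2
        rw [hv] at hβ
        rw [← hβ, h1]
        exact h β
      · left
        exact h2
    · intro h β
      rw [← h1]
      rcases h (lab β 0 0 z) (lab_fst β z 0 0) with h2 | h2
      · exact absurd ⟨β, by rw [lab_fst]⟩ h2
      · exact h2
  ext z
  constructor
  · rintro ⟨o, l, h1, h2⟩
    exact ⟨⟨o, l, h1⟩, (key z _ h1).mp h2⟩
  · rintro ⟨⟨o, l, h1⟩, h2⟩
    exact ⟨o, l, h1, (key z _ h1).mpr h2⟩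

theorem tame_UU (hW : S_Wcf) (hV : S_Lvl) (hL : S_Lab) (hS : S_Sh) (hP : S_ParCF) (A : Type)
    [Finite A] : Tame (Lt A) (fun L => ∃ (M : NTM A) (B : ℕ) (num : M.S → ℕ),
      L = UU M B num) := by
  have h1 : Tame (Lt A × Fin 3) (BC (fun L => BCF L ∨ L = LVL A)) :=
    ((Tame.bcf _).or (Tame.one (hV A).rud)).bc
  have h2 := ((Tame.bcf (Lt A)).or h1.all).bc
  refine h2.mono ?_
  rintro L ⟨M, B, num, rfl⟩
  rw [UU_eq hL hS M B num]
  refine BC.inter (BC.base _ (Or.inl (BCF.cf _ (hP A B)))) (BC.base _ (Or.inr ⟨_, ?_, rfl⟩))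
  exact BC.union _ _ (BC.compl _ (BC.base _ (Or.inr rfl)))
    (BC.base _ (Or.inl (BCF.blk hW M B num)))

/-! ### one work tape -/

theorem Par.er {A : Type} {z : List (Lt A)} {l : List (Ev A)} (h : Par z l) :
    z.flatMap er = l.flatMap evr := by
  induction h with
  | nil => rfl
  | pad z l _ ih => rw [List.flatMap_cons, ih]; rfl
  | ev e z l _ ih =>
    rw [List.flatMap_append, ih, List.flatMap_cons]
    congr 1
    rcases e with a | ⟨t, k⟩
    · rfl
    · simp [code, MPdee884H2.er, evr]

theorem par_code {A : Type} (l : List (Ev A)) (m : ℕ) :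
    Par (l.flatMap code ++ List.replicate m Lt.pad) l := by
  induction l with
  | nil =>
    induction m with
    | zero => exact Par.nil
    | succ m ih =>
      rw [List.replicate_succ]
      exact Par.pad _ _ ih
  | cons e l ih =>
    rw [List.flatMap_cons, List.append_assoc]
    exact Par.ev e _ _ ih

theorem code_length {A : Type} (s : ℕ) (l : List (Ev A))
    (h : ∀ t k, (Sum.inr (t, k) : Ev A) ∈ l → t ≠ 0 ∧ k < s) :
    (l.flatMap code).length ≤ (l.flatMap evr).length + (s + 1) * ncr l := by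
  induction l with
  | nil => simp
  | cons e l ih =>
    have ih' := ih (fun t k hk => h t k (List.mem_cons_of_mem _ hk))
    rw [List.flatMap_cons, List.flatMap_cons, List.length_append, List.length_append]
    rcases e with a | ⟨t, k⟩
    · have e1 : ncr (Sum.inl a :: l : List (Ev A)) = ncr l := by simp [ncr, dir]
      rw [e1]
      simp only [code, evr, List.length_cons, List.length_nil]
      omega
    · obtain ⟨ht, hk⟩ := h t k (by simp)
      have hd : dir (Sum.inr (t, k) : Ev A) ≠ 0 := by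
        fin_cases t
        · exact absurd rfl ht
        · simp [dir, dr]
        · simp [dir, dr]
      have e1 : ncr (Sum.inr (t, k) :: l : List (Ev A)) = ncr l + 1 := by
        unfold ncr
        rw [List.filter_cons_of_pos (by simpa using hd), List.length_cons]
      rw [e1]
      simp only [code, evr, List.length_cons, List.length_nil, List.length_replicate]
      rw [Nat.mul_add]
      omega

theorem tame_oneTape (hW : S_Wcf) (hV : S_Lvl) (hL : S_Lab) (hS : S_Sh) (hP : S_ParCF)
    (hSd : S_Sound) (hC : S_Comp) (hF : S_Fold) (A : Type) [Finite A] :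
    Tame A (fun L => OneTape L) := by
  have h1 := (hF (er : Lt A → List A) _ (tame_UU hW hV hL hS hP A)).evt
  refine h1.mono ?_
  rintro L ⟨M, c, hM1, hM2⟩
  have := M.finS
  obtain ⟨s, ⟨f⟩⟩ := Finite.exists_equiv_fin M.S
  let B : ℕ := 2 * ((s + 1) * (c + 1))
  have hB : 0 < B := by positivity
  refine ⟨_, ⟨_, ⟨M, B, fun q => (f q).1, rfl⟩, rfl⟩, 2 * B + 3, ?_⟩
  intro x hx
  constructor
  · intro hxL
    obtain ⟨n, hn, hacc⟩ := hM1 x hxL
    obtain ⟨o, l, h2, h3, h4, h5⟩ := hC M B (fun q => (f q).1) hB n x hacc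
    have h6 := code_length s l (fun t k hk => by
      obtain ⟨h7, q, rfl⟩ := h4 t k hk
      exact ⟨h7, (f q).2⟩)
    rw [h2] at h6
    have h8 : 2 * ((s + 1) * ncr l) ≤ x.length + 1 := by
      have h9 : (c + 1) * (2 * ((s + 1) * ncr l)) ≤ (c + 1) * (x.length + 1) := by
        calc (c + 1) * (2 * ((s + 1) * ncr l)) = B * ncr l := by simp only [B]; ring
          _ ≤ n := h3
          _ ≤ c * (x.length + 1) := hn
          _ ≤ (c + 1) * (x.length + 1) := Nat.mul_le_mul_right _ (Nat.le_succ c)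
      exact Nat.le_of_mul_le_mul_left h9 (Nat.succ_pos c)
    have ho := o.2
    have h10 : ((Sum.inr (0, o.1) :: l : List (Ev A)).flatMap code).length ≤ 2 * x.length := by
      rw [List.flatMap_cons, List.length_append]
      simp only [code, List.length_cons, List.length_replicate]
      omega
    refine ⟨(Sum.inr (0, o.1) :: l : List (Ev A)).flatMap code ++
      List.replicate (2 * x.length - ((Sum.inr (0, o.1) :: l : List (Ev A)).flatMap code).length)
        Lt.pad, ?_, ?_, ⟨o, l, par_code _ _, h5⟩⟩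
    · rw [List.length_append, List.length_replicate]
      omega
    · rw [(par_code _ _).er, List.flatMap_cons, h2]
      rfl
  · rintro ⟨z, _, h2, o, l, h3, h4⟩
    obtain ⟨n, hn⟩ := hSd M B (fun q => (f q).1) (fun a b hab => f.injective (Fin.ext hab)) o l h4
    have h5 : l.flatMap evr = x := by
      rw [← h2, h3.er, List.flatMap_cons]
      rfl
    rw [h5] at hn
    exact hM2 n x hn

/-! ### the class -/

/-- the generators of the level `j` -/
def Bas {ρ : Type} {B : ρ → Type} (E : (i : ρ) → Set (List (B i × Bool))) (k j : ℕ) (A : Type)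
    (L : Set (List A)) : Prop :=
  BCF L ∨ OneTape L ∨ (∃ (i : ρ) (f : A → B i) (u : List Bool),
    L = {x | (x.map f).zip (pad u x.length) ∈ E i}) ∨
    ∃ j', j = j' + 1 ∧ ∃ M : Set (List (A × Fin k)), Cls E k j' (A × Fin k) M ∧
      L = {x | ∃ v : List (A × Fin k), v.map Prod.fst = x ∧ v ∈ M}

theorem Cls.bc {ρ : Type} {B : ρ → Type} {E : (i : ρ) → Set (List (B i × Bool))} {k j : ℕ}
    {A : Type} {L : Set (List A)} (h : Cls E k j A L) : BC (Bas E k j A) L := by
  induction h with
  | cf L hL => exact BC.base _ (Or.inl (BCF.cf L hL))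
  | tape L hL => exact BC.base _ (Or.inr (Or.inl hL))
  | slice i f u => exact BC.base _ (Or.inr (Or.inr (Or.inl ⟨i, f, u, rfl⟩)))
  | compl L _ ih => exact BC.compl _ ih
  | union L M _ _ ih1 ih2 => exact BC.union _ _ ih1 ih2
  | @ex j A M hM _ => exact BC.base _ (Or.inr (Or.inr (Or.inr ⟨j, rfl, M, hM, rfl⟩)))

theorem tame_cls (hOne : ∀ (A : Type) [Finite A], Tame A (fun L => OneTape L)) {ρ : Type}
    [Finite ρ] {B : ρ → Type} [∀ i, Finite (B i)] (E : (i : ρ) → Set (List (B i × Bool)))
    (hE : ∀ i, Rud (B i × Bool) (E i)) (k : ℕ) :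
    ∀ (j : ℕ) (A : Type) [Finite A], Tame A (Cls E k j A) := by
  intro j
  induction j with
  | zero =>
    intro A _
    refine ((Tame.bcf A).or ((hOne A).or (Tame.slices E hE A))).bc.mono ?_
    intro L hL
    refine (hL.bc).rec ?_ ?_ ?_
    · rintro L (h | h | h | ⟨j', h, _⟩)
      · exact BC.base _ (Or.inl h)
      · exact BC.base _ (Or.inr (Or.inl h))
      · exact BC.base _ (Or.inr (Or.inr h))
      · omega
    · intro L _ ih
      exact BC.compl _ ih
    · intro L M _ _ ih1 ih2
      exact BC.union _ _ ih1 ih2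
  | succ j ih =>
    intro A _
    refine ((Tame.bcf A).or ((hOne A).or ((Tame.slices E hE A).or
      (ih (A × Fin k)).ex))).bc.mono ?_
    intro L hL
    refine (hL.bc).rec ?_ ?_ ?_
    · rintro L (h | h | h | ⟨j', h, M, hM, rfl⟩)
      · exact BC.base _ (Or.inl h)
      · exact BC.base _ (Or.inr (Or.inl h))
      · exact BC.base _ (Or.inr (Or.inr (Or.inl h)))
      · obtain rfl : j = j' := by omega
        exact BC.base _ (Or.inr (Or.inr (Or.inr ⟨M, hM, rfl⟩)))
    · intro L _ ih
      exact BC.compl _ ih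
    · intro L M _ _ ih1 ih2
      exact BC.union _ _ ih1 ih2

/-- the main theorem from the modules -/
theorem main (hW : S_Wcf) (hV : S_Lvl) (hL : S_Lab) (hS : S_Sh) (hP : S_ParCF)
    (hSd : S_Sound) (hC : S_Comp) (hF : S_Fold) {ρ : Type} [Finite ρ] {B : ρ → Type}
    [∀ i, Finite (B i)] (E : (i : ρ) → Set (List (B i × Bool)))
    (hE : ∀ i, Rud (B i × Bool) (E i)) (k j : ℕ) :
    ∃ U : Set (List Bool), Rud Bool U ∧ ∀ L, Cls E k j Bool L →
      ∃ w : List Bool, ∀ r : List Bool, w ++ r ∈ U ↔ w ++ r ∉ L :=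
  (tame_cls (fun A _ => tame_oneTape hW hV hL hS hP hSd hC hF A) E hE k j Bool).diag

end MPdee884H2
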