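import Pool.Agent.Lib.MP_dee884_lc.H2.Spec

/-!
# MP_dee884_lc, H2: the parsed words are context-free

Automaton with the states 0, 1, 2 (in 0 the letters `pad` before the first event may be read).
-/

open MPdee884H1 Pool.Agent.Lin

namespace MPdee884H2

namespace ParCF_aux

/-- the rules of the automaton -/
inductive Pa {A : Type} (B : ℕ) : Fin 3 → List (Lt A) → Fin 3 → Prop
  | p0 : Pa B 0 [Lt.pad] 0
  | st (o : ℕ) (h : o < B) : Pa B 0 (Lt.hd 0 :: List.replicate o Lt.one) 1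
  | p1 : Pa B 1 [Lt.pad] 1
  | a1 (a : A) : Pa B 1 [Lt.ltr a] 1
  | h1 (t : Fin 3) : Pa B 1 [Lt.hd t] 2
  | o2 : Pa B 2 [Lt.one] 2
  | e2 : Pa B 2 [] 1

theorem Pa_fin {A : Type} [Finite A] (B : ℕ) :
    {p : Fin 3 × List (Lt A) × Fin 3 | Pa B p.1 p.2.1 p.2.2}.Finite := by
  have hU : (({[]} ∪ Set.range (fun l : Lt A => [l])) ∪
      Set.range (fun o : Fin B => (Lt.hd 0 : Lt A) :: List.replicate o.1 Lt.one) :
      Set (List (Lt A))).Finite :=
    ((Set.finite_singleton _).union (Set.finite_range _)).union (Set.finite_range _)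
  have hV : ((Set.univ : Set (Fin 3)) ×ˢ ((({[]} ∪ Set.range (fun l : Lt A => [l])) ∪
      Set.range (fun o : Fin B => (Lt.hd 0 : Lt A) :: List.replicate o.1 Lt.one) :
      Set (List (Lt A))) ×ˢ (Set.univ : Set (Fin 3)))).Finite :=
    Set.finite_univ.prod (hU.prod Set.finite_univ)
  refine hV.subset ?_
  rintro ⟨q, u, q'⟩ h
  have h' : Pa B q u q' := h
  refine ⟨trivial, ?_, trivial⟩
  show u ∈ _
  cases h' with
  | p0 => exact Or.inl (Or.inr ⟨_, rfl⟩)
  | st o ho => exact Or.inr ⟨⟨o, ho⟩, rfl⟩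
  | p1 => exact Or.inl (Or.inr ⟨_, rfl⟩)
  | a1 a => exact Or.inl (Or.inr ⟨_, rfl⟩)
  | h1 t => exact Or.inl (Or.inr ⟨_, rfl⟩)
  | o2 => exact Or.inl (Or.inr ⟨_, rfl⟩)
  | e2 => exact Or.inl (Or.inl rfl)

/-- the meaning of the states -/
def Mn {A : Type} (B : ℕ) (z : List (Lt A)) (q : Fin 3) : Prop :=
  (q = 0 → ∃ (o : ℕ) (l : List (Ev A)), o < B ∧ Par z (Sum.inr (0, o) :: l)) ∧
  (q = 1 → ∃ l : List (Ev A), Par z l) ∧
  (q = 2 → ∃ (k : ℕ) (z' : List (Lt A)) (l : List (Ev A)),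
    z = List.replicate k Lt.one ++ z' ∧ Par z' l)

theorem fwd {A : Type} (B : ℕ) (z : List (Lt A)) (q : Fin 3)
    (h : WA (Pa (A := A) B) (fun q => q = 1) z q) : Mn B z q := by
  induction h with
  | nil q hq =>
    have hq' : q = 1 := hq
    subst hq'
    exact ⟨fun h => absurd h (by decide), fun _ => ⟨[], Par.nil⟩, fun h => absurd h (by decide)⟩
  | step u w q q' hr _ ih =>
    cases hr with
    | p0 =>
      refine ⟨fun _ => ?_, fun h => absurd h (by decide), fun h => absurd h (by decide)⟩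
      obtain ⟨o, l, ho, hl⟩ := ih.1 rfl
      exact ⟨o, l, ho, Par.pad w _ hl⟩
    | st o ho =>
      refine ⟨fun _ => ?_, fun h => absurd h (by decide), fun h => absurd h (by decide)⟩
      obtain ⟨l, hl⟩ := ih.2.1 rfl
      exact ⟨o, l, ho, Par.ev (Sum.inr (0, o)) w l hl⟩
    | p1 =>
      refine ⟨fun h => absurd h (by decide), fun _ => ?_, fun h => absurd h (by decide)⟩
      obtain ⟨l, hl⟩ := ih.2.1 rfl
      exact ⟨l, Par.pad w l hl⟩
    | a1 a =>
      refine ⟨fun h => absurd h (by decide), fun _ => ?_, fun h => absurd h (by decide)⟩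
      obtain ⟨l, hl⟩ := ih.2.1 rfl
      exact ⟨Sum.inl a :: l, Par.ev (Sum.inl a) w l hl⟩
    | h1 t =>
      refine ⟨fun h => absurd h (by decide), fun _ => ?_, fun h => absurd h (by decide)⟩
      obtain ⟨k, z', l, hw, hl⟩ := ih.2.2 rfl
      refine ⟨Sum.inr (t, k) :: l, ?_⟩
      rw [hw]
      exact Par.ev (Sum.inr (t, k)) z' l hl
    | o2 =>
      refine ⟨fun h => absurd h (by decide), fun h => absurd h (by decide), fun _ => ?_⟩
      obtain ⟨k, z', l, hw, hl⟩ := ih.2.2 rfl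
      refine ⟨k + 1, z', l, ?_, hl⟩
      rw [hw]
      rfl
    | e2 =>
      refine ⟨fun h => absurd h (by decide), fun h => absurd h (by decide), fun _ => ?_⟩
      obtain ⟨l, hl⟩ := ih.2.1 rfl
      exact ⟨0, w, l, rfl, hl⟩

theorem ones {A : Type} (B : ℕ) (z : List (Lt A))
    (h : WA (Pa (A := A) B) (fun q => q = 1) z 1) : ∀ k : ℕ,
    WA (Pa (A := A) B) (fun q => q = 1) (List.replicate k Lt.one ++ z) 2 := by
  intro k
  induction k with
  | zero => exact WA.step [] z 2 1 Pa.e2 h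
  | succ k ih => exact WA.step [Lt.one] _ 2 2 Pa.o2 ih

theorem bwd {A : Type} (B : ℕ) (z : List (Lt A)) (l : List (Ev A)) (h : Par z l) :
    WA (Pa (A := A) B) (fun q => q = 1) z 1 := by
  induction h with
  | nil => exact WA.nil 1 rfl
  | pad z l _ ih => exact WA.step [Lt.pad] z 1 1 Pa.p1 ih
  | ev e z l _ ih =>
    rcases e with a | ⟨t, k⟩
    · exact WA.step [Lt.ltr a] z 1 1 (Pa.a1 a) ih
    · exact WA.step [Lt.hd t] _ 1 2 (Pa.h1 t) (ones B z ih k)

theorem bwd0 {A : Type} (B : ℕ) (z : List (Lt A)) (m : List (Ev A)) (h : Par z m) :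
    ∀ (o : ℕ) (l : List (Ev A)), m = Sum.inr (0, o) :: l → o < B →
    WA (Pa (A := A) B) (fun q => q = 1) z 0 := by
  induction h with
  | nil => intro o l h; cases h
  | pad z l _ ih => intro o l' h ho; exact WA.step [Lt.pad] z 0 0 Pa.p0 (ih o l' h ho)
  | ev e z l hz ih =>
    intro o l' h ho
    rw [List.cons.injEq] at h
    obtain ⟨rfl, rfl⟩ := h
    exact WA.step (Lt.hd 0 :: List.replicate o Lt.one) z 0 1 (Pa.st o ho) (bwd B z _ hz)

end ParCF_aux

open ParCF_aux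

theorem tParCF : S_Wcf → S_ParCF := by
  intro hW A _ B
  have h := hW (Pa (A := A) B) (fun q => q = 1) (Pa_fin B) 0
  have e : ({z | ∃ (o : Fin B) (l : List (Ev A)), Par z (Sum.inr (0, o.1) :: l)} :
      Language (Lt A)) = ({w | WA (Pa (A := A) B) (fun q => q = 1) w 0} : Language (Lt A)) := by
    apply Set.ext
    intro z
    constructor
    · rintro ⟨o, l, hl⟩
      exact bwd0 B z _ hl o.1 l rfl o.2
    · intro hz
      obtain ⟨o, l, ho, hl⟩ := (fwd B z 0 hz).1 rfl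
      exact ⟨⟨o, ho⟩, l, hl⟩
  rw [e]
  exact h

end MPdee884H2
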