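import Pool.Agent.Lib.MP_dee884_lc.H2.Spec

/-!
# MP_dee884_lc, H2: RUD is closed under inverse homomorphisms
-/

set_option autoImplicit false

namespace MPdee884H2

open MPdee884H1 Pool.Agent.Lin

namespace RudInv_aux

theorem len_le {γ α : Type} (h : γ → List α) (hh : ∀ a, h a ≠ []) (u : List γ) :
    u.length ≤ (u.flatMap h).length := by
  induction u with
  | nil => simp
  | cons a u ih =>
    have := List.length_pos_of_ne_nil (hh a)
    rw [List.flatMap_cons, List.length_append, List.length_cons]
    omega

theorem len_le2 {β α : Type} (g : β → List α) (m : ℕ) (hm : ∀ b, (g b).length ≤ m)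
    (v : List β) : (v.flatMap g).length ≤ m * v.length := by
  induction v with
  | nil => simp
  | cons b v ih =>
    have := hm b
    rw [List.flatMap_cons, List.length_append, List.length_cons, Nat.mul_succ]
    omega

theorem cut {β γ : Type} (m : ℕ) (v : List β) : ∀ u : List γ, u.length ≤ m * v.length →
    ∃ t : List (β × {l : List γ // l.length ≤ m}),
      t.map (fun p => p.1) = v ∧ t.flatMap (fun p => p.2.1) = u := by
  induction v with
  | nil =>
    intro u hu
    have h0 : u = [] := by simpa using hu
    exact ⟨[], rfl, by simp [h0]⟩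
  | cons b v ih =>
    intro u hu
    rw [List.length_cons, Nat.mul_succ] at hu
    obtain ⟨t, h1, h2⟩ := ih (u.drop m) (by rw [List.length_drop]; omega)
    refine ⟨(b, ⟨u.take m, ?_⟩) :: t, ?_, ?_⟩
    · rw [List.length_take]
      omega
    · rw [List.map_cons, h1]
    · rw [List.flatMap_cons, h2]
      exact List.take_append_drop m u

end RudInv_aux

open RudInv_aux in
theorem tRudInv : S_RudInv := by
  intro α L hL
  induction hL with
  | lin h =>
    intro β _ g
    exact Rud.lin (lin_inv g h)
  | compl _ ih =>
    intro β _ g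
    exact (ih g).compl
  | @hom γ α _ _ h hh L _ ih =>
    intro β _ g
    obtain ⟨m, hm⟩ := (Set.finite_range (fun b => (g b).length)).bddAbove
    have hm' : ∀ b, (g b).length ≤ m := fun b => hm ⟨b, rfl⟩
    have hfin : Finite {l : List γ // l.length ≤ m} := (List.finite_length_le γ m).to_subtype
    have h1 := ih (β := β × {l : List γ // l.length ≤ m}) (fun p => p.2.1)
    have h2 : Rud (β × {l : List γ // l.length ≤ m})
        {t | t.flatMap (fun p => p.2.1.flatMap h) = t.flatMap (fun p => g p.1)} :=
      (R0.eqf _ _).rud
    refine (Rud.img (fun p : β × {l : List γ // l.length ≤ m} => p.1) (h1.inter h2)).congr ?_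
    intro v
    simp only [Set.mem_inter_iff, Set.mem_ofPred_eq]
    constructor
    · rintro ⟨t, ⟨ht1, ht2⟩, rfl⟩
      refine ⟨_, ht1, ?_⟩
      rw [List.flatMap_assoc, ht2, List.flatMap_map]
    · rintro ⟨u, hu, hv⟩
      have h3 : u.length ≤ m * v.length := by
        have h4 := len_le h hh u
        rw [hv] at h4
        exact h4.trans (len_le2 g m hm' v)
      obtain ⟨t, ht1, ht2⟩ := cut m v u h3
      refine ⟨t, ⟨?_, ?_⟩, ht1⟩
      · rw [ht2]
        exact hu
      · rw [← List.flatMap_assoc, ht2, hv, ← ht1, List.flatMap_map]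

end MPdee884H2
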