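import Pool.Agent.Lib.MP_dee884_lc.H2.Spec

/-!
# MP_dee884_lc, H2: unique decoding
-/

set_option autoImplicit false

namespace MPdee884H2

open MPdee884H1 Pool.Agent.Lin

namespace Sh_aux

/-- the label of the letters of `cd p` -/
def lb (b : Bool) : Fin 3 := if b = true then 2 else 1

theorem lb_ne (b : Bool) : lb b ≠ 0 := by
  cases b <;> decide

theorem lb_inj {b b' : Bool} (h : lb b = lb b') : b = b' := by
  cases b <;> cases b' <;> first | rfl | (exfalso; revert h; decide)

theorem cd_inl {A : Type} (b : Bool) (a : A) : cd (b, (Sum.inl a : Ev A)) = [(Lt.ltr a, lb b)] := rfl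

theorem cd_inr {A : Type} (b : Bool) (t : Fin 3) (k : ℕ) :
    cd (b, (Sum.inr (t, k) : Ev A)) = (Lt.hd t, lb b) :: List.replicate k (Lt.one, lb b) := by
  simp [cd, code, lb]

/-- the first letter of a code -/
theorem cd_head {A : Type} (p : Bool × Ev A) :
    ∃ (l : Lt A) (c : Fin 3) (r : List (Lt A × Fin 3)), cd p = (l, c) :: r ∧ l ≠ Lt.one ∧ c ≠ 0 := by
  obtain ⟨b, a | ⟨t, k⟩⟩ := p
  · exact ⟨_, _, _, cd_inl b a, by simp, lb_ne b⟩
  · exact ⟨_, _, _, cd_inr b t k, by simp, lb_ne b⟩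

/-- no letter `(one, c)`, `c ≠ 0`, at the beginning -/
def NoOne {A : Type} (v : List (Lt A × Fin 3)) : Prop :=
  ∀ (c : Fin 3) (r : List (Lt A × Fin 3)), v = (Lt.one, c) :: r → c = 0

theorem noOne_cd {A : Type} (p : Bool × Ev A) (v : List (Lt A × Fin 3)) : NoOne (cd p ++ v) := by
  intro c r h
  obtain ⟨l, c', r', h1, h2, -⟩ := cd_head p
  rw [h1, List.cons_append, List.cons.injEq, Prod.mk.injEq] at h
  exact absurd h.1.1 h2

theorem noOne_of_Sh {A : Type} {v : List (Lt A × Fin 3)} {w : List (Bool × Ev A)} (h : Sh v w) :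
    NoOne v := by
  cases h with
  | nil => intro c r h; simp at h
  | skip l v w _ =>
    intro c r h
    rw [List.cons.injEq, Prod.mk.injEq] at h
    exact h.1.2.symm
  | ev p v w _ => exact noOne_cd p v

theorem noOne_of_WA {A Q : Type} {δ : Q → Option (Bool × Ev A) → Q → Prop} {F : Q → Prop}
    {v : List (Lt A × Fin 3)} {q : Q} (h : WA (Rl δ) F v q) : NoOne v := by
  induction h with
  | nil q _ => intro c r h; simp at h
  | step u w q q' hR _ ih =>
    rcases hR with ⟨l, rfl, -⟩ | ⟨rfl, -⟩ | ⟨p, rfl, -⟩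
    · intro c r h
      rw [List.cons_append, List.cons.injEq, Prod.mk.injEq] at h
      exact h.1.2.symm
    · rw [List.nil_append]
      exact ih
    · exact noOne_cd p w

theorem rep_inj {X : Type} (x : X) {v' v'' : List X} (h' : ∀ r, v' ≠ x :: r)
    (h'' : ∀ r, v'' ≠ x :: r) : ∀ k k'' : ℕ,
    List.replicate k x ++ v' = List.replicate k'' x ++ v'' → k = k'' ∧ v' = v''
  | 0, 0, h => ⟨rfl, by simpa using h⟩
  | 0, k'' + 1, h => by
    rw [List.replicate_zero, List.nil_append, List.replicate_succ, List.cons_append] at h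
    exact absurd h (h' _)
  | k + 1, 0, h => by
    rw [List.replicate_zero, List.nil_append, List.replicate_succ, List.cons_append] at h
    exact absurd h.symm (h'' _)
  | k + 1, k'' + 1, h => by
    rw [List.replicate_succ, List.replicate_succ, List.cons_append, List.cons_append,
      List.cons.injEq] at h
    obtain ⟨h1, h2⟩ := rep_inj x h' h'' k k'' h.2
    exact ⟨by rw [h1], h2⟩

theorem cd_inj {A : Type} {p p'' : Bool × Ev A} {v' v'' : List (Lt A × Fin 3)} (h' : NoOne v')
    (h'' : NoOne v'') (h : cd p ++ v' = cd p'' ++ v'') : p = p'' ∧ v' = v'' := by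
  obtain ⟨b, a | ⟨t, k⟩⟩ := p <;> obtain ⟨b'', a'' | ⟨t'', k''⟩⟩ := p''
  · rw [cd_inl, cd_inl] at h
    simp only [List.cons_append, List.nil_append, List.cons.injEq, Prod.mk.injEq,
      Lt.ltr.injEq] at h
    obtain ⟨⟨rfl, h2⟩, h3⟩ := h
    exact ⟨by rw [lb_inj h2], h3⟩
  · rw [cd_inl, cd_inr] at h
    simp at h
  · rw [cd_inl, cd_inr] at h
    simp at h
  · rw [cd_inr, cd_inr, List.cons_append, List.cons_append, List.cons.injEq, Prod.mk.injEq,
      Lt.hd.injEq] at h
    obtain ⟨⟨rfl, h2⟩, h3⟩ := h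
    obtain rfl := lb_inj h2
    obtain ⟨rfl, h4⟩ := rep_inj (Lt.one, lb b) (fun r hr => lb_ne b (h' _ _ hr))
      (fun r hr => lb_ne b (h'' _ _ hr)) k k'' h3
    exact ⟨rfl, h4⟩

theorem WA_of_Sh_nil {A Q : Type} {δ : Q → Option (Bool × Ev A) → Q → Prop} {F : Q → Prop} {q : Q}
    (hF : F q) {v : List (Lt A × Fin 3)} {w : List (Bool × Ev A)} (h : Sh v w) (hw : w = []) :
    WA (Rl δ) F v q := by
  induction h with
  | nil => exact WA.nil q hF
  | skip l v w _ ih => exact WA.step [(l, 0)] v q q (Or.inl ⟨l, rfl, rfl⟩) (ih hw)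
  | ev p v w _ _ => simp at hw

theorem WA_of_Sh_cons {A Q : Type} {δ : Q → Option (Bool × Ev A) → Q → Prop} {F : Q → Prop}
    {q q' : Q} {p : Bool × Ev A} (hδ : δ q (some p) q') {w' : List (Bool × Ev A)}
    (ih' : ∀ v, Sh v w' → WA (Rl δ) F v q') {v : List (Lt A × Fin 3)} {w : List (Bool × Ev A)}
    (h : Sh v w) (hw : w = p :: w') : WA (Rl δ) F v q := by
  induction h with
  | nil => simp at hw
  | skip l v w _ ih => exact WA.step [(l, 0)] v q q (Or.inl ⟨l, rfl, rfl⟩) (ih hw)
  | ev p1 v w hv _ =>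
    rw [List.cons.injEq] at hw
    obtain ⟨rfl, rfl⟩ := hw
    exact WA.step (cd p1) v q q' (Or.inr (Or.inr ⟨p1, rfl, hδ⟩)) (ih' v hv)

theorem WA_of_NA {A Q : Type} {δ : Q → Option (Bool × Ev A) → Q → Prop} {F : Q → Prop}
    {w : List (Bool × Ev A)} {q : Q} (h : NA δ F w q) : ∀ v, Sh v w → WA (Rl δ) F v q := by
  induction h with
  | nil q hF => exact fun v hv => WA_of_Sh_nil hF hv rfl
  | step a w q q' hδ _ ih =>
    intro v hv
    cases a with
    | none => exact WA.step [] v q q' (Or.inr (Or.inl ⟨rfl, hδ⟩)) (ih v hv)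
    | some p => exact WA_of_Sh_cons hδ ih hv rfl

theorem Sh_nil {A : Type} {v : List (Lt A × Fin 3)} {w : List (Bool × Ev A)} (h : Sh v w)
    (hv : v = []) : w = [] := by
  cases h with
  | nil => rfl
  | skip l v w _ => simp at hv
  | ev p v w _ =>
    obtain ⟨l, c, r, h1, -⟩ := cd_head p
    rw [h1] at hv
    simp at hv

theorem NA_of_WA {A Q : Type} {δ : Q → Option (Bool × Ev A) → Q → Prop} {F : Q → Prop}
    {v : List (Lt A × Fin 3)} {q : Q} (h : WA (Rl δ) F v q) : ∀ w, Sh v w → NA δ F w q := by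
  induction h with
  | nil q hF =>
    intro w hw
    rw [Sh_nil hw rfl]
    exact NA.nil q hF
  | step u v' q q' hR hWA ih =>
    intro w hw
    rcases hR with ⟨l, rfl, rfl⟩ | ⟨rfl, hδ⟩ | ⟨p, rfl, hδ⟩
    · generalize hV : [(l, (0 : Fin 3))] ++ v' = V at hw
      cases hw with
      | nil => simp at hV
      | skip l1 v1 w hv1 =>
        rw [List.cons_append, List.nil_append, List.cons.injEq] at hV
        rw [← hV.2] at hv1
        exact ih w hv1
      | ev p1 v1 w hv1 =>
        obtain ⟨l1, c, r, h1, -, h3⟩ := cd_head p1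
        rw [h1, List.cons_append, List.cons_append, List.cons.injEq, Prod.mk.injEq] at hV
        exact absurd hV.1.2.symm h3
    · rw [List.nil_append] at hw
      exact NA.step none w q q' hδ (ih w hw)
    · generalize hV : cd p ++ v' = V at hw
      cases hw with
      | nil =>
        obtain ⟨l1, c, r, h1, -⟩ := cd_head p
        rw [h1] at hV
        simp at hV
      | skip l1 v1 w hv1 =>
        obtain ⟨l2, c, r, h1, -, h3⟩ := cd_head p
        rw [h1, List.cons_append, List.cons.injEq, Prod.mk.injEq] at hV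
        exact absurd hV.1.2 h3
      | ev p1 v1 w1 hv1 =>
        obtain ⟨rfl, rfl⟩ := cd_inj (noOne_of_WA hWA) (noOne_of_Sh hv1) hV
        exact NA.step (some p) w1 q q' hδ (ih w1 hv1)

end Sh_aux

theorem tSh : S_Sh := by
  intro A Q δ F v w h q
  exact ⟨fun h1 => Sh_aux.NA_of_WA h1 w h, fun h1 => Sh_aux.WA_of_NA h1 v h⟩

end MPdee884H2
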