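import Pool.Agent.Lib.MP_dee884_lc.H2.Spec

/-!
# MP_dee884_lc, H2: soundness, the blocks glue to a computation
-/

set_option autoImplicit false

namespace MPdee884H2

open MPdee884H1 Pool.Agent.Lin

namespace Sound_aux

theorem proj_self {A : Type} (h : ℤ) (e : Ev A) (l : List (Ev A)) :
    proj h h (e :: l) = (false, e) :: proj h (h + dir e) l := by
  simp only [proj, if_true]
  rw [if_neg (fun hh => hh.2 (by linarith [hh.1]))]
  rfl

theorem proj_ne {A : Type} {β h : ℤ} (h1 : β ≠ h) (e : Ev A) (h2 : β ≠ h + dir e)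
    (l : List (Ev A)) : proj β h (e :: l) = proj β (h + dir e) l := by
  simp only [proj]
  rw [if_neg h1, if_neg (fun hh => h2 hh.1)]
  rfl

theorem proj_enter {A : Type} {β h : ℤ} (h1 : β ≠ h) (e : Ev A) (h2 : β = h + dir e)
    (l : List (Ev A)) : proj β h (e :: l) = (true, e) :: proj β (h + dir e) l := by
  simp only [proj]
  rw [if_neg h1, if_pos ⟨h2, fun hh => h1 (by rw [h2, hh, add_zero])⟩]
  rfl

theorem proj_first {A : Type} {β : ℤ} : ∀ (l : List (Ev A)) (h : ℤ), β ≠ h →
    ∀ (b : Bool) (e : Ev A) (w : List (Bool × Ev A)), proj β h l = (b, e) :: w → b = true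
  | [], h, _, b, e, w, hw => by simp [proj] at hw
  | e' :: l, h, hβ, b, e, w, hw => by
    by_cases h2 : β = h + dir e'
    · rw [proj_enter hβ e' h2, List.cons.injEq, Prod.mk.injEq] at hw
      exact hw.1.1.symm
    · rw [proj_ne hβ e' h2] at hw
      exact proj_first l _ h2 b e w hw

theorem proj_self_nil {A : Type} {h : ℤ} {l : List (Ev A)} (hw : proj h h l = []) : l = [] := by
  cases l with
  | nil => rfl
  | cons e l =>
    rw [proj_self] at hw
    simp at hw

theorem proj_self_cons {A : Type} {h : ℤ} {l : List (Ev A)} {e : Ev A}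
    {w : List (Bool × Ev A)} (hw : proj h h l = (false, e) :: w) :
    ∃ l', l = e :: l' ∧ w = proj h (h + dir e) l' := by
  cases l with
  | nil => simp [proj] at hw
  | cons e' l =>
    rw [proj_self, List.cons.injEq, Prod.mk.injEq] at hw
    obtain ⟨⟨-, rfl⟩, h2⟩ := hw
    exact ⟨l, rfl, h2.symm⟩

variable {A : Type} {M : NTM A} {B : ℕ} {num : M.S → ℕ}

theorem inv_pen {w : List (Bool × Ev A)} {g1 : Fin B → Option M.G} {t : Fin 3} {q' : M.S}
    (h : NA (BlkT M B num) (BlkF M B) w (g1, Md.pen t q')) :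
    ∃ w2, w = (false, Sum.inr (t, num q')) :: w2 ∧
      NA (BlkT M B num) (BlkF M B) w2 (g1, Md.out) := by
  generalize hs : ((g1, Md.pen t q') : BS M B) = s at h
  cases h with
  | nil s hF =>
    subst hs
    rcases hF with h1 | ⟨q, i, h1, -⟩ <;> simp at h1
  | step a w s s' hδ hw =>
    subst hs
    cases hδ with
    | leave =>
      exact ⟨w, rfl, hw⟩

theorem inv_out {w3 : List (Bool × Ev A)} {g1 : Fin B → Option M.G} {b : Bool} {e : Ev A}
    (h : NA (BlkT M B num) (BlkF M B) ((b, e) :: w3) (g1, Md.out)) :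
    b = true ∧ ∃ (q : M.S) (i : Fin B), NA (BlkT M B num) (BlkF M B) w3 (g1, Md.inn q i) ∧
      ((e = Sum.inr (1, num q) ∧ i.1 = 0) ∨ (e = Sum.inr (2, num q) ∧ i.1 + 1 = B)) := by
  generalize hs : ((g1, Md.out) : BS M B) = s at h
  generalize hW : (b, e) :: w3 = W at h
  cases h with
  | nil s hF => simp at hW
  | step a w s s' hδ hw =>
    subst hs
    cases hδ with
    | enterr _ q i hi =>
      simp only [Option.toList_some, List.cons_append, List.nil_append, List.cons.injEq,
        Prod.mk.injEq] at hW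
      obtain ⟨⟨rfl, rfl⟩, rfl⟩ := hW
      exact ⟨rfl, q, i, hw, Or.inl ⟨rfl, hi⟩⟩
    | enterl _ q i hi =>
      simp only [Option.toList_some, List.cons_append, List.nil_append, List.cons.injEq,
        Prod.mk.injEq] at hW
      obtain ⟨⟨rfl, rfl⟩, rfl⟩ := hW
      exact ⟨rfl, q, i, hw, Or.inr ⟨rfl, hi⟩⟩

theorem inv_ini {w : List (Bool × Ev A)} {g1 : Fin B → Option M.G}
    (h : NA (BlkT M B num) (BlkF M B) w (g1, Md.ini)) :
    NA (BlkT M B num) (BlkF M B) w (g1, Md.out) ∨ ∃ (o : Fin B) (w2 : List (Bool × Ev A)),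
      w = (false, Sum.inr (0, o.1)) :: w2 ∧
      NA (BlkT M B num) (BlkF M B) w2 (g1, Md.inn M.start o) := by
  generalize hs : ((g1, Md.ini) : BS M B) = s at h
  cases h with
  | nil s hF =>
    subst hs
    rcases hF with h1 | ⟨q, i, h1, -⟩ <;> simp at h1
  | step a w s s' hδ hw =>
    subst hs
    cases hδ with
    | start _ o => exact Or.inr ⟨o, w, rfl, hw⟩
    | sleep => exact Or.inl hw

/-- the tape -/
def T (o : Fin B) (g : ℤ → Fin B → Option M.G) (p : ℤ) : Option M.G :=
  g ((p + o.1) / B) ⟨((p + o.1) % B).toNat, by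
    have hB : 0 < B := lt_of_le_of_lt (Nat.zero_le _) o.2
    have h1 := Int.emod_lt_of_pos (p + o.1) (by exact_mod_cast hB : (0 : ℤ) < B)
    have h2 := Int.emod_nonneg (p + o.1) (by exact_mod_cast hB.ne' : (B : ℤ) ≠ 0)
    omega⟩

theorem T_pos (o : Fin B) (g : ℤ → Fin B → Option M.G) (h : ℤ) (i : Fin B) :
    T o g (h * B + i.1 - o.1) = g h i := by
  have hB : (0 : ℤ) < B := by exact_mod_cast lt_of_le_of_lt (Nat.zero_le _) o.2
  have hi : (i.1 : ℤ) < B := by exact_mod_cast i.2
  have h0 : h * (B : ℤ) + i.1 - o.1 + o.1 = i.1 + B * h := by ring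
  have h1 : (h * (B : ℤ) + i.1 - o.1 + o.1) / B = h := by
    rw [h0, Int.add_mul_ediv_left _ _ hB.ne', Int.ediv_eq_zero_of_lt (by positivity) hi, zero_add]
  have h2 : (h * (B : ℤ) + i.1 - o.1 + o.1) % B = i.1 := by
    rw [h0, Int.add_mul_emod_self_left, Int.emod_eq_of_lt (by positivity) hi]
  unfold T
  have h3 : (⟨((h * (B : ℤ) + i.1 - o.1 + o.1) % B).toNat, by
      rw [h2]; simp⟩ : Fin B) = i := by
    apply Fin.ext
    simp only [h2]
    simp
  rw [h3, h1]

theorem T_update (o : Fin B) (g : ℤ → Fin B → Option M.G) (h : ℤ) (i : Fin B) (b : Option M.G) :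
    Function.update (T o g) (h * B + i.1 - o.1) b =
      T o (Function.update g h (Function.update (g h) i b)) := by
  have hB : (0 : ℤ) < B := by exact_mod_cast lt_of_le_of_lt (Nat.zero_le _) o.2
  funext p
  by_cases hp : p = h * B + i.1 - o.1
  · subst hp
    rw [Function.update_self, T_pos, Function.update_self, Function.update_self]
  · rw [Function.update_of_ne hp]
    unfold T
    by_cases h1 : (p + (o.1 : ℤ)) / B = h
    · rw [h1, Function.update_self, Function.update_of_ne]
      intro h2
      apply hp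
      have h3 : ((p + (o.1 : ℤ)) % B) = i.1 := by
        have h4 := congrArg Fin.val h2
        simp only at h4
        have h5 := Int.emod_nonneg (p + (o.1 : ℤ)) hB.ne'
        omega
      have h6 := Int.emod_add_mul_ediv (p + (o.1 : ℤ)) B
      rw [h1, h3] at h6
      linarith
    · rw [Function.update_of_ne h1]

/-- crossing the end of a block -/
theorem cross (hnum : Function.Injective num) (o : Fin B) {h : ℤ} {g : ℤ → Fin B → Option M.G}
    {g1 : Fin B → Option M.G} {q' : M.S} {t : Fin 3} (ht : t ≠ 0) {l : List (Ev A)}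
    {w : List (Bool × Ev A)} (hl : w = proj h h l)
    (hw : NA (BlkT M B num) (BlkF M B) w (g1, Md.pen t q'))
    (ho : ∀ β, β ≠ h → NA (BlkT M B num) (BlkF M B) (proj β h l) (g β, Md.out)) :
    ∃ (l'' : List (Ev A)) (i'' : Fin B), l = Sum.inr (t, num q') :: l'' ∧
      NA (BlkT M B num) (BlkF M B) (proj (h + dr t) (h + dr t) l'')
        (Function.update g h g1 (h + dr t), Md.inn q' i'') ∧
      (∀ β, β ≠ h + dr t → NA (BlkT M B num) (BlkF M B) (proj β (h + dr t) l'')
        (Function.update g h g1 β, Md.out)) ∧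
      ((t = 1 ∧ i''.1 = 0) ∨ (t = 2 ∧ i''.1 + 1 = B)) := by
  obtain ⟨w2, rfl, hw2⟩ := inv_pen hw
  obtain ⟨l'', rfl, rfl⟩ := proj_self_cons hl.symm
  have hd : dir (Sum.inr (t, num q') : Ev A) = dr t := rfl
  have hdr : dr t ≠ 0 := by
    fin_cases t
    · exact absurd rfl ht
    · decide
    · decide
  have hne : h + dr t ≠ h := by
    intro h1
    exact hdr (by linarith)
  rw [hd] at hw2
  have h2 := ho (h + dr t) hne
  rw [proj_enter hne _ rfl, hd] at h2
  obtain ⟨-, q'', i'', h3, h4⟩ := inv_out h2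
  have hq : q'' = q' ∧ ((t = 1 ∧ i''.1 = 0) ∨ (t = 2 ∧ i''.1 + 1 = B)) := by
    rcases h4 with ⟨h5, h6⟩ | ⟨h5, h6⟩
    · rw [Sum.inr.injEq, Prod.mk.injEq] at h5
      exact ⟨(hnum h5.2).symm, Or.inl ⟨h5.1, h6⟩⟩
    · rw [Sum.inr.injEq, Prod.mk.injEq] at h5
      exact ⟨(hnum h5.2).symm, Or.inr ⟨h5.1, h6⟩⟩
  obtain ⟨rfl, h7⟩ := hq
  refine ⟨l'', i'', rfl, ?_, fun β hβ => ?_, h7⟩
  · rw [Function.update_of_ne hne]
    exact h3
  · by_cases hβh : β = h
    · subst hβh
      rw [Function.update_self]
      exact hw2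
    · rw [Function.update_of_ne hβh]
      have h8 := ho β hβh
      rw [proj_ne hβh _ (by rw [hd]; exact hβ), hd] at h8
      exact h8

theorem main (hnum : Function.Injective num) (o : Fin B) : ∀ (N : ℕ) (w : List (Bool × Ev A))
    (s : BS M B), NA (BlkT M B num) (BlkF M B) w s → ∀ (l : List (Ev A)) (h : ℤ)
    (g : ℤ → Fin B → Option M.G) (q : M.S) (i : Fin B), l.length ≤ N → w = proj h h l →
    s = (g h, Md.inn q i) →
    (∀ β, β ≠ h → NA (BlkT M B num) (BlkF M B) (proj β h l) (g β, Md.out)) →
    ∃ n, M.Acc n (l.flatMap evr) q (h * B + i.1 - o.1) (T o g) := by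
  intro N
  induction N using Nat.strong_induction_on with
  | _ N IH =>
    intro w s hNA
    induction hNA with
    | nil s hF =>
      intro l h g q i hlN hw hs ho
      subst hs
      obtain rfl := proj_self_nil hw.symm
      rcases hF with h1 | ⟨q1, i1, h1, h2⟩
      · simp at h1
      · simp only [Md.inn.injEq] at h1
        obtain ⟨rfl, rfl⟩ := h1
        exact ⟨0, NTM.Acc.done _ _ _ h2⟩
    | step a w s s' hδ hNA' ih =>
      intro l h g q i hlN hw hs ho
      subst hs
      -- read the letter
      have read : ∀ (a' : Option A), a'.map (fun a => ((false, Sum.inl a) : Bool × Ev A)) = a →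
          ∃ l' : List (Ev A), l'.length ≤ l.length ∧ l.flatMap evr = a'.toList ++ l'.flatMap evr ∧
            w = proj h h l' ∧
            ∀ β, β ≠ h → NA (BlkT M B num) (BlkF M B) (proj β h l') (g β, Md.out) := by
        intro a' ha'
        subst ha'
        cases a' with
        | none => exact ⟨l, le_rfl, rfl, hw, ho⟩
        | some a' =>
          obtain ⟨l', rfl, rfl⟩ := proj_self_cons (e := Sum.inl a') hw.symm
          have hd : h + dir (Sum.inl a' : Ev A) = h := by
            simp [dir]
          refine ⟨l', by simp, by simp [evr], by rw [hd], fun β hβ => ?_⟩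
          have h1 := ho β hβ
          rwa [proj_ne hβ _ (by rw [hd]; exact hβ), hd] at h1
      have fin : ∀ (a' : Option A) (q' : M.S) (b : Option M.G) (d : Dir) (l' : List (Ev A))
          (h' : ℤ) (i' : Fin B) (l'' : List (Ev A)), l.flatMap evr = a'.toList ++ l'.flatMap evr →
          l'.flatMap evr = l''.flatMap evr →
          M.tr q a' (g h i) q' b d → h' * B + (i'.1 : ℤ) = h * B + i.1 + d.toInt →
          (∃ n, M.Acc n (l''.flatMap evr) q' (h' * B + i'.1 - o.1)
            (T o (Function.update g h (Function.update (g h) i b)))) →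
          ∃ n, M.Acc n (l.flatMap evr) q (h * B + i.1 - o.1) (T o g) := by
        intro a' q' b d l' h' i' l'' e1 e2 htr e3 hn
        obtain ⟨n, hn⟩ := hn
        refine ⟨n + 1, ?_⟩
        rw [e1, e2]
        refine NTM.Acc.step n a' _ q q' _ _ b d ?_ ?_
        · rw [T_pos]
          exact htr
        · rw [T_update]
          have e4 : h * (B : ℤ) + i.1 - o.1 + d.toInt = h' * B + i'.1 - o.1 := by linarith
          rw [e4]
          exact hn
      generalize hss : ((g h, Md.inn q i) : BS M B) = ss at hδ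
      cases hδ with
      | start _ _ => simp at hss
      | sleep _ => simp at hss
      | leave _ _ _ => simp at hss
      | enterr _ _ _ _ => simp at hss
      | enterl _ _ _ _ => simp at hss
      | move g0 a' q0 q' b d i0 i' htr hi =>
        simp only [Prod.mk.injEq, Md.inn.injEq] at hss
        obtain ⟨rfl, rfl, rfl⟩ := hss
        obtain ⟨l', hl', e1, hw', ho'⟩ := read a' rfl
        refine fin a' q' b d l' h i' l' e1 rfl htr (by rw [hi]; ring) ?_
        refine ih l' h (Function.update g h (Function.update (g h) i b)) q' i' (hl'.trans hlN) hw' ?_ ?_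
        · rw [Function.update_self]
        · intro β hβ
          rw [Function.update_of_ne hβ]
          exact ho' β hβ
      | exitr g0 a' q0 q' b d i0 htr hi =>
        simp only [Prod.mk.injEq, Md.inn.injEq] at hss
        obtain ⟨rfl, rfl, rfl⟩ := hss
        obtain ⟨l', hl', e1, hw', ho'⟩ := read a' rfl
        obtain ⟨l'', i'', rfl, h1, h2, h3⟩ := cross hnum o (by decide) hw' hNA' ho'
        rcases h3 with ⟨-, h3⟩ | ⟨h3, -⟩
        · refine fin a' q' b d _ (h + dr 1) i'' l'' e1 (by simp [evr]) htr ?_ ?_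
          · have : dr 1 = 1 := rfl
            rw [this, h3]
            push_cast
            linarith
          · have hlen : l''.length < N := by
              simp only [List.length_cons] at hl'
              omega
            exact IH l''.length hlen _ _ h1 l'' (h + dr 1) _ q' i'' le_rfl rfl rfl h2
        · exact absurd h3 (by decide)
      | exitl g0 a' q0 q' b d i0 htr hi =>
        simp only [Prod.mk.injEq, Md.inn.injEq] at hss
        obtain ⟨rfl, rfl, rfl⟩ := hss
        obtain ⟨l', hl', e1, hw', ho'⟩ := read a' rfl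
        obtain ⟨l'', i'', rfl, h1, h2, h3⟩ := cross hnum o (by decide) hw' hNA' ho'
        rcases h3 with ⟨h3, -⟩ | ⟨-, h3⟩
        · exact absurd h3 (by decide)
        · refine fin a' q' b d _ (h + dr 2) i'' l'' e1 (by simp [evr]) htr ?_ ?_
          · have : dr 2 = -1 := rfl
            rw [this]
            have h4 : (i''.1 : ℤ) + 1 = B := by exact_mod_cast h3
            linarith
          · have hlen : l''.length < N := by
              simp only [List.length_cons] at hl'
              omega
            exact IH l''.length hlen _ _ h1 l'' (h + dr 2) _ q' i'' le_rfl rfl rfl h2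

end Sound_aux

open Sound_aux in
theorem tSound : S_Sound := by
  intro A M B num hnum o l hall
  have hd : (0 : ℤ) + dir (Sum.inr (0, o.1) : Ev A) = 0 := by
    simp [dir, dr]
  have h0 := hall 0
  rw [proj_self, hd] at h0
  have h1 : NA (BlkT M B num) (BlkF M B) (proj 0 0 l) ((fun _ => none), Md.inn M.start o) := by
    rcases inv_ini h0 with h2 | ⟨o', w2, h2, h3⟩
    · exact absurd (inv_out h2).1 (by decide)
    · simp only [List.cons.injEq, Prod.mk.injEq, Sum.inr.injEq, true_and] at h2
      obtain ⟨h4, rfl⟩ := h2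
      obtain rfl : o = o' := Fin.ext h4
      exact h3
  have h2 : ∀ β : ℤ, β ≠ 0 → NA (BlkT M B num) (BlkF M B) (proj β 0 l) ((fun _ => none), Md.out) := by
    intro β hβ
    have h3 := hall β
    rw [proj_ne hβ _ (by rw [hd]; exact hβ), hd] at h3
    rcases inv_ini h3 with h4 | ⟨o', w2, h4, -⟩
    · exact h4
    · exact absurd (proj_first l 0 hβ _ _ _ h4) (by decide)
  obtain ⟨n, hn⟩ := main hnum o l.length _ _ h1 l 0 (fun _ _ => none) M.start o le_rfl rfl rfl h2
  refine ⟨n, ?_⟩
  have e1 : (0 : ℤ) * B + o.1 - o.1 = 0 := by ring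
  have e2 : T o (fun _ _ => none) = (fun _ => (none : Option M.G)) := rfl
  rw [e1, e2] at hn
  exact hn

end MPdee884H2
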