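import Pool.Agent.Lib.MP_dee884_lc.H2.Defs

/-!
# MP_dee884_lc, H2: the statements of the modules

Each module `X.lean` in this folder proves `theorem x : S_X` (or with other `S_Y` as hypotheses,
where the docstring says so). All proofs are elementary.
-/

namespace MPdee884H2

open MPdee884H1 Pool.Agent.Lin

/-- RIGHT-LINEAR GRAMMARS. Proof: `Q` is finite (transport along `Finite.exists_equiv_fin` is not
needed, `ContextFreeGrammar` takes any type of nonterminals): grammar with the nonterminals `Q`,
initial `q`, the rules `q1 -> (u.map terminal) ++ [nonterminal q2]` for `R q1 u q2` (finitely many: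
`Set.Finite.toFinset` of an image of the finite set) and `q1 -> []` for `F q1`. Every form derived
from `[nonterminal q]` is `(v.map terminal) ++ [nonterminal q']` where a path of rules leads from `q`
to `q'` reading `v`, or `v.map terminal` with `WA R F v q`; conversely `WA R F w q'` gives a
derivation of `w.map terminal` from `[nonterminal q']` by induction (`Derives.append_left`). -/
def S_Wcf : Prop := ∀ {Q X : Type} [Finite Q] [Finite X] (R : Q → List X → Q → Prop)
  (F : Q → Prop), {p : Q × List X × Q | R p.1 p.2.1 p.2.2}.Finite → ∀ q : Q,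
    Language.IsContextFree ({w | WA R F w q} : Language X)

/-- LEVEL SETS. Proof: use the closure properties of `R0` (H1/R0.lean: `R0.eqs`, `R0.eqf`,
`R0.eqc`, `R0.img`, `R0.all`, `R0.inv`, `R0.invMap`, `R0.inter`, `R0.imp`, `R0.iUnion`, `R0.iInter`,
`R0.split`, `R0.splitAll`, `part_mark0/1/2`, `map_fst_mark3`). `β` is an integer; as `v ∈ LVL` only
matters through the comparison of `β` with heights between `-|v|` and `|v|`, we may take
`-|v| - 1 ≤ β ≤ |v| + 1` (if all labels are 0 a larger `|β|` is as good as `|v| + 2`, see below), and
write `β = #P - #N`, `P`, `N` two sets of marks given by two further tracks over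
`Fin 3` (0, 1 or 2 marks per letter, so that also `|β| ≤ 2|v|` is possible; the empty word is
treated separately). Then `v = lab β 0 0 (v.map fst)` says: for every way to write `v` as
`p ++ [l] ++ r` the label of `l` is right, where: label of `pad` is 0; label of `one` is the label
of the last letter of `p` (0 if `p` is empty); label of `ltr a` is 1 if the height `ht p = #(hd 1 in
p) - #(hd 2 in p)` is `β`, else 0; label of `hd t` is `lbl β (ht p) t`. The conditions `ht p = β`,
`ht p + 1 = β`, `ht p - 1 = β` are equalities of unary numbers `#(hd 1 in p) + #N + const =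
#(hd 2 in p) + #P + const'`, i.e. `R0.eqs` on the word with three parts marked (`R0.splitAll`), `p` =
part 0, `l` = part 1. -/
def S_Lvl : Prop := ∀ (A : Type) [Finite A], R0 (Lt A × Fin 3) (LVL A)

/-- LABELS OF CODES. Proof: induction on `Par`. For an event `inr (t, k)` all letters of its code
get the label `lbl β h t` (lemma: `lab β h c (replicate k one ++ z) = replicate k (one, c) ++
lab β h c z`), which is 1, 2 or 0 exactly if `proj` has `(false, e)`, `(true, e)` or nothing; with
the label 0 use `Sh.skip` `k + 1` times. -/
def S_Lab : Prop := ∀ {A : Type} (z : List (Lt A)) (l : List (Ev A)), Par z l →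
  ∀ (β h : ℤ) (c : Fin 3), Sh (lab β h c z) (proj β h l)

/-- UNIQUE DECODING. Proof: `<-`: induction on `NA`, in the case of a letter `p` peel off the
letters with the label 0 of `v` (induction on `Sh`, rules `[(l, 0)]`), then the rule `cd p`. At the
end (`w = []`) only letters with the label 0 remain. `->`: induction on `WA`. Rule `[(l, 0)]`: by
inversion of `Sh` (codes never start with the label 0). Rule `cd p`: `Sh (cd p ++ v') w` gives
`w = p'' :: w'`, `cd p'' ++ v'' = cd p ++ v'`, `Sh v'' w'`; the first letters show `p'' = p` up to the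
number of letters `one`; neither `v''` (by `Sh v'' w'`) nor `v'` (by `WA (Rl δ) F v' q'`, induction)
starts with a letter `(one, c)`, `c ≠ 0`, so the numbers are equal. -/
def S_Sh : Prop := ∀ {A Q : Type} (δ : Q → Option (Bool × Ev A) → Q → Prop) (F : Q → Prop)
  (v : List (Lt A × Fin 3)) (w : List (Bool × Ev A)), Sh v w → ∀ q,
    (WA (Rl δ) F v q ↔ NA δ F w q)

/-- THE PARSED WORDS (prove it from `S_Wcf`). Proof: automaton with the states 0, 1, 2: rules
`0 -(hd 0 :: replicate o one)-> 1` for `o < B`, `1 -[pad]-> 1`, `1 -[ltr a]-> 1`, `1 -[hd t]-> 2`,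
`2 -[one]-> 2`, `2 -[]-> 1`, final state 1. Then `WA z 1` iff `∃ l, Par z l`, and `WA z 2` iff
`∃ k z' l, z = replicate k one ++ z' ∧ Par z' l` (one mutual induction on `WA` for `->`, induction
on `Par` and on `k` for `<-`). -/
def S_ParCF : Prop := ∀ (A : Type) [Finite A] (B : ℕ),
  Language.IsContextFree ({z | ∃ (o : Fin B) (l : List (Ev A)), Par z (Sum.inr (0, o.1) :: l)} :
    Language (Lt A))

/-- SOUNDNESS. Cells: the cell `i` of the block `β` is the cell `β * B + i - o` of the tape, the
content of the tape given by `g : ℤ → Fin B → Option M.G` is `t p = g ((p + o) / B) ((p + o) % B)`.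
Main lemma: for all `l h g q i`: if for every `β` the automaton `NA (BlkT M B num) (BlkF M B)`
accepts `proj β h l` from `(g h, inn q i)` for `β = h` and from `(g β, out)` for `β ≠ h`, then
`∃ n, M.Acc n (l.flatMap evr) q (h * B + i - o) t`. Strong induction on the length of `l`, inside
induction on the accepting derivation of the block `h` (with `l` general). Every event of `l` that
happens in the block `h` is the first letter `(false, e)` of `proj h h (e :: l')`. `nil`: `l = []`,
`M.acc q`. `move`: one step of `M`. `exitr`, `exitl`: one step of `M`, then the mode is `pen t q'`, so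
the next letter is `(false, inr (t, num q'))` by `leave`, hence `l = inr (t, num q') :: l''` and the
new block is `h' = h + dr t`; in the block `h'` (mode `out`) the first letter
`(true, inr (t, num q'))` is accepted by `enterr` / `enterl` with a state `q''`, `num q'' = num q'`, so
`q'' = q'`, at the cell 0 or `B - 1`; apply the induction hypothesis to `l''`. Beginning: in the block
0 the first letter `(false, inr (0, o))` is accepted by `start`; in a block `β ≠ 0` what it sees is
empty or begins with `(true, _)`, which is not accepted in the mode `ini`, so the first transition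
is `sleep`. -/
def S_Sound : Prop := ∀ {A : Type} (M : NTM A) (B : ℕ) (num : M.S → ℕ),
  Function.Injective num → ∀ (o : Fin B) (l : List (Ev A)),
    AllBlk M B num (Sum.inr (0, o.1) :: l) →
      ∃ n, M.Acc n (l.flatMap evr) M.start 0 (fun _ => none)

/-- CROSSINGS OF ONE STEP. Proof: if `d = 0` no `o`; if `d = 1` then `(p + o) / B` and
`(p + 1 + o) / B` are different only if `B` divides `p + 1 + o`, which holds for exactly one `o` in
`{0, ..., B - 1}`; the same for `d = -1` with `p + o`. -/
def S_Cnt : Prop := ∀ (B : ℕ) (p d : ℤ), 0 < B → (d = 0 ∨ d = 1 ∨ d = -1) →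
  (Finset.univ.filter (fun o : Fin B => blk B o.1 p ≠ blk B o.1 (p + d))).card ≤ 1

/-- COMPLETENESS (prove it from `S_Cnt`). Main lemma: if `M.Acc n x q p t` then there is
`X : Fin B → ℕ` with `∑ o, X o ≤ n` such that for every `o` there is `l` with `l.flatMap evr = x`,
`ncr l ≤ X o`, all events `inr (t, k)` of `l` with `t ≠ 0` and `k = num q'` for some `q'`, and for all
`β` the automaton `NA (BlkT M B num) (BlkF M B)` accepts `proj β h l`, where `h = blk B o p`, from
`(t restricted to the block h, inn q i)`, `i = (p + o) % B`, for `β = h` and from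
`(t restricted to the block β, out)` for `β ≠ h`; the content of the cell `i` of the block `β` is
`t (β * B + i - o)`. Induction on `Acc`; for a step from `p` to `p + d` take `X o` plus one if
`blk B o p ≠ blk B o (p + d)` (by `S_Cnt` this adds at most 1 to the sum). For the same block:
transition `move`. For a new block: `exitr` or `exitl`, then the new event
`inr (1, num q')` or `inr (2, num q')`: `leave` in the old block, `enterr` / `enterl` in the new one. At
the end choose `o` with `B * X o ≤ n` (the sum of the `X o` is at most `n`, `B > 0`), and use `start` in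
the block 0 (`blk B o 0 = 0`), `sleep` in the others. -/
def S_Comp : Prop := ∀ {A : Type} (M : NTM A) (B : ℕ) (num : M.S → ℕ), 0 < B →
  ∀ (n : ℕ) (x : List A), M.Acc n x M.start 0 (fun _ => none) →
    ∃ (o : Fin B) (l : List (Ev A)), l.flatMap evr = x ∧ B * ncr l ≤ n ∧
      (∀ t k, (Sum.inr (t, k) : Ev A) ∈ l → t ≠ 0 ∧ ∃ q, k = num q) ∧
      AllBlk M B num (Sum.inr (0, o.1) :: l)

/-- INVERSE HOMOMORPHISMS. Proof: induction on `Rud` (as `Rud.invMap` in H1/Final.lean). `lin`: by
`lin_inv`. Images: `{b | b.flatMap g ∈ h(L)}` is the image under `fst` of the words `t` over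
`β × {l : List γ // l.length ≤ m}` with `t.flatMap snd ∈ L` (induction hypothesis) and
`(t.flatMap snd).flatMap h = t.flatMap (g ∘ fst)` (`R0.eqf`, `R0.rud`), where `m` is a bound for the
lengths `|g b|`. Given `b` and `v ∈ L` with `v.flatMap h = b.flatMap g` we have `|v| ≤ m |b|`, so `v` can
be cut into `|b|` pieces of length at most `m` (induction on `b`, `List.take m`, `List.drop m`). The
type of the lists of length at most `m` over a finite type is finite
(`List.finite_length_le` or as in `finite_pull`). -/
def S_RudInv : Prop := ∀ {α : Type} {L : Set (List α)}, Rud α L → ∀ {β : Type} [Finite β]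
  (g : β → List α), Rud β {v | v.flatMap g ∈ L}

/-- FOLDING (prove it from `S_RudInv`). Proof: let `W i` evaluate `P`. Take
`W' i = {y over A × Bool | ∃ t over (A × Bool) × (Z × Bool) × (Z × Bool), t.map fst = y ∧
 t.flatMap (fun s => [s.2.1, s.2.2]) ∈ W i ∧
 t.flatMap (fun s => er s.2.1.1 ++ er s.2.2.1) = t.flatMap (fun s => [s.1.1]) ∧
 t.flatMap (fun s => [s.2.1.2, s.2.2.2]) = t.flatMap (fun s => [s.1.2]) ++ t.flatMap (fun _ => [false])}`,
in `Rud` by `S_RudInv`, `R0.eqf`, `R0.eqs`, `Rud.inter`, `Rud.img`. If `M` is evaluated by `W i` with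
`u`, `n0` and `|x| ≥ n0 + |u|` then `x` is in the folded language of `M` iff `x.zip (pad u |x|)` is in
`W' i`: for `z` with `|z| = 2 |x|` take `t` = the word of the `(x_j, c_j), (z_(2j), c'_(2j)),
(z_(2j+1), c'_(2j+1))`, `c = pad u |x|`, `c' = pad u (2 |x|) = c ++ replicate |x| false`. -/
def S_Fold : Prop := ∀ {A Z : Type} [Finite A] [Finite Z] (er : Z → List A)
  (P : Set (List Z) → Prop), Tame Z P → Tame A (fun L => ∃ M, P M ∧
    L = {x | ∃ z : List Z, z.length = 2 * x.length ∧ z.flatMap er = x ∧ z ∈ M})

end MPdee884H2
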