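import Pool.Agent.Lib.MP_dee884_lc.H2.Defs

/-!
# MP_dee884_lc, H2: the calculus of tame families, first part
-/

namespace MPdee884H2

open MPdee884H1 Pool.Agent.Lin

theorem pad_length (u : List Bool) (n : ℕ) : (pad u n).length = n := by
  simp only [pad, List.length_take, List.length_append, List.length_replicate]
  omega

theorem pad_of_le (u : List Bool) (n : ℕ) (h : u.length ≤ n) :
    pad u n = u ++ List.replicate (n - u.length) false := by
  unfold pad
  rw [List.take_append, List.take_of_length_le h]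
  congr 1
  rw [List.take_replicate]
  congr 1
  omega

theorem Tame.mono {A : Type} {P Q : Set (List A) → Prop} (h : Tame A P) (hQ : ∀ L, Q L → P L) :
    Tame A Q := by
  obtain ⟨ι, h1, W, h2, h3⟩ := h
  exact ⟨ι, h1, W, h2, fun L hL => h3 L (hQ L hL)⟩

theorem Tame.or {A : Type} {P Q : Set (List A) → Prop} (h : Tame A P) (h' : Tame A Q) :
    Tame A (fun L => P L ∨ Q L) := by
  obtain ⟨ι, _, W, h2, h3⟩ := h
  obtain ⟨ι', _, W', h2', h3'⟩ := h'
  refine ⟨ι ⊕ ι', inferInstance, Sum.elim W W', ?_, ?_⟩
  · rintro (i | i)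
    · exact h2 i
    · exact h2' i
  · rintro L (hL | hL)
    · obtain ⟨i, u, n0, h⟩ := h3 L hL
      exact ⟨Sum.inl i, u, n0, h⟩
    · obtain ⟨i, u, n0, h⟩ := h3' L hL
      exact ⟨Sum.inr i, u, n0, h⟩

/-- finitely many words do not matter -/
theorem Tame.evt {A : Type} {P : Set (List A) → Prop} (h : Tame A P) :
    Tame A (fun L => ∃ L', P L' ∧ ∃ n0, ∀ x : List A, n0 ≤ x.length → (x ∈ L ↔ x ∈ L')) := by
  obtain ⟨ι, h1, W, h2, h3⟩ := h
  refine ⟨ι, h1, W, h2, ?_⟩
  rintro L ⟨L', hL', n1, h4⟩
  obtain ⟨i, u, n0, h5⟩ := h3 L' hL'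
  refine ⟨i, u, max n0 n1, ?_⟩
  intro x hx
  rw [h4 x (le_trans (le_max_right _ _) hx), h5 x (le_trans (le_max_left _ _) hx)]

/-- one language of RUD -/
theorem Tame.one {A : Type} [Finite A] {L : Set (List A)} (h : Rud A L) :
    Tame A (fun L' => L' = L) := by
  refine ⟨Unit, inferInstance, fun _ => {y | y.map Prod.fst ∈ L}, fun _ => h.invMap Prod.fst, ?_⟩
  rintro L' rfl
  refine ⟨(), [], 0, ?_⟩
  intro x _
  have h1 : (x.zip (pad [] x.length)).map Prod.fst = x :=
    List.map_fst_zip (by rw [pad_length])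
  simp only [Set.mem_ofPred_eq, h1]

/-- the slices of finitely many languages of RUD -/
theorem Tame.slices {ρ : Type} [Finite ρ] {B : ρ → Type} [∀ i, Finite (B i)]
    (E : (i : ρ) → Set (List (B i × Bool))) (hE : ∀ i, Rud (B i × Bool) (E i)) (A : Type)
    [Finite A] : Tame A (fun L => ∃ (i : ρ) (f : A → B i) (u : List Bool),
      L = {x | (x.map f).zip (pad u x.length) ∈ E i}) := by
  refine ⟨(i : ρ) × (A → B i), inferInstance, fun p => {y : List (A × Bool) |
    y.map (fun t => (p.2 t.1, t.2)) ∈ E p.1}, fun p => (hE p.1).invMap _, ?_⟩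
  rintro L ⟨i, f, u, rfl⟩
  refine ⟨⟨i, f⟩, u, 0, ?_⟩
  intro x _
  have h1 : ∀ (x : List A) (c : List Bool), (x.map f).zip c =
      (x.zip c).map (fun t => (f t.1, t.2)) := by
    intro x
    induction x with
    | nil => intro c; simp
    | cons a x ih =>
      intro c
      cases c with
      | nil => simp
      | cons b c => simp [ih]
  simp only [Set.mem_ofPred_eq, h1]

/-- the Boolean combinations of context-free languages -/
theorem Tame.bcf (A : Type) [Finite A] : Tame A BCF := by
  obtain ⟨W, hW1, hW2⟩ := uni_family A Unit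
  refine ⟨Unit, inferInstance, W, fun i => (hW1 i).rud, ?_⟩
  intro L hL
  obtain ⟨w, _, hw⟩ := hW2 (fun _ => L) (fun _ => hL) 0
  refine ⟨(), w, w.length, ?_⟩
  intro x hx
  rw [pad_of_le w x.length hx]
  refine hw _ x ?_ ()
  simp only [List.length_append, List.length_replicate]
  omega

theorem map_zip_track2 {A K : Type} (x : List A) (c : List Bool) (hx : x.length = c.length)
    (u : List ((A × K) × Bool)) :
    u.map (fun t => ((t.1.1, t.2) : A × Bool)) = x.zip c ↔
      ∃ v : List (A × K), v.map Prod.fst = x ∧ u = v.zip c := by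
  constructor
  · intro hu
    refine ⟨u.map Prod.fst, ?_, ?_⟩
    · have h1 := congrArg (List.map Prod.fst) hu
      rw [List.map_fst_zip (by omega), List.map_map] at h1
      rw [← h1, List.map_map]
      rfl
    · have h1 := congrArg (List.map Prod.snd) hu
      rw [List.map_snd_zip (by omega), List.map_map] at h1
      rw [← h1]
      clear hu h1
      induction u with
      | nil => rfl
      | cons a u ih =>
        rw [List.map_cons, List.map_cons, List.zip_cons_cons, ← ih]
        rfl
  · rintro ⟨v, rfl, rfl⟩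
    rw [List.length_map] at hx
    induction v generalizing c with
    | nil => simp
    | cons a v ih =>
      cases c with
      | nil => simp at hx
      | cons b c =>
        rw [List.zip_cons_cons, List.map_cons, List.map_cons, List.zip_cons_cons,
          ih c (by simpa using hx)]

/-- existential quantifiers over tracks -/
theorem Tame.ex {A K : Type} [Finite A] [Finite K] {P : Set (List (A × K)) → Prop}
    (h : Tame (A × K) P) : Tame A (fun L => ∃ M, P M ∧
      L = {x | ∃ v : List (A × K), v.map Prod.fst = x ∧ v ∈ M}) := by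
  obtain ⟨ι, h1, W, hW, hP⟩ := h
  refine ⟨ι, h1, fun i => {y | ∃ u ∈ W i, u.map (fun t => ((t.1.1, t.2) : A × Bool)) = y},
    fun i => Rud.img _ (hW i), ?_⟩
  rintro L ⟨M, hM, rfl⟩
  obtain ⟨i, u, n0, hi⟩ := hP M hM
  refine ⟨i, u, n0, ?_⟩
  intro x hx
  simp only [Set.mem_ofPred_eq]
  constructor
  · rintro ⟨v, hv1, hv2⟩
    have hlen : v.length = x.length := by rw [← hv1, List.length_map]
    refine ⟨v.zip (pad u x.length), ?_,
      (map_zip_track2 x _ (pad_length u x.length).symm _).mpr ⟨v, hv1, rfl⟩⟩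
    have := (hi v (by omega)).mp hv2
    rwa [hlen] at this
  · rintro ⟨w, hw1, hw2⟩
    obtain ⟨v, hv1, rfl⟩ := (map_zip_track2 x _ (pad_length u x.length).symm w).mp hw2
    have hlen : v.length = x.length := by rw [← hv1, List.length_map]
    refine ⟨v, hv1, (hi v (by omega)).mpr ?_⟩
    rwa [hlen]

/-- universal quantifiers over tracks -/
theorem Tame.all {A K : Type} [Finite A] [Finite K] {P : Set (List (A × K)) → Prop}
    (h : Tame (A × K) P) : Tame A (fun L => ∃ M, P M ∧
      L = {x | ∀ v : List (A × K), v.map Prod.fst = x → v ∈ M}) := by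
  obtain ⟨ι, h1, W, hW, hP⟩ := h
  refine ⟨ι, h1, fun i => {y | ∀ u, u.map (fun t => ((t.1.1, t.2) : A × Bool)) = y → u ∈ W i},
    fun i => Rud.all _ (hW i), ?_⟩
  rintro L ⟨M, hM, rfl⟩
  obtain ⟨i, u, n0, hi⟩ := hP M hM
  refine ⟨i, u, n0, ?_⟩
  intro x hx
  simp only [Set.mem_ofPred_eq]
  constructor
  · intro h w hw
    obtain ⟨v, hv1, rfl⟩ := (map_zip_track2 x _ (pad_length u x.length).symm w).mp hw
    have hlen : v.length = x.length := by rw [← hv1, List.length_map]
    have := (hi v (by omega)).mp (h v hv1)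
    rwa [hlen] at this
  · intro h v hv
    have hlen : v.length = x.length := by rw [← hv, List.length_map]
    refine (hi v (by omega)).mpr ?_
    rw [hlen]
    exact h _ ((map_zip_track2 x _ (pad_length u x.length).symm _).mpr ⟨v, hv, rfl⟩)

end MPdee884H2
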