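import Pool.Agent.Lib.MP_dee884_lc.H2.Spec

/-!
# MP_dee884_lc, H2: right-linear grammars with words
-/

namespace MPdee884H2

open MPdee884H1 Pool.Agent.Lin

namespace Wcf_aux

variable {Q X : Type}

/-- the rule of the grammar for a rule of the automaton -/
def rl (p : Q × List X × Q) : ContextFreeRule X Q :=
  ⟨p.1, p.2.1.map Symbol.terminal ++ [Symbol.nonterminal p.2.2]⟩

/-- the rule of the grammar for a final state -/
def fl (q : Q) : ContextFreeRule X Q := ⟨q, []⟩

/-- the set of rules -/
def rset (R : Q → List X → Q → Prop) (F : Q → Prop) : Set (ContextFreeRule X Q) :=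
  rl '' {p : Q × List X × Q | R p.1 p.2.1 p.2.2} ∪ fl '' {q | F q}

lemma rset_finite [Finite Q] (R : Q → List X → Q → Prop) (F : Q → Prop)
    (h : {p : Q × List X × Q | R p.1 p.2.1 p.2.2}.Finite) : (rset R F).Finite :=
  (h.image _).union ((Set.toFinite _).image _)

/-- the grammar -/
noncomputable def gr [Finite Q] (R : Q → List X → Q → Prop) (F : Q → Prop)
    (h : {p : Q × List X × Q | R p.1 p.2.1 p.2.2}.Finite) (q : Q) : ContextFreeGrammar X where
  NT := Q
  initial := q
  rules := (rset_finite R F h).toFinset

lemma mem_rules [Finite Q] (R : Q → List X → Q → Prop) (F : Q → Prop)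
    (h : {p : Q × List X × Q | R p.1 p.2.1 p.2.2}.Finite) (q : Q) (r : ContextFreeRule X Q) :
    r ∈ (gr R F h q).rules ↔ r ∈ rset R F :=
  Set.Finite.mem_toFinset _

lemma not_mem (v : List X) (q : Q) :
    (Symbol.nonterminal q : Symbol X Q) ∉ v.map Symbol.terminal := by
  intro h
  rw [List.mem_map] at h
  obtain ⟨a, _, ha⟩ := h
  cases ha

lemma derives_term (g : ContextFreeGrammar X) (v : List X) (t : List (Symbol X g.NT))
    (h : g.Derives (v.map Symbol.terminal) t) : t = v.map Symbol.terminal := by
  rcases h.eq_or_head with h | ⟨s, hs, _⟩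
  · exact h.symm
  · obtain ⟨r, _, hr⟩ := hs.exists_nonterminal_input_mem
    exact absurd hr (not_mem v r.input)

lemma split_eq (v : List X) (q q1 : Q) (p s : List (Symbol X Q))
    (h : v.map Symbol.terminal ++ [Symbol.nonterminal q] = p ++ [Symbol.nonterminal q1] ++ s) :
    p = v.map Symbol.terminal ∧ q1 = q ∧ s = [] := by
  rcases List.eq_nil_or_concat s with hs | ⟨s', x, hs⟩
  · subst hs
    rw [List.append_nil] at h
    have h2 := List.append_inj' h rfl
    refine ⟨h2.1.symm, ?_, rfl⟩
    have h3 := h2.2
    simp only [List.cons.injEq, Symbol.nonterminal.injEq, and_true] at h3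
    exact h3.symm
  · exfalso
    subst hs
    rw [List.concat_eq_append, ← List.append_assoc] at h
    have h2 := (List.append_inj' h rfl).1
    apply not_mem v q1
    rw [h2]
    simp

lemma sound [Finite Q] (R : Q → List X → Q → Prop) (F : Q → Prop)
    (h : {p : Q × List X × Q | R p.1 p.2.1 p.2.2}.Finite) (q0 : Q) (w : List X)
    (s : List (Symbol X Q)) (hs : (gr R F h q0).Derives s (w.map Symbol.terminal)) :
    ∀ (v : List X) (q : Q), s = v.map Symbol.terminal ++ [Symbol.nonterminal q] →
      ∃ w', w = v ++ w' ∧ WA R F w' q := by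
  induction hs using Relation.ReflTransGen.head_induction_on with
  | refl =>
    intro v q hv
    exfalso
    have h1 : (Symbol.nonterminal q : Symbol X Q) ∈ w.map Symbol.terminal := by
      have h2 : (Symbol.nonterminal q : Symbol X Q) ∈
          v.map Symbol.terminal ++ [Symbol.nonterminal q] := by simp
      exact (congrArg (fun l : List (Symbol X Q) => (Symbol.nonterminal q : Symbol X Q) ∈ l)
        hv).mpr h2
    exact not_mem w q h1
  | @head a c hac hcb ih =>
    intro v q hv
    obtain ⟨r, hr, hrw⟩ := hac
    obtain ⟨p, t, hp, hc⟩ := hrw.exists_parts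
    rw [hv] at hp
    obtain ⟨h1, h2, h3⟩ := split_eq v q r.input p t hp
    subst h3
    have hr2 := (mem_rules R F h q0 r).mp hr
    rcases hr2 with ⟨⟨q1, u, q2⟩, hR, rfl⟩ | ⟨q1, hF, rfl⟩
    · change R q1 u q2 at hR
      change q1 = q at h2
      subst h2
      obtain ⟨w', hw, hW⟩ := ih (v ++ u) q2 (by
        rw [hc, h1]
        have h5 : v.map Symbol.terminal ++ (u.map Symbol.terminal ++ [Symbol.nonterminal q2]) ++ []
            = ((v ++ u).map Symbol.terminal ++ [Symbol.nonterminal q2] : List (Symbol X Q)) := by
          rw [List.append_nil, List.map_append, List.append_assoc]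
        exact h5)
      refine ⟨u ++ w', ?_, WA.step u w' _ q2 hR hW⟩
      rw [hw, List.append_assoc]
    · change F q1 at hF
      change q1 = q at h2
      subst h2
      have hc2 : c = v.map Symbol.terminal := by
        rw [hc, h1]
        have h5 : v.map Symbol.terminal ++ [] ++ []
            = (v.map Symbol.terminal : List (Symbol X Q)) := by
          rw [List.append_nil, List.append_nil]
        exact h5
      rw [hc2] at hcb
      have h4 := derives_term (gr R F h q0) v _ hcb
      have h5 : w = v := by
        have hinj : Function.Injective (Symbol.terminal : X → Symbol X Q) := by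
          intro a b hab
          cases hab
          rfl
        exact (List.map_injective_iff.mpr hinj) h4
      refine ⟨[], ?_, WA.nil _ hF⟩
      rw [h5, List.append_nil]

lemma complete [Finite Q] (R : Q → List X → Q → Prop) (F : Q → Prop)
    (h : {p : Q × List X × Q | R p.1 p.2.1 p.2.2}.Finite) (q0 : Q) (w : List X) (q : Q)
    (hw : WA R F w q) :
    (gr R F h q0).Derives [Symbol.nonterminal q] (w.map Symbol.terminal) := by
  induction hw with
  | nil q hF =>
    apply ContextFreeGrammar.Produces.single
    refine ⟨fl q, ?_, ?_⟩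
    · exact (mem_rules R F h q0 _).mpr (Or.inr ⟨q, hF, rfl⟩)
    · exact ContextFreeRule.Rewrites.input_output (r := (fl q : ContextFreeRule X Q))
  | step u w q q' hR _ ih =>
    have h1 : (gr R F h q0).Produces [Symbol.nonterminal q]
        (u.map Symbol.terminal ++ [Symbol.nonterminal q']) := by
      refine ⟨rl (q, u, q'), ?_, ?_⟩
      · exact (mem_rules R F h q0 _).mpr (Or.inl ⟨(q, u, q'), hR, rfl⟩)
      · exact ContextFreeRule.Rewrites.input_output (r := (rl (q, u, q') : ContextFreeRule X Q))
    rw [List.map_append]
    exact h1.trans_derives (ih.append_left _)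

end Wcf_aux

open Wcf_aux in
theorem tWcf : S_Wcf := by
  intro Q X _ _ R F h q
  refine ⟨gr R F h q, ?_⟩
  ext w
  constructor
  · intro hw
    obtain ⟨w', hw', hW⟩ := sound R F h q w [Symbol.nonterminal q] hw [] q (by simp)
    rw [List.nil_append] at hw'
    rw [hw']
    exact hW
  · intro hw
    exact complete R F h q w q hw

end MPdee884H2
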